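import Mathlib
import Pool.Agent.Q4.Gcd.Germ

set_option autoImplicit false
set_option linter.unusedSectionVars false

/-!
# Integers close to combinations of the forms
-/

namespace Pool.Agent.Q4.Cov

open Filter Topology Pool.Agent.TH932.Abs Pool.Agent.TH932.Germs Pool.Agent.TH932.Chi
open Pool.Agent.TH796.AL Pool.Agent.Q4.Blk Pool.Agent.Q4.Gcd Module

variable {m : ℕ} {B : Base m} {L : ℕ → ℝ} (hL : Tendsto L atTop atTop)
variable {F : IntermediateField ℚ ℝ} [FiniteDimensional ℚ F] {σ : Type} [Fintype σ] [DecidableEq σ]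
variable {θ : σ → F} {g0 : Fin m → ℝ} {y : σ → GG}

/-- integral relations and relations over the number field -/
lemma ind_F (F : IntermediateField ℚ ℝ) [FiniteDimensional ℚ F] {ι : Type*} [Fintype ι]
    (x : ι → GG) (hx : ∀ c : ι → ℤ, ∑ i, (c i : GG) * x i = 0 → ∀ i, c i = 0)
    (a : ι → F) (ha : ∑ i, algebraMap ℝ HR (a i : ℝ) * rho (x i) = 0) : ∀ i, a i = 0 := by
  classical
  -- rational relations
  have hxq : ∀ c : ι → ℚ, ∑ i, (c i : GG) * x i = 0 → ∀ i, c i = 0 := by
    intro c hc i
    set N : ℤ := ∏ j, ((c j).den : ℤ) with hN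
    have hN0 : (N : ℚ) ≠ 0 := by
      rw [hN]
      push_cast
      exact Finset.prod_ne_zero_iff.2 fun j _ => by exact_mod_cast (c j).den_nz
    have h1 : ∀ j, ∃ z : ℤ, (z : ℚ) = N * c j := by
      intro j
      refine ⟨(∏ k ∈ Finset.univ.erase j, ((c k).den : ℤ)) * (c j).num, ?_⟩
      rw [hN, ← Finset.mul_prod_erase _ _ (Finset.mem_univ j)]
      push_cast
      have := Rat.den_mul_eq_num (c j)
      rw [← this]
      ring
    choose z hz using h1
    have h2 := hx z (by
      have h3 : ∑ j, (z j : GG) * x j = (N : GG) * ∑ j, (c j : GG) * x j := by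
        rw [Finset.mul_sum]
        refine Finset.sum_congr rfl fun j _ => ?_
        have h4 : ((z j : ℚ) : GG) = ((N * c j : ℚ) : GG) := by rw [hz j]
        push_cast at h4
        rw [h4]
        ring
      rw [h3, hc, mul_zero]) i
    have h3 := hz i
    rw [h2] at h3
    push_cast at h3
    exact (mul_eq_zero.1 h3.symm).resolve_left hN0
  set β := Module.finBasis ℚ F with hβ
  have hβi : LinearIndependent ℚ (fun k => ((β k : F) : ℝ)) :=
    β.linearIndependent.map' (F.val.toLinearMap) (LinearMap.ker_eq_bot.2 F.val.injective)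
  have h1 : ∑ k, algebraMap ℝ HR ((β k : F) : ℝ) * rho (∑ i, ((β.repr (a i) k : ℚ) : GG) * x i)
      = 0 := by
    rw [← ha]
    simp only [map_sum, map_mul, Finset.mul_sum, rho_rat]
    rw [Finset.sum_comm]
    refine Finset.sum_congr rfl fun i _ => ?_
    have h2 : (a i : ℝ) = ∑ k, (β.repr (a i) k : ℝ) * ((β k : F) : ℝ) := by
      have h3 : ((∑ k, β.repr (a i) k • β k : F) : ℝ) = (a i : ℝ) :=
        congrArg (fun z : F => (z : ℝ)) (β.sum_repr (a i))
      rw [← h3, AddSubmonoidClass.coe_finsetSum]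
      refine Finset.sum_congr rfl fun k _ => ?_
      rw [Algebra.smul_def, MulMemClass.coe_mul]
      rfl
    rw [h2, map_sum, Finset.sum_mul]
    refine Finset.sum_congr rfl fun k _ => ?_
    rw [map_mul]
    ring
  have h2 := disj_thm _ inferInstance _ hβi _ h1
  intro i
  have h3 : ∀ k, β.repr (a i) k = 0 := fun k => hxq (fun i => β.repr (a i) k) (h2 k) i
  apply β.repr.map_eq_zero_iff.1
  ext k
  exact h3 k

/-- **Integers close to combinations of forms**, abstract version. -/
theorem close (F : IntermediateField ℚ ℝ) [FiniteDimensional ℚ F] {ι : Type} [Fintype ι]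
    [DecidableEq ι] (x : ι → GG) (z : ι → HR)
    (M : ι → ι → F) (hM : ∀ i k, ∑ j, M i j * M j k = if i = k then 1 else 0)
    (hz : ∀ i, z i = ∑ j, algebraMap ℝ HR (M i j : ℝ) * rho (x j))
    (hx : ∀ c : ι → ℤ, ∑ i, (c i : GG) * x i = 0 → ∀ i, c i = 0)
    (w : Fin m → ι → ℝ) (wI : ι → ℝ) (hxv : ∀ v i, x i ∈ Sv B L (some v) (w v i))
    (hzv : ∀ i, z i ∈ SR L (wI i)) (hxint : ∀ i, Sint B L (x i))
    (hsum : ∀ i, ∑ v, w v i + wI i = 0)
    (Y : GG) (hYv : ∀ v, Y ∈ Sv B L (some v) 0) (hYi : Sint B L Y) (c : ι → F) (e : ℝ)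
    (he : 0 < e) (hΛ : rho Y - ∑ a, algebraMap ℝ HR (c a : ℝ) * z a ∈ SR L e)
    (hL : Tendsto L atTop atTop) :
    ∃ γ : ι → ℚ, Y = ∑ a, (γ a : GG) * x a := by
  classical
  by_contra hcon
  push Not at hcon
  -- integral independence
  have hx' : ∀ b : Option ι → ℤ, ∑ i, (b i : GG) * (i.elim Y x) = 0 → ∀ i, b i = 0 := by
    intro b hb
    rw [Fintype.sum_option] at hb
    simp only [Option.elim] at hb
    by_cases h0 : b none = 0
    · rw [h0] at hb
      push_cast at hb
      rw [zero_mul, zero_add] at hb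
      have h2 := hx (fun a => b (some a)) hb
      intro i
      cases i with
      | none => exact h0
      | some a => exact h2 a
    · exfalso
      apply hcon (fun a => -(b (some a) : ℚ) / b none)
      have h1 : ((b none : ℤ) : GG) ≠ 0 := by exact_mod_cast h0
      have h2 : ((b none : ℤ) : GG) * Y = - ∑ a, ((b (some a) : ℤ) : GG) * x a :=
        eq_neg_of_add_eq_zero_left hb
      have h3 : Y = ((b none : ℤ) : GG)⁻¹ * (((b none : ℤ) : GG) * Y) := by
        rw [inv_mul_cancel_left₀ h1]
      rw [h3, h2, ← Finset.sum_neg_distrib, Finset.mul_sum]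
      refine Finset.sum_congr rfl fun a _ => ?_
      push_cast
      rw [div_eq_mul_inv]
      ring
  have hsm : ∀ (b : F) (w : HR), b • w = algebraMap ℝ HR (b : ℝ) * w := by
    intro b w
    rw [Algebra.smul_def]
    rfl
  have hcoe : ∀ a b : F, ((a * b : F) : ℝ) = (a : ℝ) * (b : ℝ) := fun a b => rfl
  have h1F : ((1 : F) : ℝ) = 1 := rfl
  have h0F : ((0 : F) : ℝ) = 0 := rfl
  -- the forms in terms of the elements
  obtain ⟨Λ, hΛdef⟩ : ∃ Λ : HR, Λ = rho Y - ∑ a, algebraMap ℝ HR (c a : ℝ) * z a := ⟨_, rfl⟩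
  rw [← hΛdef] at hΛ
  obtain ⟨A, hA0, hA1, hA2, hA3⟩ : ∃ A : Option ι → Option ι → F, A none none = 1 ∧
      (∀ b, A none (some b) = -∑ a, c a * M a b) ∧ (∀ a, A (some a) none = 0) ∧
      (∀ a b, A (some a) (some b) = M a b) :=
    ⟨fun i j => i.elim (j.elim 1 (fun b => -∑ a, c a * M a b)) (fun a => j.elim 0 (fun b => M a b)),
      rfl, fun _ => rfl, fun _ => rfl, fun _ _ => rfl⟩
  have hzx : ∀ i : Option ι, i.elim Λ z = ∑ j : Option ι, A i j • rho (j.elim Y x) := by
    intro i
    rw [Fintype.sum_option]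
    simp only [hsm]
    cases i with
    | none =>
      simp only [Option.elim, hA0, hA1]
      rw [h1F, map_one, one_mul, hΛdef, sub_eq_add_neg]
      congr 1
      rw [← Finset.sum_neg_distrib]
      have h2 : ∀ b, algebraMap ℝ HR ((-∑ a, c a * M a b : F) : ℝ) * rho (x b)
          = ∑ a, -(algebraMap ℝ HR (c a : ℝ) * (algebraMap ℝ HR (M a b : ℝ) * rho (x b))) := by
        intro b
        rw [NegMemClass.coe_neg, AddSubmonoidClass.coe_finsetSum, map_neg, map_sum, neg_mul,
          Finset.sum_mul, ← Finset.sum_neg_distrib]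
        refine Finset.sum_congr rfl fun a _ => ?_
        rw [hcoe, map_mul]
        ring
      simp only [h2]
      rw [Finset.sum_comm]
      refine Finset.sum_congr rfl fun a _ => ?_
      rw [hz, Finset.mul_sum, ← Finset.sum_neg_distrib]
    | some a =>
      simp only [Option.elim, hA2, hA3]
      rw [h0F, map_zero, zero_mul, zero_add, hz]
  have hzi : LinearIndependent F (fun i : Option ι => i.elim Λ z) := by
    rw [Fintype.linearIndependent_iff]
    intro b hb
    have h1 : ∀ j, ∑ i, b i * A i j = 0 := by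
      apply ind_F F _ hx'
      rw [← hb]
      simp only [hzx, hsm, Finset.mul_sum]
      rw [Finset.sum_comm]
      refine Finset.sum_congr rfl fun j _ => ?_
      rw [AddSubmonoidClass.coe_finsetSum, map_sum, Finset.sum_mul]
      refine Finset.sum_congr rfl fun i _ => ?_
      rw [hcoe, map_mul]
      ring
    have h2 : b none = 0 := by
      have := h1 none
      rw [Fintype.sum_option] at this
      simp only [hA0, hA2, mul_one, mul_zero, Finset.sum_const_zero, add_zero] at this
      exact this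
    have h3 : ∀ k, ∑ a, b (some a) * M a k = 0 := by
      intro k
      have := h1 (some k)
      rw [Fintype.sum_option] at this
      simp only [hA3, h2, zero_mul, zero_add] at this
      exact this
    intro i
    cases i with
    | none => exact h2
    | some a =>
      have h4 : b (some a) = ∑ k, (∑ a', b (some a') * M a' k) * M k a := by
        simp only [Finset.sum_mul]
        rw [Finset.sum_comm]
        have h5 : ∀ a', ∑ k, b (some a') * M a' k * M k a
            = b (some a') * (if a' = a then 1 else 0) := by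
          intro a'
          rw [← hM a' a, Finset.mul_sum]
          exact Finset.sum_congr rfl fun k _ => mul_assoc _ _ _
        simp only [h5]
        simp
      rw [h4]
      exact Finset.sum_eq_zero fun k _ => by rw [h3 k, zero_mul]
  obtain ⟨N, ε'⟩ : Σ N : ℕ, Fin N ≃ Option ι := ⟨_, (Fintype.equivFin _).symm⟩
  have key := fixa_thm m B L hL F inferInstance N
    (fun k => (ε' k).elim Y x) (fun k => (ε' k).elim Λ z) (fun v k => (ε' k).elim 0 (w v))
    (fun k => (ε' k).elim e wI)
    ?_ (hzi.comp _ ε'.injective) ?_ ?_ ?_ ?_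
  · have e1 : ∀ v, ∑ k, (ε' k).elim 0 (w v) = ∑ i : Option ι, i.elim 0 (w v) := fun v =>
      Equiv.sum_comp ε' (fun i : Option ι => i.elim 0 (w v))
    have e2 : ∑ k, (ε' k).elim e wI = ∑ i : Option ι, i.elim e wI :=
      Equiv.sum_comp ε' (fun i : Option ι => i.elim e wI)
    simp only [e1] at key
    rw [e2, Finset.sum_comm, ← Finset.sum_add_distrib, Fintype.sum_option] at key
    simp only [Option.elim, Finset.sum_const_zero, hsum] at key
    linarith
  · intro b hb i
    have h1 := hx' (fun j => b (ε'.symm j)) (by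
      rw [← hb, ← Equiv.sum_comp ε']
      refine Finset.sum_congr rfl fun k _ => ?_
      rw [Equiv.symm_apply_apply]) (ε' i)
    simpa using h1
  · intro i
    rw [hzx]
    refine Submodule.sum_mem _ fun j _ => Submodule.smul_mem _ _ (Submodule.subset_span ?_)
    exact ⟨ε'.symm j, by simp⟩
  · intro v k
    cases h : ε' k with
    | none => exact hYv v
    | some a => exact hxv v a
  · intro k
    cases h : ε' k with
    | none => exact hΛ
    | some a => exact hzv a
  · intro k
    cases h : ε' k with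
    | none => exact hYi
    | some a => exact hxint a

variable (H : Fam B L F θ (fun _ => g0) y) (hg1 : lv B none g0 ≠ 0) {κ : KK L hL} (hκ : κ ≠ 0)

include H hg1 hκ in
/-- **Integers close to combinations of the forms are combinations of the elements.** -/
theorem form_germ (d : ℕ) (h : Fin m → ℝ) (κ' : KK L hL) (hκ' : κ' ≠ 0) (Y : GG)
    (hYv : ∀ v, Y ∈ Sv B L (some v) 0) (hYi : Sint B L Y) (c : Ex (Option σ) d → F) (e : ℝ)
    (he : 0 < e)
    (hΛ : rho Y - ∑ a : Ex (Option σ) d, algebraMap ℝ HR (c a : ℝ)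
      * (rho ((κ' : GG) * ch B hL h) * Zh hL κ g0 θ y B a.1) ∈ SR L e) :
    ∃ γ : Ex (Option σ) d → ℚ,
      Y = ∑ a, (γ a : GG) * (((κ' : GG) * ch B hL h) * Xh hL κ g0 y B a.1) := by
  classical
  obtain ⟨T, hT⟩ : ∃ T : GG, T = (κ' : GG) * ch B hL h := ⟨_, rfl⟩
  rw [← hT] at hΛ ⊢
  have hT0 : T ≠ 0 := by
    rw [hT]
    refine mul_ne_zero (fun h0 => hκ' (Subtype.ext h0)) ?_
    intro h0
    have h1 := ch_add (B := B) hL h (-h)
    rw [add_neg_cancel, ch_zero, h0, zero_mul] at h1
    exact one_ne_zero h1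
  have hκv : ∀ (v : Option (Fin m)) (k : ℕ), (κ : GG) ^ k ∈ Sv B L v 0 := by
    intro v k
    have := (filt_v (B := B) hL v).alg_mem (κ ^ k)
    have h2 : algebraMap (KK L hL) GG (κ ^ k) = (κ : GG) ^ k := by rw [map_pow]; rfl
    rwa [h2] at this
  have hTv : ∀ v, T ∈ Sv B L v (lv B v h) := by
    intro v
    have := (filt_v (B := B) hL v).mul_mem ((filt_v (B := B) hL v).alg_mem κ') (ch_mem (B := B) hL v h)
    rw [zero_add] at this
    rw [hT]
    exact this
  refine close F (fun a : Ex (Option σ) d => T * Xh hL κ g0 y B a.1)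
    (fun a : Ex (Option σ) d => rho T * Zh hL κ g0 θ y B a.1) (fun a b => Mh θ a.1 b.1)
    (Mh_sq hL (B := B) hg1 d) ?_ ?_
    (fun v a => lv B (some v) h + (a.1 none : ℝ) * lv B (some v) g0)
    (fun a => lv B none h + (a.1 none : ℝ) * lv B none g0) ?_ ?_ ?_ ?_ Y hYv hYi c e he hΛ hL
  · intro a
    rw [Zh_eq hL hg1 κ d a, Finset.mul_sum]
    refine Finset.sum_congr rfl fun b _ => ?_
    rw [map_mul]
    ring
  · intro b hb a
    have h1 : T * ∑ a : Ex (Option σ) d, ((b a : KK L hL) : GG) * Xh hL κ g0 y B a.1 = 0 := by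
      rw [Finset.mul_sum, ← hb]
      refine Finset.sum_congr rfl fun a _ => ?_
      push_cast
      ring
    have h2 := Xh_indep hL H hg1 hκ d (fun a => (b a : KK L hL))
      ((mul_eq_zero.1 h1).resolve_left hT0) a
    exact_mod_cast h2
  · intro v a
    have h1 := (filt_v (B := B) hL (some v)).mul_mem (hκv (some v) (∑ i, a.1 i))
      (H.x_fin hL v (om g0 a.1))
    rw [sh_om, lv_smul, zero_add] at h1
    exact (filt_v (B := B) hL (some v)).mul_mem (hTv (some v)) h1
  · intro a
    have h1 := SR_mul hL (SR_rho (hκv none (∑ i, a.1 i))) (H.z_inf hL (om g0 a.1))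
    rw [sh_om, lv_smul, zero_add, map_pow] at h1
    exact SR_mul hL (SR_rho (hTv none)) h1
  · intro a
    refine Sint.mul hL ?_ ?_
    · rw [hT]
      exact Sint.mul hL (Sint.alg hL _) (ch_sint hL _)
    · exact Sint.mul hL (Sint_pow (Sint.alg hL _) _ hL) (H.x_int hL _)
  · intro a
    rw [Finset.sum_add_distrib, ← Finset.mul_sum, sum_fin_lv, sum_fin_lv]
    ring

end Pool.Agent.Q4.Cov
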