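import Mathlib
import Pool.Agent.Q4.Blk.Seq

set_option autoImplicit false
set_option linter.unusedSectionVars false

/-!
# Power series branches of algebraic functions
-/

namespace Pool.Agent.Q4.Cov

open Filter Topology Pool.Agent.TH932.Abs Pool.Agent.TH932.Germs

/-- Newton's iteration -/
lemma newton {A : Type*} [CommRing A] (I : Ideal A) (p : Polynomial A) (e0 w : A)
    (h0 : p.eval e0 ∈ I) (hw : p.derivative.eval e0 * w - 1 ∈ I) (r : ℕ) :
    ∃ E, E - e0 ∈ I ∧ p.eval E ∈ I ^ (r + 1) := by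
  induction r with
  | zero => exact ⟨e0, by simp, by simpa using h0⟩
  | succ r ih =>
    obtain ⟨E, hE, hp⟩ := ih
    have hpI : p.eval E ∈ I := Ideal.pow_le_self (by omega) hp
    refine ⟨E + -(w * p.eval E), ?_, ?_⟩
    · have : E + -(w * p.eval E) - e0 = (E - e0) - w * p.eval E := by ring
      rw [this]
      exact I.sub_mem hE (I.mul_mem_left _ hpI)
    · obtain ⟨k, hk⟩ := p.binomExpansion E (-(w * p.eval E))
      rw [hk]
      have h1 : p.derivative.eval E - p.derivative.eval e0 ∈ I :=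
        I.mem_of_dvd (Polynomial.sub_dvd_eval_sub E e0 p.derivative) hE
      have h2 : p.derivative.eval E * w - 1 ∈ I := by
        have : p.derivative.eval E * w - 1 = (p.derivative.eval E - p.derivative.eval e0) * w
          + (p.derivative.eval e0 * w - 1) := by ring
        rw [this]
        exact I.add_mem (I.mul_mem_right _ h1) hw
      have h3 : p.eval E + p.derivative.eval E * -(w * p.eval E) + k * (-(w * p.eval E)) ^ 2
          = -(p.eval E * (p.derivative.eval E * w - 1)) + k * w ^ 2 * (p.eval E * p.eval E) := by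
        ring
      rw [h3]
      refine Ideal.add_mem _ (neg_mem ?_) (Ideal.mul_mem_left _ _ ?_)
      · rw [pow_succ]
        exact Ideal.mul_mem_mul hp h2
      · rw [pow_succ]
        exact Ideal.mul_mem_mul hp hpI

section
variable {τ : Type} [Fintype τ] {K : Type*} [Field K] (φ : K →+* ℂ)

open MvPolynomial

/-- evaluation at a real point -/
noncomputable def evr (v : τ → ℝ) : MvPolynomial τ K →+* ℂ := eval₂Hom φ (fun i => (v i : ℂ))

/-- polynomials of order at least `r` at the origin -/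
def Ord (r : ℕ) (R : MvPolynomial τ K) : Prop :=
  ∃ C : ℝ, 0 ≤ C ∧ ∀ (v : τ → ℝ) (δ : ℝ), 0 ≤ δ → δ ≤ 1 → (∀ i, |v i| ≤ δ) →
    ‖evr φ v R‖ ≤ C * δ ^ r

lemma Ord.add {r : ℕ} {R Q : MvPolynomial τ K} (hR : Ord φ r R) (hQ : Ord φ r Q) :
    Ord φ r (R + Q) := by
  obtain ⟨C, hC, h1⟩ := hR
  obtain ⟨C', hC', h2⟩ := hQ
  refine ⟨C + C', by positivity, fun v δ h3 h4 h5 => ?_⟩
  rw [map_add, add_mul]
  exact (norm_add_le _ _).trans (add_le_add (h1 v δ h3 h4 h5) (h2 v δ h3 h4 h5))

lemma Ord.mul {r s : ℕ} {R Q : MvPolynomial τ K} (hR : Ord φ r R) (hQ : Ord φ s Q) :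
    Ord φ (r + s) (R * Q) := by
  obtain ⟨C, hC, h1⟩ := hR
  obtain ⟨C', hC', h2⟩ := hQ
  refine ⟨C * C', by positivity, fun v δ h3 h4 h5 => ?_⟩
  rw [map_mul, norm_mul, pow_add]
  calc ‖evr φ v R‖ * ‖evr φ v Q‖ ≤ (C * δ ^ r) * (C' * δ ^ s) :=
        mul_le_mul (h1 v δ h3 h4 h5) (h2 v δ h3 h4 h5) (norm_nonneg _) (by positivity)
    _ = C * C' * (δ ^ r * δ ^ s) := by ring

lemma Ord.mono {r s : ℕ} (hrs : r ≤ s) {R : MvPolynomial τ K} (hR : Ord φ s R) : Ord φ r R := by
  obtain ⟨C, hC, h1⟩ := hR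
  refine ⟨C, hC, fun v δ h3 h4 h5 => (h1 v δ h3 h4 h5).trans ?_⟩
  exact mul_le_mul_of_nonneg_left (pow_le_pow_of_le_one h3 h4 hrs) hC

lemma Ord.C (a : K) : Ord φ 0 (C a : MvPolynomial τ K) := by
  refine ⟨‖φ a‖, norm_nonneg _, fun v δ _ _ _ => ?_⟩
  unfold evr
  simp

lemma Ord.X (i : τ) : Ord φ 1 (X i : MvPolynomial τ K) := by
  refine ⟨1, zero_le_one, fun v δ _ _ h => ?_⟩
  unfold evr
  simp only [coe_eval₂Hom, eval₂_X, pow_one, one_mul, Complex.norm_real]
  exact h i

lemma Ord.any (R : MvPolynomial τ K) : Ord φ 0 R := by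
  induction R using MvPolynomial.induction_on with
  | C a => exact Ord.C φ a
  | add p q hp hq => exact hp.add φ hq
  | mul_X p i hp => exact hp.mul φ ((Ord.X φ i).mono φ (Nat.zero_le 1))

lemma Ord.sum {ι : Type*} (s : Finset ι) (f : ι → MvPolynomial τ K) (r : ℕ)
    (h : ∀ i ∈ s, Ord φ r (f i)) : Ord φ r (∑ i ∈ s, f i) := by
  classical
  induction s using Finset.induction_on with
  | empty =>
    refine ⟨0, le_rfl, fun v δ _ _ _ => ?_⟩
    simp
  | insert i s hi ih =>
    rw [Finset.sum_insert hi]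
    exact (h i (Finset.mem_insert_self _ _)).add φ (ih fun j hj => h j (Finset.mem_insert_of_mem hj))

lemma Ord.ker {R : MvPolynomial τ K} (hR : R ∈ RingHom.ker (constantCoeff (σ := τ) (R := K))) :
    Ord φ 1 R := by
  rw [R.as_sum]
  refine Ord.sum φ _ _ _ fun α hα => ?_
  have hα0 : α ≠ 0 := by
    rintro rfl
    rw [mem_support_iff] at hα
    exact hα hR
  obtain ⟨i, hi⟩ := Finsupp.ne_iff.1 hα0
  have h1 : monomial α (coeff α R) = MvPolynomial.X i * monomial (α - Finsupp.single i 1) (coeff α R) := by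
    rw [MvPolynomial.X, monomial_mul, one_mul]
    congr 1
    rw [add_tsub_cancel_of_le]
    rw [Finsupp.single_le_iff]
    exact Nat.one_le_iff_ne_zero.2 hi
  rw [h1]
  exact (Ord.X φ i).mul φ (Ord.any φ _)

lemma Ord.pow (r : ℕ) : ∀ {R : MvPolynomial τ K},
    R ∈ (RingHom.ker (constantCoeff (σ := τ) (R := K))) ^ r → Ord φ r R := by
  induction r with
  | zero => exact fun _ => Ord.any φ _
  | succ r ih =>
    intro R hR
    rw [pow_succ] at hR
    refine Submodule.mul_induction_on hR (fun a ha b hb => ?_) (fun a b ha hb => ha.add φ hb)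
    exact (ih ha).mul φ (Ord.ker φ hb)

/-- limits of values -/
lemma evr_lim (v : ℕ → τ → ℝ) (δ : ℕ → ℝ) (hδ : ∀ n, 0 ≤ δ n ∧ δ n ≤ 1)
    (hδ0 : Tendsto δ (UU : Filter ℕ) (𝓝 0)) (hv : ∀ n i, |v n i| ≤ δ n) (f : MvPolynomial τ K) :
    Tendsto (fun n => evr φ (v n) f) (UU : Filter ℕ) (𝓝 (φ (constantCoeff f))) := by
  have hf : f - MvPolynomial.C (constantCoeff f)
      ∈ RingHom.ker (constantCoeff (σ := τ) (R := K)) := by
    rw [RingHom.mem_ker, map_sub, constantCoeff_C, sub_self]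
  obtain ⟨C, hC, hb⟩ := Ord.ker φ hf
  have h2 : Tendsto (fun n => evr φ (v n) f - φ (constantCoeff f)) (UU : Filter ℕ) (𝓝 0) := by
    refine squeeze_zero_norm (a := fun n => C * δ n) (fun n => ?_) ?_
    · have h3 := hb (v n) (δ n) (hδ n).1 (hδ n).2 (hv n)
      rw [map_sub, pow_one] at h3
      have h4 : evr φ (v n) (MvPolynomial.C (constantCoeff f)) = φ (constantCoeff f) := by
        unfold evr
        simp
      rwa [h4] at h3
    · have := hδ0.const_mul C
      rwa [mul_zero] at this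
  have h3 := h2.add_const (φ (constantCoeff f))
  simpa using h3

/-- **Approximation of a branch.** -/
theorem branch (p : Polynomial (MvPolynomial τ K)) (η : K)
    (h0 : (p.map constantCoeff).eval η = 0) (h1 : (p.map constantCoeff).derivative.eval η ≠ 0)
    (v : ℕ → τ → ℝ) (δ : ℕ → ℝ) (hδ : ∀ n, 0 ≤ δ n ∧ δ n ≤ 1)
    (hδ0 : Tendsto δ (UU : Filter ℕ) (𝓝 0)) (hv : ∀ n i, |v n i| ≤ δ n) (Y : ℕ → ℂ)
    (hY : Tendsto Y (UU : Filter ℕ) (𝓝 (φ η)))
    (hroot : ∀ᶠ n in (UU : Filter ℕ), (p.map (evr φ (v n))).eval (Y n) = 0) (r : ℕ) :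
    ∃ E : MvPolynomial τ K, ∃ C : ℝ, 0 ≤ C ∧
      ∀ᶠ n in (UU : Filter ℕ), ‖Y n - evr φ (v n) E‖ ≤ C * δ n ^ (r + 1) := by
  set I := RingHom.ker (constantCoeff (σ := τ) (R := K)) with hI
  have hev : ∀ f : Polynomial (MvPolynomial τ K), constantCoeff (f.eval (MvPolynomial.C η))
      = (f.map constantCoeff).eval η := by
    intro f
    rw [Polynomial.eval_map, ← Polynomial.eval₂_id, Polynomial.hom_eval₂]
    congr 1
    exact constantCoeff_C _ _
  obtain ⟨E, hE, hpE⟩ := newton I p (MvPolynomial.C η)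
    (MvPolynomial.C ((p.map constantCoeff).derivative.eval η)⁻¹) (by
      rw [hI, RingHom.mem_ker, hev, h0]) (by
      rw [hI, RingHom.mem_ker, map_sub, map_mul, hev, map_one, constantCoeff_C,
        ← Polynomial.derivative_map, mul_inv_cancel₀ h1, sub_self]) r
  -- limits of evaluations
  have hlim : ∀ f : MvPolynomial τ K, Tendsto (fun n => evr φ (v n) f) (UU : Filter ℕ)
      (𝓝 (φ (constantCoeff f))) := evr_lim φ v δ hδ hδ0 hv
  have hE0 : constantCoeff E = η := by
    have h2 : constantCoeff (E - MvPolynomial.C η) = 0 := hE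
    rw [map_sub, constantCoeff_C] at h2
    exact sub_eq_zero.1 h2
  have hElim := hlim E
  rw [hE0] at hElim
  obtain ⟨C, hC, hb⟩ := Ord.pow φ (r + 1) hpE
  -- the quotient
  set R : ℕ → ℂ := fun n => ∑ i ∈ Finset.range (p.natDegree + 1), evr φ (v n) (p.coeff i) *
    ∑ j ∈ Finset.range i, (evr φ (v n) E) ^ j * (Y n) ^ (i - 1 - j) with hR
  have hsum : ∀ (n : ℕ) (x : ℂ), (p.map (evr φ (v n))).eval x
      = ∑ i ∈ Finset.range (p.natDegree + 1), evr φ (v n) (p.coeff i) * x ^ i := by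
    intro n x
    rw [Polynomial.eval_map, Polynomial.eval₂_eq_sum_range]
  have hquot : ∀ n, (p.map (evr φ (v n))).eval (Y n) = 0 →
      (p.map (evr φ (v n))).eval (evr φ (v n) E) = R n * (evr φ (v n) E - Y n) := by
    intro n hroot
    have h2 : (p.map (evr φ (v n))).eval (evr φ (v n) E)
        = (p.map (evr φ (v n))).eval (evr φ (v n) E) - (p.map (evr φ (v n))).eval (Y n) := by
      rw [hroot, sub_zero]
    rw [h2, hsum, hsum, ← Finset.sum_sub_distrib, hR]
    simp only []
    rw [Finset.sum_mul]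
    refine Finset.sum_congr rfl fun i _ => ?_
    rw [← mul_sub, ← (Commute.all (evr φ (v n) E) (Y n)).geom_sum₂_mul i, mul_assoc]
  have hRlim : Tendsto R (UU : Filter ℕ) (𝓝 (φ ((p.map constantCoeff).derivative.eval η))) := by
    have h2 : φ ((p.map constantCoeff).derivative.eval η)
        = ∑ i ∈ Finset.range (p.natDegree + 1), φ (constantCoeff (p.coeff i)) *
          ∑ j ∈ Finset.range i, (φ η) ^ j * (φ η) ^ (i - 1 - j) := by
      have h3 : ∀ i, ∑ j ∈ Finset.range i, (φ η) ^ j * (φ η) ^ (i - 1 - j)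
          = (i : ℂ) * (φ η) ^ (i - 1) := by
        intro i
        have h4 : ∀ j ∈ Finset.range i, (φ η) ^ j * (φ η) ^ (i - 1 - j) = (φ η) ^ (i - 1) := by
          intro j hj
          rw [← pow_add]
          congr 1
          have := Finset.mem_range.1 hj
          omega
        rw [Finset.sum_congr rfl h4, Finset.sum_const, Finset.card_range, nsmul_eq_mul]
      simp only [h3]
      have h5 : (p.map constantCoeff).derivative.eval η
          = ∑ i ∈ Finset.range (p.natDegree + 1), constantCoeff (p.coeff i) * (i * η ^ (i - 1)) := by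
        rw [Polynomial.derivative_eval, Polynomial.sum_over_range' _ (n := p.natDegree + 1)]
        · refine Finset.sum_congr rfl fun i _ => ?_
          rw [Polynomial.coeff_map]
          ring
        · intro i
          simp
        · exact Nat.lt_succ_of_le (Polynomial.natDegree_map_le)
      rw [h5, map_sum]
      refine Finset.sum_congr rfl fun i _ => ?_
      rw [map_mul, map_mul, map_pow, map_natCast]
    rw [h2, hR]
    refine tendsto_finsetSum _ fun i _ => (hlim _).mul (tendsto_finsetSum _ fun j _ => ?_)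
    exact (hElim.pow j).mul (hY.pow _)
  have hne : φ ((p.map constantCoeff).derivative.eval η) ≠ 0 := by
    rw [map_ne_zero]
    exact h1
  set c : ℝ := ‖φ ((p.map constantCoeff).derivative.eval η)‖ / 2 with hc
  have hc0 : 0 < c := by
    rw [hc]
    have := norm_pos_iff.2 hne
    positivity
  refine ⟨E, C / c, by positivity, ?_⟩
  filter_upwards [(hRlim.norm).eventually (lt_mem_nhds (show c < ‖φ ((p.map constantCoeff).derivative.eval η)‖ by
    rw [hc]; have := norm_pos_iff.2 hne; linarith)), hroot] with n hn hrn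
  have h2 := hb (v n) (δ n) (hδ n).1 (hδ n).2 (hv n)
  have h3 : evr φ (v n) (p.eval E) = (p.map (evr φ (v n))).eval (evr φ (v n) E) := by
    rw [Polynomial.eval_map, ← Polynomial.eval₂_id, Polynomial.hom_eval₂]
    rfl
  rw [h3, hquot n hrn, norm_mul] at h2
  rw [← norm_neg, neg_sub, div_mul_eq_mul_div, le_div_iff₀ hc0]
  calc ‖evr φ (v n) E - Y n‖ * c ≤ ‖evr φ (v n) E - Y n‖ * ‖R n‖ :=
        mul_le_mul_of_nonneg_left hn.le (norm_nonneg _)
    _ = ‖R n‖ * ‖evr φ (v n) E - Y n‖ := mul_comm _ _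
    _ ≤ _ := h2

end

end Pool.Agent.Q4.Cov
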