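import Mathlib
import Pool.Agent.Q4.Gcd.Thm
import Pool.Agent.Q4.Cov.Form
import Pool.Agent.Q4.Cov.Newton

set_option autoImplicit false
set_option linter.unusedSectionVars false

/-!
# Expansions at truncated products
-/

namespace Pool.Agent.Q4.Cov

open Filter Topology Pool.Agent.TH932.Abs Pool.Agent.TH932.Germs Pool.Agent.TH932.Chi
open Pool.Agent.TH796.AL Pool.Agent.Q4.Blk Pool.Agent.Q4.Gcd Module

section
variable {τ : Type} [Fintype τ] {K : Type*} [Field K] (φ : K →+* ℂ)

open MvPolynomial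

lemma Ord.pow' {R : MvPolynomial τ K} {r : ℕ} (hR : Ord φ r R) (k : ℕ) : Ord φ (k * r) (R ^ k) := by
  induction k with
  | zero => simpa using Ord.C φ (1 : K)
  | succ k ih =>
    rw [pow_succ, Nat.succ_mul]
    exact ih.mul φ hR

lemma Ord.monom (α : τ →₀ ℕ) (c : K) : Ord φ (∑ i, α i) (monomial α c) := by
  classical
  have h1 : ∀ s : Finset τ, Ord φ (∑ i ∈ s, α i) (∏ i ∈ s, (MvPolynomial.X i : MvPolynomial τ K) ^ α i) := by
    intro s
    induction s using Finset.induction_on with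
    | empty => simpa using Ord.C φ (1 : K)
    | insert i s hi ih =>
      rw [Finset.sum_insert hi, Finset.prod_insert hi]
      have h2 := (Ord.X φ i).pow' φ (α i)
      rw [mul_one] at h2
      exact h2.mul φ ih
  have h2 : monomial α c = MvPolynomial.C c * ∏ i, (MvPolynomial.X i : MvPolynomial τ K) ^ α i := by
    rw [monomial_eq, Finsupp.prod_fintype]
    simp
  rw [h2]
  have := (Ord.C φ c).mul φ (h1 Finset.univ)
  rwa [zero_add] at this

end

section
variable {σ : Type} [Fintype σ] [DecidableEq σ] {K : Type*} [Field K] (φ : K →+* ℂ)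

open MvPolynomial

/-- the point of the local parameters -/
noncomputable def vv (Q : ℝ) (f : σ → ℝ) : Option σ → ℝ := fun o => o.elim (1 / Q) (fun s => -f s / Q)

lemma vv_le {Q : ℝ} (hQ : 1 ≤ Q) {f : σ → ℝ} (hf : ∀ s, |f s| ≤ 1) (o : Option σ) :
    |vv Q f o| ≤ 1 / Q := by
  have hQ0 : 0 < Q := by linarith
  cases o with
  | none =>
    simp only [vv, Option.elim]
    rw [abs_of_pos (by positivity)]
  | some s =>
    simp only [vv, Option.elim]
    rw [abs_div, abs_neg, abs_of_pos hQ0]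
    exact div_le_div_of_nonneg_right (hf s) hQ0.le

/-- the involution of the exponents -/
def inv (D : ℕ) (a : Option σ → ℕ) : Option σ → ℕ := fun o => o.elim (D - ∑ i, a i) (fun s => a (some s))

lemma inv_mem {D : ℕ} {a : Option σ → ℕ} (ha : a ∈ Ex (Option σ) D) : inv D a ∈ Ex (Option σ) D := by
  rw [mem_Ex, Fintype.sum_option] at ha ⊢
  simp only [inv, Option.elim]
  rw [Fintype.sum_option]
  omega

lemma inv_inv {D : ℕ} {a : Option σ → ℕ} (ha : a ∈ Ex (Option σ) D) : inv D (inv D a) = a := by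
  rw [mem_Ex, Fintype.sum_option] at ha
  funext o
  cases o with
  | none =>
    simp only [inv, Option.elim, Fintype.sum_option]
    omega
  | some s => rfl

/-- **Expansion of a polynomial in the local parameters.** -/
theorem expand (E : MvPolynomial (Option σ) K) (D : ℕ) :
    ∃ (c : Ex (Option σ) D → K) (C : ℝ), 0 ≤ C ∧ ∀ (Q : ℝ), 1 ≤ Q → ∀ f : σ → ℝ,
      (∀ s, |f s| ≤ 1) →
      ‖(Q : ℂ) ^ D * evr φ (vv Q f) E - ∑ a : Ex (Option σ) D, φ (c a) *
        ((Q : ℂ) ^ (a.1 none) * ∏ s, (f s : ℂ) ^ (a.1 (some s)))‖ ≤ C / Q := by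
  classical
  -- the part of high order
  set E1 : MvPolynomial (Option σ) K := ∑ a : Ex (Option σ) D, monomial (fs a.1) (coeff (fs a.1) E)
    with hE1
  have hhigh : Ord φ (D + 1) (E - E1) := by
    have h1 : E - E1 = ∑ α ∈ (E - E1).support, monomial α (coeff α (E - E1)) := (E - E1).as_sum
    rw [h1]
    refine Ord.sum φ _ _ _ fun α hα => ?_
    refine (Ord.monom φ α _).mono φ ?_
    by_contra hlt
    push Not at hlt
    rw [MvPolynomial.mem_support_iff] at hα
    apply hα
    have hmem : ((α : Option σ → ℕ)) ∈ Ex (Option σ) D := by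
      rw [mem_Ex]
      omega
    rw [coeff_sub, hE1, coeff_sum, Finset.sum_eq_single ⟨(α : Option σ → ℕ), hmem⟩]
    · rw [coeff_monomial, fs_coe, if_pos rfl, sub_self]
    · intro b _ hb
      rw [coeff_monomial, if_neg]
      intro h
      apply hb
      apply Subtype.ext
      exact congrArg (fun n : Option σ →₀ ℕ => (n : Option σ → ℕ)) h
    · intro h
      exact absurd (Finset.mem_univ _) h
  obtain ⟨C, hC, hb⟩ := hhigh
  refine ⟨fun a => coeff (fs (inv D a.1)) E * (-1) ^ (∑ s, a.1 (some s)), C, hC, ?_⟩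
  intro Q hQ f hf
  have hQ0 : 0 < Q := by linarith
  have hQc : (Q : ℂ) ≠ 0 := by exact_mod_cast hQ0.ne'
  have hmain : (Q : ℂ) ^ D * evr φ (vv Q f) E1 = ∑ a : Ex (Option σ) D,
      φ (coeff (fs (inv D a.1)) E * (-1) ^ (∑ s, a.1 (some s))) *
        ((Q : ℂ) ^ (a.1 none) * ∏ s, (f s : ℂ) ^ (a.1 (some s))) := by
    set e : Ex (Option σ) D ≃ Ex (Option σ) D :=
      ⟨fun a => ⟨inv D a.1, inv_mem a.2⟩, fun a => ⟨inv D a.1, inv_mem a.2⟩,
        fun a => Subtype.ext (inv_inv a.2), fun a => Subtype.ext (inv_inv a.2)⟩ with he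
    rw [← Equiv.sum_comp e, hE1, map_sum, Finset.mul_sum]
    refine Finset.sum_congr rfl fun a _ => ?_
    have h1 : (e a).1 = inv D a.1 := rfl
    rw [h1, inv_inv a.2]
    have h2 : evr φ (vv Q f) (monomial (fs a.1) (coeff (fs a.1) E))
        = φ (coeff (fs a.1) E) * ((1 / Q : ℂ) ^ (a.1 none) * ∏ s, (-f s / Q : ℂ) ^ (a.1 (some s))) := by
      unfold evr
      rw [coe_eval₂Hom, eval₂_monomial, Finsupp.prod_fintype _ _ (by simp), Fintype.prod_option]
      congr 2
      · simp only [vv, Option.elim]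
        push_cast
        rfl
      · refine Finset.prod_congr rfl fun s _ => ?_
        simp only [vv, Option.elim]
        push_cast
        rfl
    rw [h2, map_mul, map_pow, map_neg, map_one]
    have h3 : (inv D a.1) none = D - ∑ i, a.1 i := rfl
    have h4 : ∀ s, (inv D a.1) (some s) = a.1 (some s) := fun s => rfl
    simp only [h3, h4]
    have h5 : ∏ s, (-f s / Q : ℂ) ^ (a.1 (some s)) = (-1) ^ (∑ s, a.1 (some s))
        * (∏ s, (f s : ℂ) ^ (a.1 (some s))) * (1 / Q : ℂ) ^ (∑ s, a.1 (some s)) := by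
      rw [← Finset.prod_pow_eq_pow_sum, ← Finset.prod_pow_eq_pow_sum, ← Finset.prod_mul_distrib,
        ← Finset.prod_mul_distrib]
      refine Finset.prod_congr rfl fun s _ => ?_
      rw [← mul_pow, ← mul_pow]
      congr 1
      ring
    rw [h5]
    have h6 : (Q : ℂ) ^ D = (Q : ℂ) ^ (D - ∑ i, a.1 i) * (Q : ℂ) ^ (a.1 none)
        * (Q : ℂ) ^ (∑ s, a.1 (some s)) := by
      rw [← pow_add, ← pow_add]
      congr 1
      have := mem_Ex.1 a.2
      rw [Fintype.sum_option] at this ⊢
      omega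
    rw [h6]
    have h7 : ∀ k : ℕ, (Q : ℂ) ^ k * (1 / Q : ℂ) ^ k = 1 := by
      intro k
      rw [← mul_pow, mul_one_div_cancel hQc, one_pow]
    calc _ = φ (coeff (fs a.1) E) * (-1) ^ (∑ s, a.1 (some s)) * ((Q : ℂ) ^ (D - ∑ i, a.1 i)
        * (∏ s, (f s : ℂ) ^ (a.1 (some s)))) * ((Q : ℂ) ^ (a.1 none) * (1 / Q : ℂ) ^ (a.1 none))
        * ((Q : ℂ) ^ (∑ s, a.1 (some s)) * (1 / Q : ℂ) ^ (∑ s, a.1 (some s))) := by ring
      _ = _ := by rw [h7, h7]; ring
  rw [← hmain, ← mul_sub, ← map_sub, norm_mul, norm_pow, Complex.norm_real, Real.norm_of_nonneg hQ0.le]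
  have h1 := hb (vv Q f) (1 / Q) (by positivity) (by rw [div_le_one hQ0]; exact hQ) (vv_le hQ hf)
  calc Q ^ D * ‖evr φ (vv Q f) (E - E1)‖ ≤ Q ^ D * (C * (1 / Q) ^ (D + 1)) :=
        mul_le_mul_of_nonneg_left h1 (by positivity)
    _ = C / Q := by
        rw [pow_succ, one_div, inv_pow]
        field_simp

end

section
variable {m : ℕ} {B : Base m} {L : ℕ → ℝ} (hL : Tendsto L atTop atTop)
variable {F : IntermediateField ℚ ℝ} [FiniteDimensional ℚ F] {σ : Type} [Fintype σ] [DecidableEq σ]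

/-- the real values of the forms -/
noncomputable def zval (θ : σ → ℝ) (q : ℕ) (a : Option σ → ℕ) : ℝ :=
  (q : ℝ) ^ (a none) * ∏ s, (Int.fract (θ s * q)) ^ (a (some s))

lemma gr_pow' (a : ℕ → ℝ) (k : ℕ) : gr a ^ k = gr (fun n => a n ^ k) := by
  induction k with
  | zero =>
    rw [pow_zero]
    have : (fun n => a n ^ 0) = fun _ => (1 : ℝ) := by funext n; simp
    rw [this]
    have h := cst_eq 1
    rw [map_one] at h
    exact h
  | succ k ih =>
    rw [pow_succ, ih, gr_mul]
    congr 1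

lemma gr_prod' {ι : Type*} (s : Finset ι) (f : ι → ℕ → ℝ) :
    ∏ i ∈ s, gr (f i) = gr (fun n => ∏ i ∈ s, f i n) := by
  classical
  induction s using Finset.induction_on with
  | empty =>
    rw [Finset.prod_empty]
    have : (fun n : ℕ => ∏ i ∈ (∅ : Finset ι), f i n) = fun _ => (1 : ℝ) := by funext n; simp
    rw [this]
    have h := cst_eq 1
    rw [map_one] at h
    exact h
  | insert i s hi ih =>
    rw [Finset.prod_insert hi, ih, gr_mul]
    congr 1
    funext n
    rw [Finset.prod_insert hi]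

lemma gr_sum' {ι : Type*} (s : Finset ι) (f : ι → ℕ → ℝ) :
    ∑ i ∈ s, gr (f i) = gr (fun n => ∑ i ∈ s, f i n) := by
  classical
  induction s using Finset.induction_on with
  | empty =>
    rw [Finset.sum_empty]
    have : (fun n : ℕ => ∑ i ∈ (∅ : Finset ι), f i n) = fun _ => (0 : ℝ) := by funext n; simp
    rw [this]
    have h := cst_eq 0
    rw [map_zero] at h
    exact h
  | insert i s hi ih =>
    rw [Finset.sum_insert hi, ih, gr_add]
    congr 1
    funext n
    rw [Finset.sum_insert hi]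

lemma Zh_gr (θ : σ → F) (q : ℕ → ℕ) (hq : ∀ n, q n ≠ 0) (κ : KK L hL) (g0 : Fin m → ℝ)
    (hu : gm (fun n => (q n : ℚ)) = (κ : GG) * ch B hL g0) (a : Option σ → ℕ) :
    Zh hL κ g0 θ (fun s => gm (fun n => (⌊(θ s : ℝ) * q n⌋ : ℚ) / q n)) B a
      = gr (fun n => zval (fun s => (θ s : ℝ)) (q n) a) := by
  have hu' : rho ((κ : GG) * ch B hL g0) = gr (fun n => (q n : ℝ)) := by
    rw [← hu, rho_gm]
    congr 1
  have h1 : ∀ s, rho ((κ : GG) * ch B hL g0) * (algebraMap ℝ HR (θ s : ℝ)
      - rho (gm (fun n => (⌊(θ s : ℝ) * q n⌋ : ℚ) / q n)))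
      = gr (fun n => Int.fract ((θ s : ℝ) * q n)) := by
    intro s
    rw [hu', rho_gm, cst_eq, gr_sub, gr_mul, gr_eq]
    refine Eventually.of_forall fun n => ?_
    have : (q n : ℝ) ≠ 0 := by exact_mod_cast hq n
    rw [Int.fract]
    push_cast
    field_simp
  have h2 : gr (fun n => zval (fun s => (θ s : ℝ)) (q n) a)
      = (rho ((κ : GG) * ch B hL g0)) ^ (a none) * ∏ s, (rho ((κ : GG) * ch B hL g0)
        * (algebraMap ℝ HR (θ s : ℝ) - rho (gm (fun n => (⌊(θ s : ℝ) * q n⌋ : ℚ) / q n))))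
          ^ (a (some s)) := by
    simp only [h1]
    rw [hu']
    simp only [gr_pow']
    rw [gr_prod', gr_mul]
    rfl
  rw [h2]
  unfold Zh zz om
  simp only []
  rw [ch_nsmul]
  simp only [mul_pow, Finset.prod_mul_distrib, map_mul, map_pow]
  rw [Finset.prod_pow_eq_pow_sum, Finset.prod_pow_eq_pow_sum, Fintype.sum_option, pow_add, pow_add]
  ring

end

section
variable {σ : Type} [Fintype σ] [DecidableEq σ]

/-- **The engine**: integers close to `tw` times an algebraic combination of the forms are `tw`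
times the values of a rational polynomial. -/
theorem engine (S : Finset ℕ) (hS : ∀ p ∈ S, p.Prime) (θ : σ → ℝ)
    (halg : ∀ s, IsAlgebraic ℚ (θ s))
    (hind : LinearIndependent ℚ (fun o : Option σ => (o.elim 1 (fun s => θ s) : ℝ)))
    (q : ℕ → ℕ) (hq : ∀ n, n + 2 ≤ q n) (hqS : ∀ n, (q n).primeFactors ⊆ S) (D : ℕ)
    (tw : ℕ → ℕ) (htw0 : ∀ n, tw n ≠ 0) (htwS : ∀ n, (tw n).primeFactors ⊆ S) (ρ C1 : ℝ)
    (hρ : ρ < 1) (htw : ∀ n, Real.log (tw n) ≤ ρ * Real.log (q n) + C1) (y : ℕ → ℤ)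
    (c : Ex (Option σ) D → ℝ) (hc : ∀ a, IsAlgebraic ℚ (c a)) (C : ℝ)
    (happ : ∀ᶠ n in (UU : Filter ℕ), |(y n : ℝ) - tw n * ∑ a, c a * zval θ (q n) a.1|
      ≤ C * (tw n / q n)) :
    ∃ γ : Ex (Option σ) D → ℚ, ∀ᶠ n in (UU : Filter ℕ), (y n : ℚ)
      = tw n * ∑ a, γ a * ∏ i, (pt θ (q n) i : ℚ) ^ (a.1 i) := by
  classical
  set B := bas S hS with hB
  set L : ℕ → ℝ := fun n => Real.log (q n) with hLdef
  have hL : Tendsto L atTop atTop := by
    apply Real.tendsto_log_atTop.comp
    apply tendsto_natCast_atTop_atTop.comp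
    exact tendsto_atTop_mono (fun n => (Nat.le_add_right n 2).trans (hq n)) tendsto_id
  have hq0 : ∀ n, q n ≠ 0 := fun n => by have := hq n; omega
  have hLpos : ∀ n, 0 < L n := fun n => by
    apply Real.log_pos
    have := hq n
    have h2 : 2 ≤ q n := by omega
    exact_mod_cast h2
  have hqexp : ∀ n, (q n : ℝ) = Real.exp (L n) := fun n => by
    rw [hLdef]
    have : (0 : ℝ) < q n := by exact_mod_cast Nat.pos_of_ne_zero (hq0 n)
    exact (Real.exp_log this).symm
  -- the unit
  have e : ∀ n, q n = ∏ i, B.P i ^ ((q n).factorization (B.P i)) := fun n =>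
    eq_prod hS (hq0 n) (hqS n)
  obtain ⟨g0, κ, hκ, hu, hlim⟩ := unit_germ (B := B) hL
    (fun n i => (q n).factorization (B.P i)) 1 (Eventually.of_forall fun n => by
      rw [← log_prod_bas hS, ← e, one_mul])
  have hu' : gm (fun n => (q n : ℚ)) = (κ : GG) * ch B hL g0 := by
    rw [← hu]
    congr 1
    funext n
    rw [← e]
  have hlam : -lv B none g0 = 1 := by
    have h4 := lim_log hS _ g0 hlim
    have h5 : Tendsto (fun n => Real.log ((∏ i, (bas S hS).P i ^ ((q n).factorization (B.P i)) : ℕ) : ℝ)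
        / L n) (UU : Filter ℕ) (𝓝 1) := by
      refine tendsto_const_nhds.congr fun n => ?_
      have h6 : ∏ i, (bas S hS).P i ^ ((q n).factorization (B.P i)) = q n := (e n).symm
      rw [h6]
      exact (div_self (hLpos n).ne').symm
    exact tendsto_nhds_unique h4 h5
  have hg1 : lv B none g0 ≠ 0 := by
    intro h
    rw [h] at hlam
    norm_num at hlam
  -- the twist
  have e' : ∀ n, tw n = ∏ i, B.P i ^ ((tw n).factorization (B.P i)) := fun n =>
    eq_prod hS (htw0 n) (htwS n)
  obtain ⟨C2, hC2⟩ : ∃ C2 : ℝ, ∀ n, Real.log (tw n) ≤ C2 * L n := by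
    refine ⟨ρ + |C1| / Real.log 2, fun n => ?_⟩
    have h2 : Real.log 2 ≤ L n := by
      apply Real.log_le_log (by norm_num)
      have := hq n
      have h2 : 2 ≤ q n := by omega
      exact_mod_cast h2
    have hl2 : 0 < Real.log 2 := Real.log_pos (by norm_num)
    have h3 : C1 ≤ |C1| / Real.log 2 * L n := by
      calc C1 ≤ |C1| := le_abs_self _
        _ = |C1| / Real.log 2 * Real.log 2 := by field_simp
        _ ≤ _ := mul_le_mul_of_nonneg_left h2 (by positivity)
    have h4 := htw n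
    rw [add_mul]
    linarith
  obtain ⟨h, κ', hκ', hu2, hlim2⟩ := unit_germ (B := B) hL
    (fun n i => (tw n).factorization (B.P i)) C2 (Eventually.of_forall fun n => by
      rw [← log_prod_bas hS, ← e']
      exact hC2 n)
  have hu2' : gm (fun n => (tw n : ℚ)) = (κ' : GG) * ch B hL h := by
    rw [← hu2]
    congr 1
    funext n
    rw [← e']
  -- the number field
  set F : IntermediateField ℚ ℝ := IntermediateField.adjoin ℚ (Set.range θ ∪ Set.range c) with hF
  have hfin : FiniteDimensional ℚ F := by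
    have : Finite ↑(Set.range θ ∪ Set.range c) := by
      have h1 : (Set.range θ ∪ Set.range c).Finite := (Set.finite_range _).union (Set.finite_range _)
      exact h1
    apply IntermediateField.finiteDimensional_adjoin
    rintro _ (⟨l, rfl⟩ | ⟨l, rfl⟩)
    · exact (halg l).isIntegral
    · exact (hc l).isIntegral
  have hθF : ∀ l, θ l ∈ F := fun l => IntermediateField.subset_adjoin ℚ _ (Or.inl ⟨l, rfl⟩)
  have hcF : ∀ l, c l ∈ F := fun l => IntermediateField.subset_adjoin ℚ _ (Or.inr ⟨l, rfl⟩)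
  set yy : σ → GG := fun s => gm (fun n => (⌊θ s * q n⌋ : ℚ) / q n) with hyy
  have H : Fam B L F (fun s => (⟨θ s, hθF s⟩ : F)) (fun _ => g0) yy := by
    have hq' : ∀ s, _ := fun s => quot (B := B) hL g0 κ hκ q hq0 hu' (θ s)
    refine ⟨fun v s => (hq' s).1 v, fun s => (hq' s).2.1, fun s => (hq' s).2.2, fun s => ?_,
      fun s => ?_⟩
    · rw [hlam]; norm_num
    · have h1 := hind.comp
        (Option.map (fun t : {t : σ // lv B none g0 = lv B none g0} => t.1))
        (Option.map_injective Subtype.val_injective)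
      convert h1 using 1
      funext o
      cases o <;> rfl
  have hX : ∀ a, Xh hL κ g0 yy B a = gm (fun n => ∏ i, (pt θ (q n) i : ℚ) ^ (a i)) :=
    Xh_gm hL θ q hq0 κ g0 hu'
  have hZ : ∀ a, Zh hL κ g0 (fun s => (⟨θ s, hθF s⟩ : F)) yy B a
      = gr (fun n => zval θ (q n) a) :=
    Zh_gr hL (fun s => (⟨θ s, hθF s⟩ : F)) q hq0 κ g0 hu'
  obtain ⟨γ, hγ⟩ := form_germ hL H hg1 hκ D h κ' hκ' (gm (fun n => (y n : ℚ)))
    (fun v => int_germ hL v y) (Sint_int hL y) (fun a => ⟨c a, hcF a⟩) (1 - ρ) (by linarith) (by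
      rw [← hu2', rho_gm, rho_gm]
      simp only [hZ, cst_eq, gr_mul]
      rw [gr_sum', gr_sub, mem_SR]
      intro η hη
      have hbig : ∀ᶠ n in (UU : Filter ℕ), Real.log (|C| * Real.exp C1 + 1) / η ≤ L n :=
        ev_of_atTop (hL.eventually_ge_atTop _)
      filter_upwards [happ, hbig] with n h1 h2
      have h3 : ((((y n : ℚ) : ℝ)) - ∑ a : Ex (Option σ) D, c a * (((tw n : ℚ) : ℝ) * zval θ (q n) a.1))
          = (y n : ℝ) - tw n * ∑ a, c a * zval θ (q n) a.1 := by
        push_cast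
        rw [Finset.mul_sum]
        congr 1
        exact Finset.sum_congr rfl fun a _ => by ring
      change |(((y n : ℚ) : ℝ)) - ∑ a : Ex (Option σ) D, c a * (((tw n : ℚ) : ℝ) * zval θ (q n) a.1)| ≤ _
      rw [h3]
      have h4 : (tw n : ℝ) ≤ Real.exp C1 * Real.exp (ρ * L n) := by
        have h5 : (0 : ℝ) < tw n := by exact_mod_cast Nat.pos_of_ne_zero (htw0 n)
        rw [← Real.exp_add, ← Real.log_le_iff_le_exp h5]
        have := htw n
        rw [add_comm]
        exact this
      have h5 : |C| * Real.exp C1 ≤ Real.exp (η * L n) := by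
        rw [div_le_iff₀ hη] at h2
        have h2' : Real.log (|C| * Real.exp C1 + 1) ≤ η * L n := by linarith
        have h6 : (0 : ℝ) < |C| * Real.exp C1 + 1 := by positivity
        have h7 := (Real.log_le_iff_le_exp h6).1 h2'
        linarith
      calc |(y n : ℝ) - tw n * ∑ a, c a * zval θ (q n) a.1| ≤ C * (tw n / q n) := h1
        _ ≤ |C| * (tw n / q n) := mul_le_mul_of_nonneg_right (le_abs_self _) (by positivity)
        _ ≤ |C| * (Real.exp C1 * Real.exp (ρ * L n) / q n) := by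
            apply mul_le_mul_of_nonneg_left _ (abs_nonneg _)
            apply div_le_div_of_nonneg_right h4 (by positivity)
        _ = (|C| * Real.exp C1) * Real.exp (ρ * L n - L n) := by
            rw [hqexp n, Real.exp_sub]
            ring
        _ ≤ Real.exp (η * L n) * Real.exp (ρ * L n - L n) :=
            mul_le_mul_of_nonneg_right h5 (Real.exp_pos _).le
        _ = Real.exp (-(1 - ρ - η) * L n) := by
            rw [← Real.exp_add]
            congr 1
            ring)
  refine ⟨γ, ?_⟩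
  rw [← hu2'] at hγ
  simp only [hX, rat_gm, gm_mul] at hγ
  rw [gm_sum, gm_eq] at hγ
  filter_upwards [hγ] with n hn
  rw [hn, Finset.mul_sum]
  exact Finset.sum_congr rfl fun a _ => by ring

end

end Pool.Agent.Q4.Cov
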