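import Mathlib
import Pool.Agent.Q4.Cov.Expand

set_option autoImplicit false
set_option linter.unusedSectionVars false

/-!
# Polynomials at truncated products
-/

namespace Pool.Agent.Q4.Cov

open Filter Topology Pool.Agent.TH932.Abs Pool.Agent.TH932.Germs Pool.Agent.TH932.Chi
open Pool.Agent.TH796.AL Pool.Agent.Q4.Blk Pool.Agent.Q4.Gcd Module

section
variable {σ : Type} [Fintype σ] [DecidableEq σ] {K : Type*} [Field K] (φ : K →+* ℂ)

open MvPolynomial

/-- a polynomial of degree at most `d` in the local parameters -/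
noncomputable def hmg (θK : σ → K) (d : ℕ) (F : MvPolynomial (Option σ) ℤ) :
    MvPolynomial (Option σ) K :=
  ∑ α ∈ F.support, C (((F.coeff α : ℤ)) : K) * (X none ^ (d - ∑ i, α i)
    * ∏ s, (C (θK s) + X (some s)) ^ (α (some s)))

/-- the fractional parts -/
noncomputable def frs (θ : σ → ℝ) (q : ℕ) : σ → ℝ := fun s => Int.fract (θ s * q)

lemma frs_le (θ : σ → ℝ) (q : ℕ) (s : σ) : |frs θ q s| ≤ 1 := by
  unfold frs
  rw [abs_of_nonneg (Int.fract_nonneg _)]
  exact (Int.fract_lt_one _).le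

lemma evr_hmg {θK : σ → K} {θ : σ → ℝ} (hθ : ∀ s, φ (θK s) = (θ s : ℂ)) (d : ℕ)
    (F : MvPolynomial (Option σ) ℤ) (hd : F.totalDegree ≤ d) (q : ℕ) (hq : q ≠ 0) :
    (q : ℂ) ^ d * evr φ (vv q (frs θ q)) (hmg θK d F) = ((eval (pt θ q) F : ℤ) : ℂ) := by
  have hqc : (q : ℂ) ≠ 0 := by exact_mod_cast hq
  have hqr : (q : ℝ) ≠ 0 := by exact_mod_cast hq
  unfold hmg
  rw [map_sum, Finset.mul_sum, eval_eq', Int.cast_sum]
  refine Finset.sum_congr rfl fun α hα => ?_
  rw [map_mul, map_mul, map_pow, map_prod]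
  simp only [map_pow, map_add]
  have h1 : ∀ c : K, evr φ (vv q (frs θ q)) (C c) = φ c := fun c => by unfold evr; simp
  have h2 : ∀ i : Option σ, evr φ (vv q (frs θ q)) (X i) = ((vv q (frs θ q) i : ℝ) : ℂ) :=
    fun i => by unfold evr; simp
  simp only [h1, h2, hθ]
  have h3 : ∀ s, (θ s : ℂ) + ((vv q (frs θ q) (some s) : ℝ) : ℂ) = (⌊θ s * q⌋ : ℂ) * (1 / q) := by
    intro s
    have h4 : θ s + vv q (frs θ q) (some s) = (⌊θ s * q⌋ : ℝ) * (1 / q) := by
      simp only [vv, Option.elim, frs, Int.fract]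
      field_simp
      ring
    have h5 : ((θ s + vv q (frs θ q) (some s) : ℝ) : ℂ) = (((⌊θ s * q⌋ : ℝ) * (1 / q) : ℝ) : ℂ) := by
      rw [h4]
    push_cast at h5
    exact h5
  have h4 : ((vv q (frs θ q) none : ℝ) : ℂ) = 1 / q := by
    simp only [vv, Option.elim]
    push_cast
    rfl
  simp only [h3, h4, mul_pow, Finset.prod_mul_distrib]
  rw [Finset.prod_pow_eq_pow_sum]
  have h6 : ∑ i, α i ≤ d := by
    have := le_totalDegree hα
    rw [sum_fs] at this
    exact this.trans hd
  have h7 : (q : ℂ) ^ d = (q : ℂ) ^ (α none) * (q : ℂ) ^ (d - ∑ i, α i)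
      * (q : ℂ) ^ (∑ s, α (some s)) := by
    rw [← pow_add, ← pow_add]
    congr 1
    rw [Fintype.sum_option] at h6 ⊢
    omega
  have h8 : ∀ k : ℕ, (q : ℂ) ^ k * (1 / q : ℂ) ^ k = 1 := by
    intro k
    rw [← mul_pow, mul_one_div_cancel hqc, one_pow]
  rw [h7, map_intCast]
  push_cast
  rw [Fintype.prod_option]
  simp only [pt, Option.elim]
  push_cast
  calc _ = ((F.coeff α : ℤ) : ℂ) * ((q : ℂ) ^ (α none) * ∏ s, (⌊θ s * q⌋ : ℂ) ^ (α (some s)))
        * ((q : ℂ) ^ (d - ∑ i, α i) * (1 / q : ℂ) ^ (d - ∑ i, α i))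
        * ((q : ℂ) ^ (∑ s, α (some s)) * (1 / q : ℂ) ^ (∑ s, α (some s))) := by ring
    _ = _ := by rw [h8, h8]; ring

/-- the value at infinity of a polynomial of degree at most `d` -/
noncomputable def topv {R : Type*} [CommRing R] (d : ℕ) (F : MvPolynomial (Option σ) ℤ) (t : σ → R) : R :=
  aeval (fun o : Option σ => o.elim 1 t) (homogeneousComponent d F)

lemma deg_eq (α : Option σ →₀ ℕ) : α.degree = ∑ i, α i := by
  rw [Finsupp.degree_eq_sum]

lemma topv_eq {R : Type*} [CommRing R] (d : ℕ) (F : MvPolynomial (Option σ) ℤ) (t : σ → R) :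
    topv d F t = ∑ α ∈ F.support.filter (fun α => ∑ i, α i = d), ((F.coeff α : ℤ) : R)
      * ∏ s, (t s) ^ (α (some s)) := by
  unfold topv
  rw [homogeneousComponent_apply, map_sum]
  simp only [deg_eq]
  refine Finset.sum_congr rfl fun α _ => ?_
  rw [aeval_monomial, Finsupp.prod_fintype _ _ (by simp), Fintype.prod_option]
  simp

lemma cc_hmg (θK : σ → K) (d : ℕ) (F : MvPolynomial (Option σ) ℤ) (hd : F.totalDegree ≤ d) :
    constantCoeff (hmg θK d F) = topv d F θK := by
  rw [topv_eq]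
  unfold hmg
  rw [map_sum, Finset.sum_filter]
  refine Finset.sum_congr rfl fun α hα => ?_
  rw [map_mul, map_mul, map_pow, map_prod, constantCoeff_X, constantCoeff_C]
  simp only [map_pow, map_add, constantCoeff_X, constantCoeff_C, add_zero]
  have h6 : ∑ i, α i ≤ d := by
    have := le_totalDegree hα
    rw [sum_fs] at this
    exact this.trans hd
  by_cases h : ∑ i, α i = d
  · rw [if_pos h, h]
    simp
  · rw [if_neg h, zero_pow (by omega)]
    simp

end

/-- bounded complex sequences converge along the ultrafilter -/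
lemma exists_limc (f : ℕ → ℂ) (K : ℝ) (h : ∀ᶠ n in (UU : Filter ℕ), ‖f n‖ ≤ K) :
    ∃ x, Tendsto f (UU : Filter ℕ) (𝓝 x) := by
  obtain ⟨x, _, hx⟩ := (isCompact_closedBall (0 : ℂ) K).ultrafilter_le_nhds (UU.map f) (by
    rw [Filter.le_principal_iff, Ultrafilter.coe_map, Filter.mem_map]
    filter_upwards [h] with n hn
    rw [Set.mem_preimage, mem_closedBall_zero_iff]
    exact hn)
  exact ⟨x, hx⟩

section
variable {σ : Type} [Fintype σ] [DecidableEq σ]

open MvPolynomial

/-- the family of a sequence of units -/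
lemma exists_fam (S : Finset ℕ) (hS : ∀ p ∈ S, p.Prime) (θ : σ → ℝ)
    (halg : ∀ s, IsAlgebraic ℚ (θ s))
    (hind : LinearIndependent ℚ (fun o : Option σ => (o.elim 1 (fun s => θ s) : ℝ)))
    (q : ℕ → ℕ) (hq : ∀ n, n + 2 ≤ q n) (hqS : ∀ n, (q n).primeFactors ⊆ S)
    (hL : Tendsto (fun n => Real.log (q n)) atTop atTop) :
    ∃ (F : IntermediateField ℚ ℝ) (_ : FiniteDimensional ℚ F) (θ' : σ → F)
      (g0 : Fin S.card → ℝ) (κ : KK (fun n => Real.log (q n)) hL) (y : σ → GG),
      Fam (bas S hS) (fun n => Real.log (q n)) F θ' (fun _ => g0) y ∧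
      lv (bas S hS) none g0 = -1 ∧ κ ≠ 0 ∧
      ∀ a, Xh hL κ g0 y (bas S hS) a = gm (fun n => ∏ i, (pt θ (q n) i : ℚ) ^ (a i)) := by
  classical
  set B := bas S hS with hB
  set L : ℕ → ℝ := fun n => Real.log (q n) with hLdef
  have hq0 : ∀ n, q n ≠ 0 := fun n => by have := hq n; omega
  have hLpos : ∀ n, 0 < L n := fun n => by
    apply Real.log_pos
    have := hq n
    have h2 : 2 ≤ q n := by omega
    exact_mod_cast h2
  have e : ∀ n, q n = ∏ i, B.P i ^ ((q n).factorization (B.P i)) := fun n =>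
    eq_prod hS (hq0 n) (hqS n)
  obtain ⟨g0, κ, hκ, hu, hlim⟩ := unit_germ (B := B) hL
    (fun n i => (q n).factorization (B.P i)) 1 (Eventually.of_forall fun n => by
      rw [← log_prod_bas hS, ← e, one_mul])
  have hu' : gm (fun n => (q n : ℚ)) = (κ : GG) * ch B hL g0 := by
    rw [← hu]
    congr 1
    funext n
    rw [← e]
  have hlam : -lv B none g0 = 1 := by
    have h4 := lim_log hS _ g0 hlim
    have h5 : Tendsto (fun n => Real.log ((∏ i, (bas S hS).P i ^ ((q n).factorization (B.P i)) : ℕ) : ℝ)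
        / L n) (UU : Filter ℕ) (𝓝 1) := by
      refine tendsto_const_nhds.congr fun n => ?_
      have h6 : ∏ i, (bas S hS).P i ^ ((q n).factorization (B.P i)) = q n := (e n).symm
      rw [h6]
      exact (div_self (hLpos n).ne').symm
    exact tendsto_nhds_unique h4 h5
  set F : IntermediateField ℚ ℝ := IntermediateField.adjoin ℚ (Set.range θ) with hF
  have hfin : FiniteDimensional ℚ F := by
    apply IntermediateField.finiteDimensional_adjoin
    rintro _ ⟨l, rfl⟩
    exact (halg l).isIntegral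
  have hθF : ∀ l, θ l ∈ F := fun l => IntermediateField.subset_adjoin ℚ _ ⟨l, rfl⟩
  set y : σ → GG := fun s => gm (fun n => (⌊θ s * q n⌋ : ℚ) / q n) with hy
  have H : Fam B L F (fun s => (⟨θ s, hθF s⟩ : F)) (fun _ => g0) y := by
    have hq' : ∀ s, _ := fun s => quot (B := B) hL g0 κ hκ q hq0 hu' (θ s)
    refine ⟨fun v s => (hq' s).1 v, fun s => (hq' s).2.1, fun s => (hq' s).2.2, fun s => ?_,
      fun s => ?_⟩
    · rw [hlam]; norm_num
    · have h1 := hind.comp
        (Option.map (fun t : {t : σ // lv B none g0 = lv B none g0} => t.1))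
        (Option.map_injective Subtype.val_injective)
      convert h1 using 1
      funext o
      cases o <;> rfl
  exact ⟨F, hfin, _, g0, κ, y, H, by linarith, hκ, Xh_gm hL θ q hq0 κ g0 hu'⟩

lemma tendsto_logq {q : ℕ → ℕ} (hq : ∀ n, n + 2 ≤ q n) :
    Tendsto (fun n => Real.log (q n)) atTop atTop := by
  apply Real.tendsto_log_atTop.comp
  apply tendsto_natCast_atTop_atTop.comp
  exact tendsto_atTop_mono (fun n => (Nat.le_add_right n 2).trans (hq n)) tendsto_id

/-- a polynomial with small values is constant -/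
theorem small_const (S : Finset ℕ) (hS : ∀ p ∈ S, p.Prime) (θ : σ → ℝ)
    (halg : ∀ s, IsAlgebraic ℚ (θ s))
    (hind : LinearIndependent ℚ (fun o : Option σ => (o.elim 1 (fun s => θ s) : ℝ)))
    (q : ℕ → ℕ) (hq : ∀ n, n + 2 ≤ q n) (hqS : ∀ n, (q n).primeFactors ⊆ S)
    (R : MvPolynomial (Option σ) ℚ) (z : ℕ → ℤ)
    (hz : ∀ᶠ n in (UU : Filter ℕ), aeval (fun i => (pt θ (q n) i : ℚ)) R = z n)
    (hsm : ∀ ε : ℝ, 0 < ε → ∀ᶠ n in (UU : Filter ℕ), |(z n : ℝ)| ≤ (q n : ℝ) ^ ε) :
    R = C (constantCoeff R) ∧ ∀ᶠ n in (UU : Filter ℕ), constantCoeff R = z n := by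
  classical
  have hL := tendsto_logq hq
  obtain ⟨F, hfin, θ', g0, κ, y, H, hg, hκ, hX⟩ := exists_fam S hS θ halg hind q hq hqS hL
  have hg1 : lv (bas S hS) none g0 ≠ 0 := by rw [hg]; norm_num
  set μ : KK (fun n => Real.log (q n)) hL := ⟨gm (fun n => (z n : ℚ)), small_mem hL z (by
    intro ε hε
    filter_upwards [hsm ε hε] with n hn
    refine hn.trans (le_of_eq ?_)
    have : (0 : ℝ) < q n := by
      have := hq n
      exact_mod_cast (by omega : 0 < q n)
    rw [Real.rpow_def_of_pos this, mul_comm])⟩ with hμ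
  set d := R.totalDegree with hd
  set o0 : Ex (Option σ) d := ⟨fun _ => 0, by rw [mem_Ex]; simp⟩ with ho0
  have h1 := Xh_indep hL H hg1 hκ d
    (fun a => ((cf d R a : ℚ) : KK (fun n => Real.log (q n)) hL) - (if a = o0 then μ else 0)) (by
    have h2 : ∀ a : Ex (Option σ) d, ((((cf d R a : ℚ) : KK (fun n => Real.log (q n)) hL)
        - (if a = o0 then μ else 0) : KK (fun n => Real.log (q n)) hL) : GG)
          * Xh hL κ g0 y (bas S hS) a.1
        = ((cf d R a : ℚ) : GG) * gm (fun n => ∏ i, (pt θ (q n) i : ℚ) ^ (a.1 i))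
          - (if a = o0 then gm (fun n => (z n : ℚ)) else 0) := by
      intro a
      rw [hX]
      push_cast
      rw [sub_mul]
      congr 1
      split_ifs with h
      · rw [h]
        simp only [ho0, pow_zero, Finset.prod_const_one]
        have : gm (fun _ => (1 : ℚ)) = 1 := gm_one
        rw [this, mul_one]
      · simp
    simp only [h2]
    rw [Finset.sum_sub_distrib, Finset.sum_ite_eq' Finset.univ o0]
    simp only [Finset.mem_univ, if_true, rat_gm, gm_mul]
    rw [gm_sum, sub_eq_zero, gm_eq]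
    filter_upwards [hz] with n hn
    rw [← hn, eval_cf (le_refl R.totalDegree)]
    rfl)
  have hcoef : ∀ a : Ex (Option σ) d, a ≠ o0 → cf d R a = 0 := by
    intro a ha
    have := h1 a
    simp only [if_neg ha, sub_zero] at this
    exact_mod_cast this
  have hR : R = C (constantCoeff R) := by
    ext n
    rw [coeff_C]
    split_ifs with h
    · rw [← h]; rfl
    · by_contra hne
      have h3 : n ∈ R.support := mem_support_iff.2 hne
      have h4 := le_totalDegree h3
      rw [sum_fs] at h4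
      have h5 := hcoef ⟨(n : Option σ → ℕ), mem_Ex.2 h4⟩ (by
        intro h6
        apply h
        have h7 := congrArg Subtype.val h6
        ext i
        exact (congrFun h7 i).symm)
      rw [cf_apply, fs_coe] at h5
      exact hne h5
  refine ⟨hR, ?_⟩
  filter_upwards [hz] with n hn
  rw [← hn]
  conv_rhs => rw [hR]
  rw [aeval_C]
  rfl

/-- a polynomial with zeros is zero -/
theorem vanish (S : Finset ℕ) (hS : ∀ p ∈ S, p.Prime) (θ : σ → ℝ)
    (halg : ∀ s, IsAlgebraic ℚ (θ s))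
    (hind : LinearIndependent ℚ (fun o : Option σ => (o.elim 1 (fun s => θ s) : ℝ)))
    (q : ℕ → ℕ) (hq : ∀ n, n + 2 ≤ q n) (hqS : ∀ n, (q n).primeFactors ⊆ S)
    (R : MvPolynomial (Option σ) ℚ)
    (hz : ∀ᶠ n in (UU : Filter ℕ), aeval (fun i => (pt θ (q n) i : ℚ)) R = 0) : R = 0 := by
  obtain ⟨h1, h2⟩ := small_const S hS θ halg hind q hq hqS R (fun _ => 0)
    (by simpa using hz) (fun ε hε => Eventually.of_forall fun n => by
      simp only [Int.cast_zero, abs_zero]
      positivity)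
  obtain ⟨n, hn⟩ := h2.exists
  rw [h1, hn]
  simp

end

end Pool.Agent.Q4.Cov
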