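import Mathlib
import Pool.Agent.Q4.Cov.Hom

set_option autoImplicit false
set_option linter.unusedSectionVars false

/-!
# Algebraic functions at truncated products
-/

namespace Pool.Agent.Q4.Cov

open Filter Topology Pool.Agent.TH932.Abs Pool.Agent.TH932.Germs Pool.Agent.TH932.Chi
open Pool.Agent.TH796.AL Pool.Agent.Q4.Blk Pool.Agent.Q4.Gcd Module

/-- the field of algebraic numbers -/
noncomputable abbrev QB : IntermediateField ℚ ℂ := algebraicClosure ℚ ℂ

/-- its embedding -/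
noncomputable abbrev phi : QB →+* ℂ := algebraMap QB ℂ

lemma alg_conj {z : ℂ} (hz : IsAlgebraic ℚ z) : IsAlgebraic ℚ (starRingEnd ℂ z) :=
  hz.algHom (Complex.conjAe.toAlgHom.restrictScalars ℚ)

lemma alg_of_real {x : ℝ} : IsAlgebraic ℚ (x : ℂ) ↔ IsAlgebraic ℚ x := by
  have h : Function.Injective (algebraMap ℝ ℂ) := Complex.ofReal_injective
  exact isAlgebraic_algebraMap_iff h

lemma alg_re {z : ℂ} (hz : IsAlgebraic ℚ z) : IsAlgebraic ℚ z.re := by
  rw [← alg_of_real]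
  have h1 : (z.re : ℂ) = (z + starRingEnd ℂ z) * ((1 / 2 : ℚ) : ℂ) := by
    rw [Complex.add_conj]
    push_cast
    ring
  rw [h1]
  exact (hz.add (alg_conj hz)).mul (isAlgebraic_algebraMap (1 / 2 : ℚ))

lemma alg_QB (z : QB) : IsAlgebraic ℚ (z : ℂ) := mem_algebraicClosure_iff.1 z.2

section
variable {σ : Type} [Fintype σ] [DecidableEq σ]

open MvPolynomial

/-- local parameters along the sequence -/
lemma vv_seq (θ : σ → ℝ) {q : ℕ → ℕ} (hq : ∀ n, n + 2 ≤ q n) :
    (∀ n, 0 ≤ 1 / (q n : ℝ) ∧ 1 / (q n : ℝ) ≤ 1) ∧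
    Tendsto (fun n => 1 / (q n : ℝ)) (UU : Filter ℕ) (𝓝 0) ∧
    (∀ n i, |vv (q n) (frs θ (q n)) i| ≤ 1 / (q n : ℝ)) := by
  have h1 : ∀ n, (1 : ℝ) ≤ q n := fun n => by
    have := hq n
    exact_mod_cast (by omega : 1 ≤ q n)
  refine ⟨fun n => ⟨by positivity, ?_⟩, ?_, fun n i => vv_le (h1 n) (frs_le θ (q n)) i⟩
  · rw [div_le_one (by linarith [h1 n])]
    exact h1 n
  · have h2 : Tendsto (fun n => 1 / (q n : ℝ)) atTop (𝓝 0) := by
      apply Tendsto.const_div_atTop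
      apply tendsto_natCast_atTop_atTop.comp
      exact tendsto_atTop_mono (fun n => (Nat.le_add_right n 2).trans (hq n)) tendsto_id
    exact h2.mono_left Nat.hyperfilter_le_atTop

/-- **Approximation of an algebraic function by combinations of the forms.** -/
theorem approx (θ : σ → ℝ) {q : ℕ → ℕ} (hq : ∀ n, n + 2 ≤ q n)
    (p : Polynomial (MvPolynomial (Option σ) QB)) (hp0 : p.map constantCoeff ≠ 0)
    (hsep : ∀ η : QB, (p.map constantCoeff).eval η = 0 →
      (p.map constantCoeff).derivative.eval η ≠ 0)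
    (Y : ℕ → ℂ) (M : ℝ) (hYb : ∀ᶠ n in (UU : Filter ℕ), ‖Y n‖ ≤ M)
    (hroot : ∀ᶠ n in (UU : Filter ℕ), (p.map (evr phi (vv (q n) (frs θ (q n))))).eval (Y n) = 0)
    (D : ℕ) :
    ∃ (c : Ex (Option σ) D → QB) (C : ℝ), ∀ᶠ n in (UU : Filter ℕ),
      ‖(q n : ℂ) ^ D * Y n - ∑ a, phi (c a) * (zval θ (q n) a.1 : ℂ)‖ ≤ C / q n := by
  obtain ⟨hδ, hδ0, hv⟩ := vv_seq θ hq
  obtain ⟨η, hη⟩ := exists_limc Y M hYb
  -- the limit is algebraic
  have hsum : ∀ (n : ℕ) (x : ℂ), (p.map (evr phi (vv (q n) (frs θ (q n))))).eval x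
      = ∑ i ∈ Finset.range (p.natDegree + 1), evr phi (vv (q n) (frs θ (q n))) (p.coeff i) * x ^ i := by
    intro n x
    rw [Polynomial.eval_map, Polynomial.eval₂_eq_sum_range]
  have hlim := evr_lim phi (fun n => vv (q n) (frs θ (q n))) (fun n => 1 / (q n : ℝ)) hδ hδ0 hv
  have h1 : Tendsto (fun n => (p.map (evr phi (vv (q n) (frs θ (q n))))).eval (Y n)) (UU : Filter ℕ)
      (𝓝 (∑ i ∈ Finset.range (p.natDegree + 1), phi (constantCoeff (p.coeff i)) * η ^ i)) := by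
    simp only [hsum]
    exact tendsto_finsetSum _ fun i _ => (hlim _).mul (hη.pow i)
  have h2 : ∑ i ∈ Finset.range (p.natDegree + 1), phi (constantCoeff (p.coeff i)) * η ^ i = 0 := by
    refine tendsto_nhds_unique h1 ?_
    refine tendsto_const_nhds.congr' ?_
    filter_upwards [hroot] with n hn
    exact hn.symm
  have h3 : Polynomial.aeval η (p.map constantCoeff) = 0 := by
    rw [Polynomial.aeval_eq_sum_range' (n := p.natDegree + 1)
      (Nat.lt_succ_of_le Polynomial.natDegree_map_le), ← h2]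
    refine Finset.sum_congr rfl fun i _ => ?_
    rw [Polynomial.coeff_map, Algebra.smul_def]
  have h4 : IsAlgebraic ℚ η := by
    have h5 : IsAlgebraic QB η := ⟨_, hp0, h3⟩
    have h6 : Algebra.IsAlgebraic ℚ QB := algebraicClosure.isAlgebraic ℚ ℂ
    exact h5.restrictScalars ℚ
  set η' : QB := ⟨η, mem_algebraicClosure_iff.2 h4⟩ with hη'
  have h5 : phi η' = η := rfl
  have h6 : (p.map constantCoeff).eval η' = 0 := by
    apply phi.injective
    rw [map_zero, ← h3, Polynomial.aeval_def, ← h5, Polynomial.eval₂_at_apply]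
  obtain ⟨E, C, hC, hE⟩ := branch phi p η' h6 (hsep η' h6)
    (fun n => vv (q n) (frs θ (q n))) (fun n => 1 / (q n : ℝ)) hδ hδ0 hv Y (by rw [h5]; exact hη)
    hroot D
  obtain ⟨c, C', hC', hc⟩ := expand phi E D
  refine ⟨c, C + C', ?_⟩
  filter_upwards [hE] with n hn
  have hq1 : (1 : ℝ) ≤ q n := by
    have := hq n
    exact_mod_cast (by omega : 1 ≤ q n)
  have hq0 : (0 : ℝ) < q n := by linarith
  have h7 := hc (q n) hq1 (frs θ (q n)) (frs_le θ (q n))
  have h8 : ∀ a : Ex (Option σ) D, ((zval θ (q n) a.1 : ℝ) : ℂ)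
      = ((q n : ℝ) : ℂ) ^ (a.1 none) * ∏ s, (frs θ (q n) s : ℂ) ^ (a.1 (some s)) := by
    intro a
    unfold zval frs
    push_cast
    rfl
  simp only [h8]
  have h9 : (q n : ℂ) ^ D * Y n - ∑ a : Ex (Option σ) D, phi (c a) *
        (((q n : ℝ) : ℂ) ^ (a.1 none) * ∏ s, (frs θ (q n) s : ℂ) ^ (a.1 (some s)))
      = (q n : ℂ) ^ D * (Y n - evr phi (vv (q n) (frs θ (q n))) E)
        + (((q n : ℝ) : ℂ) ^ D * evr phi (vv (q n) (frs θ (q n))) E
          - ∑ a : Ex (Option σ) D, phi (c a) *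
        (((q n : ℝ) : ℂ) ^ (a.1 none) * ∏ s, (frs θ (q n) s : ℂ) ^ (a.1 (some s)))) := by
    push_cast
    ring
  rw [h9]
  refine (norm_add_le _ _).trans ?_
  rw [add_div]
  refine add_le_add ?_ h7
  rw [norm_mul, norm_pow, Complex.norm_natCast]
  calc (q n : ℝ) ^ D * ‖Y n - evr phi (vv (q n) (frs θ (q n))) E‖
      ≤ (q n : ℝ) ^ D * (C * (1 / q n) ^ (D + 1)) := mul_le_mul_of_nonneg_left hn (by positivity)
    _ = C / q n := by
        rw [pow_succ, one_div, inv_pow]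
        field_simp

end

end Pool.Agent.Q4.Cov
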