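import Mathlib
import Pool.Agent.Q4.Cov.Approx

set_option autoImplicit false
set_option linter.unusedSectionVars false

/-!
# Perfect powers at truncated products
-/

namespace Pool.Agent.Q4.Cov

open Filter Topology Pool.Agent.TH932.Abs Pool.Agent.TH932.Germs Pool.Agent.TH932.Chi
open Pool.Agent.TH796.AL Pool.Agent.Q4.Blk Pool.Agent.Q4.Gcd Module

section
variable {σ : Type} [Fintype σ] [DecidableEq σ]

open MvPolynomial

/-- the polynomial with given coefficients -/
noncomputable def polyOf {D : ℕ} (γ : Ex (Option σ) D → ℚ) : MvPolynomial (Option σ) ℚ :=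
  ∑ a, monomial (fs a.1) (γ a)

lemma aeval_polyOf {D : ℕ} (γ : Ex (Option σ) D → ℚ) (x : Option σ → ℚ) :
    aeval x (polyOf γ) = ∑ a, γ a * ∏ i, x i ^ (a.1 i) := by
  unfold polyOf
  rw [map_sum]
  refine Finset.sum_congr rfl fun a _ => ?_
  rw [aeval_monomial, Finsupp.prod_fintype _ _ (by simp)]
  rfl

lemma map_pt (θ : σ → ℝ) (R : MvPolynomial (Option σ) ℤ) (q : ℕ) :
    aeval (fun i => (pt θ q i : ℚ)) (map (Int.castRingHom ℚ) R) = ((eval (pt θ q) R : ℤ) : ℚ) := by
  have h1 := eval₂_comp_left (Int.castRingHom ℚ) (RingHom.id ℤ) (pt θ q) R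
  rw [eval₂_id] at h1
  rw [aeval_def, eval₂_map, Subsingleton.elim ((algebraMap ℚ ℚ).comp (Int.castRingHom ℚ))
    ((Int.castRingHom ℚ).comp (RingHom.id ℤ))]
  exact h1.symm

lemma topv_map {R R' : Type*} [CommRing R] [CommRing R'] (f : R →+* R') (d : ℕ)
    (F : MvPolynomial (Option σ) ℤ) (t : σ → R) : f (topv d F t) = topv d F (fun s => f (t s)) := by
  rw [topv_eq, topv_eq, map_sum]
  refine Finset.sum_congr rfl fun α _ => ?_
  rw [map_mul, map_prod, map_intCast]
  simp only [map_pow]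

lemma primeFactors_pow_sub (a k : ℕ) : (a ^ k).primeFactors ⊆ a.primeFactors := by
  intro p hp
  rw [Nat.mem_primeFactors] at hp ⊢
  exact ⟨hp.1, hp.1.dvd_of_dvd_pow hp.2.1, fun h => hp.2.2 (by
    rw [h]
    by_cases hk : k = 0
    · exfalso
      rw [hk, pow_zero] at hp
      exact hp.1.one_lt.ne' (Nat.dvd_one.1 hp.2.1)
    · exact zero_pow hk)⟩

/-- **Perfect powers along a sequence.** -/
theorem pow_seq (S : Finset ℕ) (hS : ∀ p ∈ S, p.Prime) (θ : σ → ℝ)
    (halg : ∀ s, IsAlgebraic ℚ (θ s))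
    (hind : LinearIndependent ℚ (fun o : Option σ => (o.elim 1 (fun s => θ s) : ℝ)))
    (q : ℕ → ℕ) (hq : ∀ n, n + 2 ≤ q n) (hqS : ∀ n, (q n).primeFactors ⊆ S)
    (F : MvPolynomial (Option σ) ℤ) (htop : topv F.totalDegree F θ ≠ 0) (k : ℕ) (hk : 0 < k)
    (c0 : ℤ) (hc0 : c0 ≠ 0) (q0 : ℕ) (hq0 : q0 ≠ 0) (w : ℕ → ℕ) (hwS : ∀ n, (w n).primeFactors ⊆ S)
    (hw0 : ∀ n, w n ≠ 0) (hwq : ∀ n, w n ^ k ≤ q n)
    (hqw : ∀ᶠ n in (UU : Filter ℕ), q n = q0 * w n ^ k) (z : ℕ → ℤ)
    (hz : ∀ᶠ n in (UU : Filter ℕ), eval (pt θ (q n)) F = c0 * z n ^ k) :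
    ∃ G : MvPolynomial (Option σ) ℚ, C ((q0 : ℚ) ^ (F.totalDegree % k)) * map (Int.castRingHom ℚ) F
      = C (c0 : ℚ) * X none ^ (F.totalDegree % k) * G ^ k := by
  classical
  set d := F.totalDegree with hd
  set ρ := d % k with hρ
  set r := d / k with hr
  have hdk : k * r + ρ = d := Nat.div_add_mod d k
  have hρk : ρ < k := Nat.mod_lt _ hk
  have hqn0 : ∀ n, q n ≠ 0 := fun n => by have := hq n; omega
  set θK : σ → QB := fun s => ⟨(θ s : ℂ), mem_algebraicClosure_iff.2 (alg_of_real.2 (halg s))⟩ with hθK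
  have hθ : ∀ s, phi (θK s) = (θ s : ℂ) := fun s => rfl
  set lam : QB := (q0 : QB) ^ ρ / (c0 : QB) with hlam
  have hq0c : (q0 : ℂ) ≠ 0 := by exact_mod_cast hq0
  have hc0c : (c0 : ℂ) ≠ 0 := by exact_mod_cast hc0
  have hlamφ : phi lam = (q0 : ℂ) ^ ρ / (c0 : ℂ) := by
    rw [hlam, map_div₀, map_pow, map_natCast, map_intCast]
  have hlam0 : lam ≠ 0 := by
    intro h
    have := congrArg phi h
    rw [hlamφ, map_zero] at this
    exact (div_ne_zero (pow_ne_zero _ hq0c) hc0c) this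
  set p : Polynomial (MvPolynomial (Option σ) QB) :=
    Polynomial.X ^ k - Polynomial.C (C lam * hmg θK d F) with hp
  have hpmap : p.map constantCoeff = Polynomial.X ^ k - Polynomial.C (lam * topv d F θK) := by
    rw [hp, Polynomial.map_sub, Polynomial.map_pow, Polynomial.map_X, Polynomial.map_C, map_mul,
      constantCoeff_C, cc_hmg θK d F hd.ge]
  have htopK : topv d F θK ≠ 0 := by
    intro h
    have h1 := topv_map phi d F θK
    rw [h, map_zero] at h1
    have h2 := topv_map (algebraMap ℝ ℂ) d F θ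
    have h3 : (fun s => phi (θK s)) = fun s => algebraMap ℝ ℂ (θ s) := rfl
    rw [← h3, ← h1] at h2
    apply htop
    exact (algebraMap ℝ ℂ).injective (by rw [h2, map_zero])
  have hsep : ∀ η : QB, (p.map constantCoeff).eval η = 0 →
      (p.map constantCoeff).derivative.eval η ≠ 0 := by
    intro η h1
    rw [hpmap] at h1 ⊢
    rw [Polynomial.eval_sub, Polynomial.eval_pow, Polynomial.eval_X, Polynomial.eval_C,
      sub_eq_zero] at h1
    have hη : η ≠ 0 := by
      rintro rfl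
      rw [zero_pow hk.ne'] at h1
      exact mul_ne_zero hlam0 htopK h1.symm
    rw [Polynomial.derivative_sub, Polynomial.derivative_C, sub_zero, Polynomial.derivative_X_pow,
      Polynomial.eval_mul, Polynomial.eval_pow, Polynomial.eval_X, Polynomial.eval_C]
    refine mul_ne_zero ?_ (pow_ne_zero _ hη)
    exact_mod_cast hk.ne'
  have hp0 : p.map constantCoeff ≠ 0 := by
    rw [hpmap]
    exact (Polynomial.monic_X_pow_sub_C _ hk.ne').ne_zero
  set tw : ℕ → ℕ := fun n => w n ^ ρ with htw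
  set Y : ℕ → ℂ := fun n => (z n : ℂ) / ((tw n : ℂ) * (q n : ℂ) ^ r) with hY
  have hevr : ∀ n, (q n : ℂ) ^ d * evr phi (vv (q n) (frs θ (q n))) (hmg θK d F)
      = ((eval (pt θ (q n)) F : ℤ) : ℂ) := fun n => evr_hmg phi hθ d F hd.ge (q n) (hqn0 n)
  have hpe : ∀ (n : ℕ) (x : ℂ), (p.map (evr phi (vv (q n) (frs θ (q n))))).eval x
      = x ^ k - phi lam * evr phi (vv (q n) (frs θ (q n))) (hmg θK d F) := by
    intro n x
    rw [hp, Polynomial.map_sub, Polynomial.map_pow, Polynomial.map_X, Polynomial.map_C, map_mul,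
      Polynomial.eval_sub, Polynomial.eval_pow, Polynomial.eval_X, Polynomial.eval_C]
    congr 2
    unfold evr
    simp
  have hroot : ∀ᶠ n in (UU : Filter ℕ), (p.map (evr phi (vv (q n) (frs θ (q n))))).eval (Y n) = 0 := by
    filter_upwards [hqw, hz] with n h1 h2
    rw [hpe, sub_eq_zero]
    have hqc : (q n : ℂ) ≠ 0 := by exact_mod_cast hqn0 n
    have hwc : (w n : ℂ) ≠ 0 := by exact_mod_cast hw0 n
    have h3 := hevr n
    rw [h2] at h3
    have h4 : (q n : ℂ) = q0 * (w n : ℂ) ^ k := by exact_mod_cast h1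
    have h5 : (q n : ℂ) ^ d = ((q n : ℂ) ^ r) ^ k * ((q0 : ℂ) ^ ρ * ((w n : ℂ) ^ ρ) ^ k) := by
      rw [← hdk, pow_add, ← pow_mul, mul_comm k r]
      congr 1
      conv_lhs => rw [h4]
      rw [mul_pow, ← pow_mul, ← pow_mul, mul_comm k ρ]
    have h6 : evr phi (vv (q n) (frs θ (q n))) (hmg θK d F)
        = (c0 * (z n : ℂ) ^ k) / (((q n : ℂ) ^ r) ^ k * ((q0 : ℂ) ^ ρ * ((w n : ℂ) ^ ρ) ^ k)) := by
      rw [← h5, eq_div_iff (pow_ne_zero _ hqc), mul_comm, h3]
      push_cast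
      ring
    rw [h6, hlamφ, hY, htw]
    simp only []
    push_cast
    rw [div_pow, mul_pow]
    field_simp
  obtain ⟨M, hM0, hM⟩ := Ord.any phi (C lam * hmg θK d F)
  obtain ⟨hδ, hδ0, hv⟩ := vv_seq θ hq
  have hYb : ∀ᶠ n in (UU : Filter ℕ), ‖Y n‖ ≤ max 1 M := by
    filter_upwards [hroot] with n h1
    rw [hpe, sub_eq_zero] at h1
    by_cases hY1 : ‖Y n‖ ≤ 1
    · exact hY1.trans (le_max_left _ _)
    · push Not at hY1
      refine le_trans ?_ (le_max_right _ _)
      have h2 := hM _ _ (hδ n).1 (hδ n).2 (hv n)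
      rw [pow_zero, mul_one, map_mul] at h2
      have h3 : evr phi (vv (q n) (frs θ (q n))) (C lam) = phi lam := by unfold evr; simp
      rw [h3, ← h1, norm_pow] at h2
      exact (le_self_pow₀ hY1.le hk.ne').trans h2
  obtain ⟨c, C1, hc⟩ := approx θ hq p hp0 hsep Y (max 1 M) hYb hroot r
  obtain ⟨γ, hγ⟩ := engine S hS θ halg hind q hq hqS r tw
    (fun n => pow_ne_zero _ (hw0 n)) (fun n => (primeFactors_pow_sub (w n) ρ).trans (hwS n))
    ((ρ : ℝ) / k) 0 (by rw [div_lt_one (by exact_mod_cast hk)]; exact_mod_cast hρk) (by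
      intro n
      rw [add_zero, htw]
      push_cast
      rw [Real.log_pow]
      have h1 : (k : ℝ) * Real.log (w n) ≤ Real.log (q n) := by
        rw [← Real.log_pow]
        apply Real.log_le_log
        · have := Nat.pos_of_ne_zero (hw0 n)
          positivity
        · exact_mod_cast hwq n
      have hk' : (0 : ℝ) < k := by exact_mod_cast hk
      rw [div_mul_eq_mul_div, le_div_iff₀ hk']
      have h2 : (0 : ℝ) ≤ ρ := Nat.cast_nonneg _
      nlinarith) z
    (fun a => (phi (c a)).re) (fun a => alg_re (alg_QB (c a))) C1 (by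
      filter_upwards [hc] with n h1
      have htwp : (0 : ℝ) < tw n := by
        have := Nat.pos_of_ne_zero (pow_ne_zero ρ (hw0 n))
        exact_mod_cast this
      have hqp : (0 : ℝ) < q n := by exact_mod_cast Nat.pos_of_ne_zero (hqn0 n)
      have hqc : (q n : ℂ) ≠ 0 := by exact_mod_cast hqn0 n
      have htwc : (tw n : ℂ) ≠ 0 := by exact_mod_cast (pow_ne_zero ρ (hw0 n))
      have h2 : (q n : ℂ) ^ r * Y n = (z n : ℂ) / tw n := by
        rw [hY]
        simp only []
        field_simp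
      rw [h2] at h1
      have h3 : ((z n : ℂ) / tw n - ∑ a, phi (c a) * (zval θ (q n) a.1 : ℂ)).re
          = (z n : ℝ) / tw n - ∑ a, (phi (c a)).re * zval θ (q n) a.1 := by
        rw [Complex.sub_re, Complex.re_sum]
        congr 1
        · have : ((z n : ℂ) / tw n) = (((z n : ℝ) / tw n : ℝ) : ℂ) := by push_cast; rfl
          rw [this, Complex.ofReal_re]
        · refine Finset.sum_congr rfl fun a _ => ?_
          rw [Complex.re_mul_ofReal]
      have h4 := (Complex.abs_re_le_norm _).trans h1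
      rw [h3] at h4
      have h5 : (z n : ℝ) - tw n * ∑ a, (phi (c a)).re * zval θ (q n) a.1
          = tw n * ((z n : ℝ) / tw n - ∑ a, (phi (c a)).re * zval θ (q n) a.1) := by
        field_simp
      rw [h5, abs_mul, abs_of_pos htwp]
      calc (tw n : ℝ) * |(z n : ℝ) / tw n - ∑ a, (phi (c a)).re * zval θ (q n) a.1|
          ≤ tw n * (C1 / q n) := mul_le_mul_of_nonneg_left h4 htwp.le
        _ = C1 * (tw n / q n) := by ring)
  refine ⟨polyOf γ, ?_⟩
  rw [← sub_eq_zero]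
  apply vanish S hS θ halg hind q hq hqS
  filter_upwards [hγ, hqw, hz] with n h1 h2 h3
  simp only [map_sub, map_mul, map_pow, map_pt, aeval_polyOf, aeval_X, h3, aeval_C]
  have htwq : (tw n : ℚ) ≠ 0 := by exact_mod_cast (pow_ne_zero ρ (hw0 n))
  have h4 : ∑ a, γ a * ∏ i, (pt θ (q n) i : ℚ) ^ (a.1 i) = (z n : ℚ) / tw n := by
    rw [h1]
    field_simp
  rw [h4]
  have h5 : ((pt θ (q n) none : ℤ) : ℚ) = q0 * (w n : ℚ) ^ k := by
    simp only [pt, Option.elim]
    exact_mod_cast h2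
  rw [h5, div_pow, mul_pow]
  have h6 : ((w n : ℚ) ^ k) ^ ρ = (tw n : ℚ) ^ k := by
    rw [htw]
    push_cast
    rw [← pow_mul, ← pow_mul, mul_comm]
  rw [h6]
  simp only [eq_ratCast, Rat.cast_id]
  push_cast
  field_simp
  ring

end

end Pool.Agent.Q4.Cov
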