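import Mathlib
import Pool.Agent.Q4.Cov.Pow

set_option autoImplicit false
set_option linter.unusedSectionVars false

/-!
# Perfect powers and divisibility at truncated products
-/

namespace Pool.Agent.Q4.Cov

open Filter Topology Pool.Agent.TH932.Abs Pool.Agent.TH932.Germs Pool.Agent.TH932.Chi
open Pool.Agent.TH796.AL Pool.Agent.Q4.Blk Pool.Agent.Q4.Gcd Module

/-- the `k`-th power free part -/
def sK (S : Finset ℕ) (k x : ℕ) : ℕ := ∏ p ∈ S, p ^ (x.factorization p % k)

/-- the root of the rest -/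
def tK (S : Finset ℕ) (k x : ℕ) : ℕ := ∏ p ∈ S, p ^ (x.factorization p / k)

lemma sK_tK {S : Finset ℕ} (k : ℕ) {x : ℕ} (hx : x ≠ 0) (hxS : x.primeFactors ⊆ S) :
    x = sK S k x * tK S k x ^ k := by
  conv_lhs => rw [← Nat.prod_factorization_pow_eq_self hx]
  rw [Finsupp.prod_of_support_subset _ (s := S) (by rwa [Nat.support_factorization]) _ (by simp)]
  unfold sK tK
  rw [← Finset.prod_pow, ← Finset.prod_mul_distrib]
  refine Finset.prod_congr rfl fun p _ => ?_
  rw [← pow_mul, ← pow_add]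
  congr 1
  rw [mul_comm]
  exact (Nat.mod_add_div _ _).symm

lemma sK_le {S : Finset ℕ} (hS : ∀ p ∈ S, p.Prime) {k : ℕ} (hk : 0 < k) (x : ℕ) :
    sK S k x ≤ ∏ p ∈ S, p ^ k := by
  unfold sK
  refine Finset.prod_le_prod' fun p hp => ?_
  exact Nat.pow_le_pow_right (hS p hp).pos (Nat.mod_lt _ hk).le

lemma tK_ne {S : Finset ℕ} (hS : ∀ p ∈ S, p.Prime) (k x : ℕ) : tK S k x ≠ 0 :=
  Finset.prod_ne_zero_iff.2 fun p hp => pow_ne_zero _ (hS p hp).ne_zero

lemma sK_ne {S : Finset ℕ} (hS : ∀ p ∈ S, p.Prime) (k x : ℕ) : sK S k x ≠ 0 :=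
  Finset.prod_ne_zero_iff.2 fun p hp => pow_ne_zero _ (hS p hp).ne_zero

lemma tK_S {S : Finset ℕ} (hS : ∀ p ∈ S, p.Prime) (k x : ℕ) : (tK S k x).primeFactors ⊆ S := by
  intro l hl
  rw [Nat.mem_primeFactors] at hl
  obtain ⟨p, hp, h1⟩ := (hl.1.prime.dvd_finsetProd_iff _).1 hl.2.1
  have h2 := hl.1.dvd_of_dvd_pow h1
  rw [(Nat.prime_dvd_prime_iff_eq hl.1 (hS p hp)).1 h2]
  exact hp

section
variable {σ : Type} [Fintype σ] [DecidableEq σ]

open MvPolynomial

/-- **Perfect powers.** -/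
theorem perfect_powers (S : Finset ℕ) (hS : ∀ p ∈ S, p.Prime) (θ : σ → ℝ)
    (halg : ∀ s, IsAlgebraic ℚ (θ s))
    (hind : LinearIndependent ℚ (fun o : Option σ => (o.elim 1 (fun s => θ s) : ℝ)))
    (F : MvPolynomial (Option σ) ℤ) (htop : topv F.totalDegree F θ ≠ 0) (k : ℕ) (hk : 0 < k) :
    (∃ (a : ℚ) (r : ℕ) (G : MvPolynomial (Option σ) ℚ),
      map (Int.castRingHom ℚ) F = C a * X none ^ r * G ^ k) ∨
    ∃ q₀ : ℕ, ∀ q ≥ q₀, q.primeFactors ⊆ S → ∀ c y : ℤ, c ≠ 0 → c.natAbs.primeFactors ⊆ S →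
      eval (pt θ q) F ≠ c * y ^ k := by
  classical
  by_contra hcon
  rw [not_or] at hcon
  obtain ⟨hno, hcon⟩ := hcon
  push Not at hcon
  choose q hq hqS c y hc0 hcS hF using fun n : ℕ => hcon (n + 2)
  have hq0 : ∀ n, q n ≠ 0 := fun n => by have := hq n; omega
  set M : ℕ := ∏ p ∈ S, p ^ k with hM
  -- the constant parts
  have hfin : ∀ n, ∃ i ∈ ((Finset.Icc (-(M : ℤ)) M ×ˢ Finset.range (M + 1) : Finset (ℤ × ℕ)) :
      Set (ℤ × ℕ)), (Int.sign (c n) * (sK S k (c n).natAbs : ℤ), sK S k (q n)) = i := by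
    intro n
    refine ⟨_, ?_, rfl⟩
    rw [Finset.mem_coe, Finset.mem_product, Finset.mem_Icc, Finset.mem_range]
    have h1 : ((sK S k (c n).natAbs : ℕ) : ℤ) ≤ M := by exact_mod_cast sK_le hS hk _
    have h2 := sK_le hS hk (q n)
    have h3 : (0 : ℤ) ≤ sK S k (c n).natAbs := Int.natCast_nonneg _
    refine ⟨?_, by simp only []; omega⟩
    simp only []
    rcases lt_trichotomy (c n) 0 with h | h | h
    · rw [Int.sign_eq_neg_one_of_neg h]
      constructor <;> linarith
    · exact absurd h (hc0 n)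
    · rw [Int.sign_eq_one_of_pos h]
      constructor <;> linarith
  obtain ⟨⟨c0, q0⟩, -, hcst⟩ := (Ultrafilter.eventually_exists_mem_iff (f := UU)
    (Finset.finite_toSet (Finset.Icc (-(M : ℤ)) M ×ˢ Finset.range (M + 1)))).1
    (Eventually.of_forall hfin)
  have hc1 : ∀ᶠ n in (UU : Filter ℕ), Int.sign (c n) * (sK S k (c n).natAbs : ℤ) = c0 := by
    filter_upwards [hcst] with n hn
    exact (Prod.mk.inj hn).1
  have hq1 : ∀ᶠ n in (UU : Filter ℕ), sK S k (q n) = q0 := by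
    filter_upwards [hcst] with n hn
    exact (Prod.mk.inj hn).2
  have hq00 : q0 ≠ 0 := by
    obtain ⟨n, hn⟩ := hq1.exists
    rw [← hn]
    exact sK_ne hS _ _
  have hc00 : c0 ≠ 0 := by
    obtain ⟨n, hn⟩ := hc1.exists
    rw [← hn]
    refine mul_ne_zero ?_ (by exact_mod_cast sK_ne hS _ _)
    rw [Ne, Int.sign_eq_zero_iff_zero]
    exact hc0 n
  have hqw : ∀ n, q n = sK S k (q n) * tK S k (q n) ^ k := fun n => sK_tK k (hq0 n) (hqS n)
  have hcw : ∀ n, c n = (Int.sign (c n) * (sK S k (c n).natAbs : ℤ)) * (tK S k (c n).natAbs : ℤ) ^ k := by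
    intro n
    have h1 := sK_tK k (Int.natAbs_ne_zero.2 (hc0 n)) (hcS n)
    have h2 : (((c n).natAbs : ℕ) : ℤ) = (sK S k (c n).natAbs : ℤ) * (tK S k (c n).natAbs : ℤ) ^ k := by
      exact_mod_cast h1
    rw [mul_assoc, ← h2, Int.sign_mul_natAbs]
  obtain ⟨G, hG⟩ := pow_seq S hS θ halg hind q (fun n => hq n) hqS F htop k hk c0 hc00 q0 hq00
    (fun n => tK S k (q n)) (fun n => tK_S hS _ _) (fun n => tK_ne hS _ _) (fun n => by
      conv_rhs => rw [hqw n]
      exact Nat.le_mul_of_pos_left _ (Nat.pos_of_ne_zero (sK_ne hS _ _))) (by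
      filter_upwards [hq1] with n hn
      conv_lhs => rw [hqw n, hn]) (fun n => (tK S k (c n).natAbs : ℤ) * y n) (by
      filter_upwards [hc1] with n hn
      rw [hF n]
      conv_lhs => rw [hcw n, hn]
      ring)
  apply hno
  refine ⟨(c0 : ℚ) / (q0 : ℚ) ^ (F.totalDegree % k), F.totalDegree % k, G, ?_⟩
  have hq0q : ((q0 : ℚ) ^ (F.totalDegree % k)) ≠ 0 := pow_ne_zero _ (by exact_mod_cast hq00)
  have hCne : (C ((q0 : ℚ) ^ (F.totalDegree % k)) : MvPolynomial (Option σ) ℚ) ≠ 0 := by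
    rw [Ne, C_eq_zero]
    exact hq0q
  apply mul_left_cancel₀ hCne
  rw [hG, ← mul_assoc, ← mul_assoc, ← C_mul, mul_div_cancel₀ _ hq0q]

/-- the `S`-part of the values of a polynomial -/
theorem spart_seq (S : Finset ℕ) (hS : ∀ p ∈ S, p.Prime) (θ : σ → ℝ)
    (halg : ∀ s, IsAlgebraic ℚ (θ s))
    (hind : LinearIndependent ℚ (fun o : Option σ => (o.elim 1 (fun s => θ s) : ℝ)))
    (q : ℕ → ℕ) (hq : ∀ n, n + 2 ≤ q n) (hqS : ∀ n, (q n).primeFactors ⊆ S)
    (R : MvPolynomial (Option σ) ℤ) (hR : ¬ X none ∣ map (Int.castRingHom ℚ) R)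
    (D : ℕ → ℕ) (hDR : ∀ n, (D n : ℤ) ∣ eval (pt θ (q n)) R)
    {ε : ℝ} (hε : 0 < ε) :
    ∀ᶠ n in (UU : Filter ℕ), (spart S (D n) : ℝ) ≤ (q n : ℝ) ^ ε := by
  classical
  have hL := tendsto_logq hq
  obtain ⟨F, hfin, θ', g0, κ, y, H, hg, hκ, hX⟩ := exists_fam S hS θ halg hind q hq hqS hL
  set B := bas S hS with hB
  set L : ℕ → ℝ := fun n => Real.log (q n) with hLdef
  have hg1 : lv B none g0 ≠ 0 := by rw [hg]; norm_num
  have hLpos : ∀ n, 0 < L n := fun n => by
    apply Real.log_pos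
    have := hq n
    have h2 : 2 ≤ q n := by omega
    exact_mod_cast h2
  have hqexp : ∀ n, (q n : ℝ) ^ ε = Real.exp (ε * L n) := fun n => by
    have : (0 : ℝ) < q n := by have := hq n; exact_mod_cast (by omega : 0 < q n)
    rw [Real.rpow_def_of_pos this, mul_comm]
  simp only [hqexp]
  set s : ℕ → ℕ := fun n => spart S (D n) with hs
  have hs0 : ∀ n, 0 < s n := fun n => spart_pos hS _
  by_contra hcon
  have hcon' : ∀ᶠ n in (UU : Filter ℕ), Real.exp (ε * L n) < s n := by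
    have := Ultrafilter.eventually_not.2 hcon
    filter_upwards [this] with n hn
    exact not_le.1 hn
  set ee : ℕ → Fin S.card → ℝ := fun n i =>
    ((D n).factorization (B.P i) : ℝ) * Real.log (B.P i) / L n with hee
  have hee0 : ∀ n, ∀ i, 0 ≤ ee n i := by
    intro n i
    have := B.log_pos i
    have := hLpos n
    rw [hee]
    positivity
  have hlim2 : ∀ i, ∃ x, Tendsto (fun n => min (ee n i) ε) (UU : Filter ℕ) (𝓝 x) := by
    intro i
    apply exists_lim _ ε
    exact Eventually.of_forall fun n => ⟨le_min (hee0 n i) hε.le, min_le_right _ _⟩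
  choose e' he' using hlim2
  have hsum : Tendsto (fun n => ∑ i, min (ee n i) ε) (UU : Filter ℕ) (𝓝 (∑ i, e' i)) :=
    tendsto_finsetSum Finset.univ (fun i _ => he' i)
  have hge : ε ≤ ∑ i, e' i := by
    refine ge_of_tendsto hsum ?_
    filter_upwards [hcon'] with n hn
    by_cases hb : ∃ i, ε ≤ ee n i
    · obtain ⟨i, hi⟩ := hb
      exact (min_eq_right hi).ge.trans (Finset.single_le_sum (f := fun i => min (ee n i) ε)
        (fun j _ => le_min (hee0 n j) hε.le) (Finset.mem_univ i))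
    · push Not at hb
      have h9 : ∀ i, min (ee n i) ε = ee n i := fun i => min_eq_left (hb i).le
      simp only [h9]
      have h7 : Real.log (s n) = (∑ i, ee n i) * L n := by
        rw [hs]
        simp only []
        rw [spart_eq hS, log_prod_bas hS, Finset.sum_mul]
        refine Finset.sum_congr rfl fun i _ => ?_
        rw [hee]
        simp only [Int.natAbs_natCast]
        have := (hLpos n).ne'
        field_simp
        rfl
      have h8 : ε * L n ≤ Real.log (s n) := by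
        rw [Real.le_log_iff_exp_le (by exact_mod_cast hs0 n)]
        exact hn.le
      rw [h7] at h8
      exact le_of_mul_le_mul_right h8 (hLpos n)
  obtain ⟨k, hk, hk2⟩ := exists_coeff none hR
  set R' := map (Int.castRingHom ℚ) R with hR'
  have hkm : k ∈ R'.support := mem_support_iff.2 hk2
  have hkd := le_totalDegree hkm
  rw [sum_fs] at hkd
  have h1 := Xh_divis hL H hg1 hκ R'.totalDegree (fun a => ((cf R'.totalDegree R' a : ℚ) : KK L hL))
    e' (by
    intro v
    have h2 : ∑ a : Ex (Option σ) R'.totalDegree, ((((cf R'.totalDegree R' a : ℚ) : KK L hL)) : GG)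
        * Xh hL κ g0 y B a.1 = gm (fun n => ((eval (pt θ (q n)) R : ℤ) : ℚ)) := by
      simp only [rat_coe, hX, rat_gm, gm_mul]
      rw [gm_sum]
      congr 1
      funext n
      rw [← map_pt, eval_cf (le_refl R'.totalDegree)]
      rfl
    rw [h2]
    apply dvd_germ hL
    intro η hη
    filter_upwards [(he' v).eventually (lt_mem_nhds (show e' v - η < e' v by linarith))]
      with n h1
    refine ⟨(D n).factorization (B.P v), ?_, ?_⟩
    · have h3 : (B.P v) ^ ((D n).factorization (B.P v)) ∣ D n := Nat.ordProj_dvd _ _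
      have h4 : ((B.P v : ℤ)) ^ ((D n).factorization (B.P v)) ∣ (D n : ℤ) := by exact_mod_cast h3
      exact h4.trans (hDR n)
    · have h3 : e' v - η ≤ ee n v := h1.le.trans (min_le_left _ _)
      rw [hee] at h3
      simp only [] at h3
      rwa [le_div_iff₀ (hLpos n)] at h3) ⟨(k : Option σ → ℕ), mem_Ex.2 hkd⟩ (by
    intro h0
    apply hk2
    have h2 : ((cf R'.totalDegree R' ⟨(k : Option σ → ℕ), mem_Ex.2 hkd⟩ : ℚ) : KK L hL) = 0 := h0
    have h3 := Rat.cast_eq_zero.1 h2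
    rw [cf_apply, fs_coe] at h3
    exact h3)
  simp only [hk, Nat.cast_zero, zero_mul] at h1
  linarith

end

end Pool.Agent.Q4.Cov
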