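import Mathlib
import Pool.Agent.Q4.Cov.PowThm

set_option autoImplicit false
set_option linter.unusedSectionVars false

/-!
# Divisibility at truncated products
-/

namespace Pool.Agent.Q4.Cov

open Filter Topology Pool.Agent.TH932.Abs Pool.Agent.TH932.Germs Pool.Agent.TH932.Chi
open Pool.Agent.TH796.AL Pool.Agent.Q4.Blk Pool.Agent.Q4.Gcd Module

open MvPolynomial

/-- integral multiples -/
lemma int_poly {τ : Type} (R : MvPolynomial τ ℚ) : ∃ (N : ℕ) (R0 : MvPolynomial τ ℤ), N ≠ 0 ∧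
    map (Int.castRingHom ℚ) R0 = C (N : ℚ) * R := by
  induction R using MvPolynomial.induction_on with
  | C a =>
    refine ⟨a.den, C a.num, a.den_nz, ?_⟩
    rw [map_C, ← C_mul, Rat.den_mul_eq_num]
    rfl
  | add p q hp hq =>
    obtain ⟨N, P, hN, h1⟩ := hp
    obtain ⟨M, Q, hM, h2⟩ := hq
    refine ⟨N * M, C (M : ℤ) * P + C (N : ℤ) * Q, mul_ne_zero hN hM, ?_⟩
    rw [map_add, map_mul, map_mul, map_C, map_C, h1, h2]
    simp only [eq_intCast, Int.cast_natCast, Nat.cast_mul, C_mul]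
    ring
  | mul_X p i hp =>
    obtain ⟨N, P, hN, h1⟩ := hp
    refine ⟨N, P * X i, hN, ?_⟩
    rw [map_mul, map_X, h1]
    ring

section
variable {σ : Type} [Fintype σ] [DecidableEq σ]

/-- **Divisibility.** -/
theorem divisibility (S : Finset ℕ) (hS : ∀ p ∈ S, p.Prime) [Nonempty σ] (θ : σ → ℝ)
    (halg : ∀ s, IsAlgebraic ℚ (θ s))
    (hind : LinearIndependent ℚ (fun o : Option σ => (o.elim 1 (fun s => θ s) : ℝ)))
    (F G : MvPolynomial (Option σ) ℤ) (hG : G ≠ 0) :
    (∃ j : ℕ, map (Int.castRingHom ℚ) G ∣ X none ^ j * map (Int.castRingHom ℚ) F) ∨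
    ∃ q₀ : ℕ, ∀ q ≥ q₀, q.primeFactors ⊆ S → ∀ c : ℤ, c ≠ 0 → c.natAbs.primeFactors ⊆ S →
      ¬ (eval (pt θ q) G ∣ c * eval (pt θ q) F) := by
  classical
  by_contra hcon
  rw [not_or] at hcon
  obtain ⟨hno, hcon⟩ := hcon
  push Not at hcon
  choose q hq hqS c hc0 hcS hdvd using fun n : ℕ => hcon (n + 2)
  have hq' : ∀ n, n + 2 ≤ q n := hq
  have hq0 : ∀ n, q n ≠ 0 := fun n => by have := hq n; omega
  have hinj : Function.Injective (map (Int.castRingHom ℚ) :
      MvPolynomial (Option σ) ℤ → MvPolynomial (Option σ) ℚ) :=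
    map_injective _ Int.cast_injective
  set G' := map (Int.castRingHom ℚ) G with hG'
  set F' := map (Int.castRingHom ℚ) F with hF'
  have hG0 : G' ≠ 0 := by
    intro h
    apply hG
    apply hinj
    rw [map_zero]
    exact h
  obtain ⟨G1, F1, H, hrel, hHG, hHF⟩ := UniqueFactorizationMonoid.exists_reduced_factors G' hG0 F'
  have hG10 : G1 ≠ 0 := by
    rintro rfl
    rw [mul_zero] at hHG
    exact hG0 hHG.symm
  have hH0 : H ≠ 0 := by
    rintro rfl
    rw [zero_mul] at hHG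
    exact hG0 hHG.symm
  obtain ⟨j, g2, hg2, hG1⟩ := WfDvdMonoid.max_power_factor (x := (X none : MvPolynomial (Option σ) ℚ))
    hG10 (X_prime (R := ℚ) (i := (none : Option σ))).irreducible
  have hF0 : F1 ≠ 0 := by
    rintro rfl
    rw [mul_zero] at hHF
    apply hno
    refine ⟨0, ?_⟩
    rw [← hHF, mul_zero]
    exact dvd_zero _
  have hg20 : g2 ≠ 0 := by
    rintro rfl
    rw [mul_zero] at hG1
    exact hG10 hG1
  obtain ⟨N1, P1, hN1, hP1⟩ := int_poly g2
  obtain ⟨N2, Q1, hN2, hQ1⟩ := int_poly F1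
  set N : ℕ := N1 * N2 with hN
  have hN0 : N ≠ 0 := mul_ne_zero hN1 hN2
  set P2 : MvPolynomial (Option σ) ℤ := C (N2 : ℤ) * P1 with hP2
  set Q2 : MvPolynomial (Option σ) ℤ := C (N1 : ℤ) * Q1 with hQ2
  have hP2m : map (Int.castRingHom ℚ) P2 = C (N : ℚ) * g2 := by
    rw [hP2, map_mul, map_C, hP1, ← mul_assoc, hN]
    simp only [eq_intCast, Int.cast_natCast, Nat.cast_mul, C_mul]
    ring
  have hQ2m : map (Int.castRingHom ℚ) Q2 = C (N : ℚ) * F1 := by
    rw [hQ2, map_mul, map_C, hQ1, ← mul_assoc, hN]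
    simp only [eq_intCast, Int.cast_natCast, Nat.cast_mul, C_mul]
  have hNu : IsUnit (C (N : ℚ) : MvPolynomial (Option σ) ℚ) := by
    apply IsUnit.map C
    exact IsUnit.mk0 _ (by exact_mod_cast hN0)
  have hrel2 : IsRelPrime (map (Int.castRingHom ℚ) P2) (map (Int.castRingHom ℚ) Q2) := by
    rw [hP2m, hQ2m]
    apply (isRelPrime_mul_unit_left hNu).2
    exact hrel.of_dvd_left ⟨X none ^ j, by rw [hG1, mul_comm]⟩
  have hP20 : P2 ≠ 0 := by
    intro h
    have h1 := hP2m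
    rw [h, map_zero] at h1
    exact mul_ne_zero hNu.ne_zero hg20 h1.symm
  have hQ20 : Q2 ≠ 0 := by
    intro h
    have h1 := hQ2m
    rw [h, map_zero] at h1
    exact mul_ne_zero hNu.ne_zero hF0 h1.symm
  -- the divisibility of the reduced polynomials
  have hHne : ∀ᶠ n in (UU : Filter ℕ), aeval (fun i => (pt θ (q n) i : ℚ)) H ≠ 0 := by
    by_contra hc
    have h1 := Ultrafilter.eventually_not.2 hc
    apply hH0
    apply vanish S hS θ halg hind q hq' hqS
    filter_upwards [h1] with n hn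
    exact not_not.1 hn
  have hdvd2 : ∀ᶠ n in (UU : Filter ℕ), eval (pt θ (q n)) P2 ∣ c n * eval (pt θ (q n)) Q2 := by
    filter_upwards [hHne] with n hn
    obtain ⟨m, hm⟩ := hdvd n
    refine ⟨m * (q n : ℤ) ^ j, ?_⟩
    have e1 := congrArg (aeval (fun i => (pt θ (q n) i : ℚ))) hHG
    have e2 := congrArg (aeval (fun i => (pt θ (q n) i : ℚ))) hHF
    have e3 := congrArg (aeval (fun i => (pt θ (q n) i : ℚ))) hP2m
    have e4 := congrArg (aeval (fun i => (pt θ (q n) i : ℚ))) hQ2m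
    rw [hG1] at e1
    simp only [map_mul, map_pow, aeval_X, hG', hF', map_pt, aeval_C] at e1 e2 e3 e4
    have e5 : ((c n * eval (pt θ (q n)) F : ℤ) : ℚ) = ((eval (pt θ (q n)) G * m : ℤ) : ℚ) := by
      rw [hm]
    push_cast at e5
    rw [← e1, ← e2] at e5
    have e6 : (c n : ℚ) * aeval (fun i => (pt θ (q n) i : ℚ)) F1
        = ((pt θ (q n) none : ℤ) : ℚ) ^ j * aeval (fun i => (pt θ (q n) i : ℚ)) g2 * m := by
      apply mul_left_cancel₀ hn
      linarith
    have e7 : ((pt θ (q n) none : ℤ) : ℚ) = (q n : ℚ) := by simp [pt]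
    rw [e7] at e6
    have e8 : ((c n * eval (pt θ (q n)) Q2 : ℤ) : ℚ)
        = ((eval (pt θ (q n)) P2 * (m * (q n : ℤ) ^ j) : ℤ) : ℚ) := by
      push_cast
      rw [e3, e4]
      calc (c n : ℚ) * (algebraMap ℚ ℚ (N : ℚ) * aeval (fun i => (pt θ (q n) i : ℚ)) F1)
          = algebraMap ℚ ℚ (N : ℚ) * ((c n : ℚ) * aeval (fun i => (pt θ (q n) i : ℚ)) F1) := by ring
        _ = _ := by rw [e6]; ring
    exact_mod_cast e8
  -- sizes
  set D : ℕ → ℕ := fun n => (eval (pt θ (q n)) P2).natAbs with hD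
  have hDP : ∀ n, (D n : ℤ) ∣ eval (pt θ (q n)) P2 := fun n => Int.natAbs_dvd.2 dvd_rfl
  have hsp : ∀ ε : ℝ, 0 < ε → ∀ᶠ n in (UU : Filter ℕ), (spart S (D n) : ℝ) ≤ (q n : ℝ) ^ ε := by
    intro ε hε
    refine spart_seq S hS θ halg hind q hq' hqS P2 ?_ D hDP hε
    rw [hP2m]
    intro h
    apply hg2
    exact (hNu.dvd_mul_left).1 h
  have hP2ne : ∀ᶠ n in (UU : Filter ℕ), eval (pt θ (q n)) P2 ≠ 0 := by
    by_contra hc
    have h1 := Ultrafilter.eventually_not.2 hc
    apply mul_ne_zero hNu.ne_zero hg20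
    rw [← hP2m]
    apply vanish S hS θ halg hind q hq' hqS
    filter_upwards [h1] with n hn
    rw [map_pt, not_not.1 hn]
    simp
  have hsmall : ∀ ε : ℝ, 0 < ε → ∀ᶠ n in (UU : Filter ℕ),
      |((eval (pt θ (q n)) P2 : ℤ) : ℝ)| ≤ (q n : ℝ) ^ ε := by
    intro ε hε
    obtain ⟨q₀, hq₀⟩ := gcd_small S hS θ halg hind P2 Q2 hP20 hQ20 hrel2 (half_pos hε)
    have hbig : ∀ᶠ n in (UU : Filter ℕ), q₀ ≤ q n := ev_of_atTop
      (Filter.eventually_atTop.2 ⟨q₀, fun n hn => by have := hq n; omega⟩)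
    filter_upwards [hsp (ε / 2) (half_pos hε), hdvd2, hP2ne, hbig] with n h1 h2 h3 h4
    have hDn0 : D n ≠ 0 := Int.natAbs_ne_zero.2 h3
    have hsD : spart S (D n) ∣ D n := by
      have := spart_dvd hS (D n : ℤ)
      exact_mod_cast this
    obtain ⟨t, ht⟩ := hsD
    have hs0 : 0 < spart S (D n) := spart_pos hS _
    have ht0 : t ≠ 0 := by
      rintro rfl
      rw [mul_zero] at ht
      exact hDn0 ht
    -- `t` is prime to `S`
    have htS : ∀ p ∈ S, ¬ p ∣ t := by
      intro p hp hpt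
      have hpp := hS p hp
      have h5 : 0 < t.factorization p := hpp.factorization_pos_of_dvd ht0 hpt
      have h6 : (D n).factorization p = (spart S (D n)).factorization p + t.factorization p := by
        conv_lhs => rw [ht]
        rw [Nat.factorization_mul hs0.ne' ht0]
        rfl
      have h7 : p ^ ((D n).factorization p) ∣ spart S (D n) := by
        unfold spart
        simp only [Int.natAbs_natCast]
        exact Finset.dvd_prod_of_mem (fun p => p ^ (D n).factorization p) hp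
      have h8 := (hpp.pow_dvd_iff_le_factorization hs0.ne').1 h7
      omega
    have htc : IsCoprime (t : ℤ) (c n) := by
      rw [Int.isCoprime_iff_gcd_eq_one]
      by_contra hne
      obtain ⟨p, hp, hpd⟩ := Nat.exists_prime_and_dvd hne
      have h5 : p ∣ t := hpd.trans (Nat.gcd_dvd_left t (c n).natAbs)
      have h6 : p ∣ (c n).natAbs := hpd.trans (Nat.gcd_dvd_right t (c n).natAbs)
      exact htS p (hcS n (Nat.mem_primeFactors.2 ⟨hp, h6, Int.natAbs_ne_zero.2 (hc0 n)⟩)) h5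
    have htD : (t : ℤ) ∣ (D n : ℤ) := by
      rw [ht]
      push_cast
      exact dvd_mul_left _ _
    have htP : (t : ℤ) ∣ eval (pt θ (q n)) P2 := htD.trans (hDP n)
    have htQ : (t : ℤ) ∣ eval (pt θ (q n)) Q2 := htc.dvd_of_dvd_mul_left (htP.trans h2)
    have h5 := hq₀ (q n) h4 (hqS n) t htP htQ
    have h6 : |((eval (pt θ (q n)) P2 : ℤ) : ℝ)| = (spart S (D n) : ℝ) * t := by
      have h7 : |((eval (pt θ (q n)) P2 : ℤ) : ℝ)| = ((D n : ℕ) : ℝ) := by
        rw [hD]
        simp only []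
        rw [Nat.cast_natAbs, Int.cast_abs]
      rw [h7]
      exact_mod_cast ht
    rw [h6]
    have hqp : (0 : ℝ) < q n := by exact_mod_cast Nat.pos_of_ne_zero (hq0 n)
    calc (spart S (D n) : ℝ) * t ≤ (q n : ℝ) ^ (ε / 2) * (q n : ℝ) ^ (ε / 2) :=
          mul_le_mul h1 h5.le (Nat.cast_nonneg _) (by positivity)
      _ = (q n : ℝ) ^ ε := by
          rw [← Real.rpow_add hqp]
          congr 1
          ring
  obtain ⟨hconst, -⟩ := small_const S hS θ halg hind q hq' hqS (map (Int.castRingHom ℚ) P2)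
    (fun n => eval (pt θ (q n)) P2) (Eventually.of_forall fun n => map_pt θ P2 (q n)) hsmall
  set a : ℚ := constantCoeff (map (Int.castRingHom ℚ) P2) with ha
  rw [hP2m] at hconst
  have ha0 : a ≠ 0 := by
    intro h
    rw [h, map_zero] at hconst
    exact mul_ne_zero hNu.ne_zero hg20 hconst
  apply hno
  refine ⟨j, C ((N : ℚ) / a) * F1, ?_⟩
  rw [← hHF, ← hHG, hG1]
  have hNq : (N : ℚ) ≠ 0 := by exact_mod_cast hN0
  have h1 : g2 * C ((N : ℚ) / a) = 1 := by
    have h2 : g2 * C ((N : ℚ) / a) = (C (N : ℚ) * g2) * C (1 / a) := by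
      rw [div_eq_mul_one_div, C_mul]
      ring
    rw [h2, hconst, ← C_mul, mul_one_div_cancel ha0, C_1]
  calc X none ^ j * (H * F1) = H * X none ^ j * F1 * 1 := by ring
    _ = H * X none ^ j * F1 * (g2 * C ((N : ℚ) / a)) := by rw [h1]
    _ = _ := by ring

end

end Pool.Agent.Q4.Cov
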