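import Mathlib
import Pool.Agent.Q4.Cov.DivThm

set_option autoImplicit false
set_option linter.unusedSectionVars false

/-!
# Factors of polynomials at truncated products
-/

namespace Pool.Agent.Q4.Cov

open Filter Topology Pool.Agent.TH932.Abs Pool.Agent.TH932.Germs Pool.Agent.TH932.Chi
open Pool.Agent.TH796.AL Pool.Agent.Q4.Blk Pool.Agent.Q4.Gcd Module

section
variable {σ : Type} [Fintype σ] [DecidableEq σ]

open MvPolynomial

/-- sequences approximated by combinations of the forms -/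
def App (θ : σ → ℝ) (q : ℕ → ℕ) (D : ℕ) (s : ℕ → ℂ) : Prop :=
  ∃ (c : Ex (Option σ) D → QB) (C : ℝ), ∀ᶠ n in (UU : Filter ℕ),
    ‖s n - ∑ a, phi (c a) * (zval θ (q n) a.1 : ℂ)‖ ≤ C / q n

variable {θ : σ → ℝ} {q : ℕ → ℕ} {D : ℕ}

lemma App.congr {s s' : ℕ → ℂ} (h : App θ q D s) (hs : ∀ᶠ n in (UU : Filter ℕ), s' n = s n) :
    App θ q D s' := by
  obtain ⟨c, C, h⟩ := h
  refine ⟨c, C, ?_⟩
  filter_upwards [h, hs] with n h1 h2
  rw [h2]
  exact h1

lemma App.zero : App θ q D (fun _ => 0) := by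
  refine ⟨fun _ => 0, 0, Eventually.of_forall fun n => ?_⟩
  simp

lemma App.add {s s' : ℕ → ℂ} (h : App θ q D s) (h' : App θ q D s') :
    App θ q D (fun n => s n + s' n) := by
  obtain ⟨c, C, h⟩ := h
  obtain ⟨c', C', h'⟩ := h'
  refine ⟨fun a => c a + c' a, C + C', ?_⟩
  filter_upwards [h, h'] with n h1 h2
  have e : s n + s' n - ∑ a, phi (c a + c' a) * (zval θ (q n) a.1 : ℂ)
      = (s n - ∑ a, phi (c a) * (zval θ (q n) a.1 : ℂ))
        + (s' n - ∑ a, phi (c' a) * (zval θ (q n) a.1 : ℂ)) := by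
    simp only [map_add, add_mul, Finset.sum_add_distrib]
    ring
  rw [e, add_div]
  exact (norm_add_le _ _).trans (add_le_add h1 h2)

lemma App.mul {s : ℕ → ℂ} (b : QB) (h : App θ q D s) : App θ q D (fun n => phi b * s n) := by
  obtain ⟨c, C, h⟩ := h
  refine ⟨fun a => b * c a, ‖phi b‖ * C, ?_⟩
  filter_upwards [h] with n h1
  have e : phi b * s n - ∑ a, phi (b * c a) * (zval θ (q n) a.1 : ℂ)
      = phi b * (s n - ∑ a, phi (c a) * (zval θ (q n) a.1 : ℂ)) := by
    rw [mul_sub, Finset.mul_sum]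
    congr 1
    refine Finset.sum_congr rfl fun a _ => ?_
    rw [map_mul]
    ring
  rw [e, norm_mul, mul_div_assoc]
  exact mul_le_mul_of_nonneg_left h1 (norm_nonneg _)

lemma App.sum {ι : Type*} (s : Finset ι) (f : ι → ℕ → ℂ) (h : ∀ i ∈ s, App θ q D (f i)) :
    App θ q D (fun n => ∑ i ∈ s, f i n) := by
  classical
  induction s using Finset.induction_on with
  | empty => simpa using App.zero
  | insert i s hi ih =>
    have h1 := (h i (Finset.mem_insert_self _ _)).add
      (ih fun j hj => h j (Finset.mem_insert_of_mem hj))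
    refine h1.congr (Eventually.of_forall fun n => ?_)
    rw [Finset.sum_insert hi]

/-- integers which are approximable are values of rational polynomials -/
theorem App.int (S : Finset ℕ) (hS : ∀ p ∈ S, p.Prime)
    (halg : ∀ s, IsAlgebraic ℚ (θ s))
    (hind : LinearIndependent ℚ (fun o : Option σ => (o.elim 1 (fun s => θ s) : ℝ)))
    (hq : ∀ n, n + 2 ≤ q n) (hqS : ∀ n, (q n).primeFactors ⊆ S) (z : ℕ → ℤ)
    (h : App θ q D (fun n => (z n : ℂ))) : ∃ G : MvPolynomial (Option σ) ℚ,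
      ∀ᶠ n in (UU : Filter ℕ), (z n : ℚ) = aeval (fun i => (pt θ (q n) i : ℚ)) G := by
  obtain ⟨c, C, h⟩ := h
  obtain ⟨γ, hγ⟩ := engine S hS θ halg hind q hq hqS D (fun _ => 1) (fun _ => one_ne_zero)
    (fun _ => by simp) 0 0 zero_lt_one (by intro n; simp) z
    (fun a => (phi (c a)).re) (fun a => alg_re (alg_QB (c a))) C (by
      filter_upwards [h] with n h1
      have h3 : ((z n : ℂ) - ∑ a, phi (c a) * (zval θ (q n) a.1 : ℂ)).re
          = (z n : ℝ) - ∑ a, (phi (c a)).re * zval θ (q n) a.1 := by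
        rw [Complex.sub_re, Complex.re_sum, Complex.intCast_re]
        congr 1
        refine Finset.sum_congr rfl fun a _ => ?_
        rw [Complex.re_mul_ofReal]
      have h4 := (Complex.abs_re_le_norm _).trans h1
      rw [h3] at h4
      simpa [div_eq_mul_inv] using h4)
  refine ⟨polyOf γ, ?_⟩
  filter_upwards [hγ] with n hn
  rw [hn, aeval_polyOf]
  simp

/-! ### products of linear factors -/

/-- polynomials whose coefficients are approximated to order `R` -/
def Near (θ : σ → ℝ) (q : ℕ → ℕ) (R : ℕ) (f : ℕ → Polynomial ℂ)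
    (F : Polynomial (MvPolynomial (Option σ) QB)) : Prop :=
  ∀ j, ∃ C : ℝ, 0 ≤ C ∧ ∀ᶠ n in (UU : Filter ℕ),
    ‖(f n).coeff j - evr phi (vv (q n) (frs θ (q n))) (F.coeff j)‖ ≤ C * (1 / q n) ^ R

lemma Near.one (R : ℕ) : Near θ q R (fun _ => 1) 1 := by
  intro j
  refine ⟨0, le_rfl, Eventually.of_forall fun n => ?_⟩
  rw [Polynomial.coeff_one, Polynomial.coeff_one]
  split_ifs <;> simp

lemma Near.mul (hq : ∀ n, n + 2 ≤ q n) {R : ℕ} {f g : ℕ → Polynomial ℂ}
    {F G : Polynomial (MvPolynomial (Option σ) QB)}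
    (hf : Near θ q R f F) (hg : Near θ q R g G) : Near θ q R (fun n => f n * g n) (F * G) := by
  obtain ⟨hδ, hδ0, hv⟩ := vv_seq θ hq
  intro j
  choose C hC0 hC using hf
  choose C' hC0' hC' using hg
  have hb : ∀ E : MvPolynomial (Option σ) QB, ∃ M : ℝ, 0 ≤ M ∧ ∀ n,
      ‖evr phi (vv (q n) (frs θ (q n))) E‖ ≤ M := by
    intro E
    obtain ⟨M, hM0, hM⟩ := Ord.any phi E
    refine ⟨M, hM0, fun n => ?_⟩
    have := hM _ _ (hδ n).1 (hδ n).2 (hv n)
    rwa [pow_zero, mul_one] at this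
  choose M hM0 hM using fun i => hb (F.coeff i)
  choose M' hM0' hM' using fun i => hb (G.coeff i)
  refine ⟨∑ x ∈ Finset.HasAntidiagonal.antidiagonal j, (C x.1 * (M' x.2 + C' x.2) + M x.1 * C' x.2), ?_, ?_⟩
  · exact Finset.sum_nonneg fun x _ => by
      have := hC0 x.1; have := hC0' x.2; have := hM0 x.1; have := hM0' x.2
      positivity
  have hall : ∀ᶠ n in (UU : Filter ℕ), ∀ x ∈ Finset.HasAntidiagonal.antidiagonal j,
      ‖(f n).coeff x.1 - evr phi (vv (q n) (frs θ (q n))) (F.coeff x.1)‖ ≤ C x.1 * (1 / q n) ^ R ∧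
      ‖(g n).coeff x.2 - evr phi (vv (q n) (frs θ (q n))) (G.coeff x.2)‖ ≤ C' x.2 * (1 / q n) ^ R := by
    rw [Filter.eventually_all_finset]
    exact fun x _ => (hC x.1).and (hC' x.2)
  filter_upwards [hall] with n hn
  rw [Polynomial.coeff_mul, Polynomial.coeff_mul, map_sum, ← Finset.sum_sub_distrib, Finset.sum_mul]
  refine (norm_sum_le _ _).trans (Finset.sum_le_sum fun x hx => ?_)
  obtain ⟨h1, h2⟩ := hn x hx
  rw [map_mul]
  have e : (f n).coeff x.1 * (g n).coeff x.2 - evr phi (vv (q n) (frs θ (q n))) (F.coeff x.1)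
      * evr phi (vv (q n) (frs θ (q n))) (G.coeff x.2)
      = ((f n).coeff x.1 - evr phi (vv (q n) (frs θ (q n))) (F.coeff x.1)) * (g n).coeff x.2
        + evr phi (vv (q n) (frs θ (q n))) (F.coeff x.1)
          * ((g n).coeff x.2 - evr phi (vv (q n) (frs θ (q n))) (G.coeff x.2)) := by ring
  rw [e]
  refine (norm_add_le _ _).trans ?_
  rw [norm_mul, norm_mul]
  have hpow : (1 / (q n : ℝ)) ^ R ≤ 1 := pow_le_one₀ (hδ n).1 (hδ n).2
  have hg1 : ‖(g n).coeff x.2‖ ≤ M' x.2 + C' x.2 := by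
    have h3 : (g n).coeff x.2 = evr phi (vv (q n) (frs θ (q n))) (G.coeff x.2)
      + ((g n).coeff x.2 - evr phi (vv (q n) (frs θ (q n))) (G.coeff x.2)) := by ring
    rw [h3]
    refine (norm_add_le _ _).trans (add_le_add (hM' x.2 n) (h2.trans ?_))
    have := hC0' x.2
    nlinarith
  have hr0 : (0 : ℝ) ≤ (1 / (q n : ℝ)) ^ R := by positivity
  calc _ ≤ (C x.1 * (1 / q n) ^ R) * (M' x.2 + C' x.2) + M x.1 * (C' x.2 * (1 / q n) ^ R) :=
        add_le_add (mul_le_mul h1 hg1 (norm_nonneg _) (mul_nonneg (hC0 _) hr0))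
          (mul_le_mul (hM x.1 n) h2 (norm_nonneg _) (hM0 _))
    _ = _ := by ring

lemma Near.prod (hq : ∀ n, n + 2 ≤ q n) {R : ℕ} {ι : Type*} (s : Finset ι)
    (f : ι → ℕ → Polynomial ℂ) (F : ι → Polynomial (MvPolynomial (Option σ) QB))
    (h : ∀ i ∈ s, Near θ q R (f i) (F i)) : Near θ q R (fun n => ∏ i ∈ s, f i n) (∏ i ∈ s, F i) := by
  classical
  induction s using Finset.induction_on with
  | empty => simpa using Near.one R
  | insert i s hi ih =>
    have h1 := (h i (Finset.mem_insert_self _ _)).mul hq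
      (ih fun j hj => h j (Finset.mem_insert_of_mem hj))
    simp only [Finset.prod_insert hi]
    exact h1

lemma Near.linear {R : ℕ} {Y : ℕ → ℂ} {E : MvPolynomial (Option σ) QB} {C : ℝ} (hC : 0 ≤ C)
    (h : ∀ᶠ n in (UU : Filter ℕ), ‖Y n - evr phi (vv (q n) (frs θ (q n))) E‖ ≤ C * (1 / q n) ^ R) :
    Near θ q R (fun n => Polynomial.X - Polynomial.C (Y n)) (Polynomial.X - Polynomial.C E) := by
  intro j
  refine ⟨C, hC, ?_⟩
  filter_upwards [h] with n hn
  rw [Polynomial.coeff_sub, Polynomial.coeff_sub, Polynomial.coeff_X, Polynomial.coeff_X,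
    Polynomial.coeff_C, Polynomial.coeff_C, map_sub]
  by_cases h0 : j = 0
  · subst h0
    simp only [if_true]
    have h2 : ((if (1 : ℕ) = 0 then (1 : ℂ) else 0) - Y n)
        - (evr phi (vv (q n) (frs θ (q n))) (if (1 : ℕ) = 0 then 1 else 0)
          - evr phi (vv (q n) (frs θ (q n))) E)
        = -(Y n - evr phi (vv (q n) (frs θ (q n))) E) := by
      simp
      ring
    rw [h2, norm_neg]
    exact hn
  · simp only [if_neg h0, map_zero, sub_zero]
    have h2 : (if 1 = j then (1 : ℂ) else 0)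
        - evr phi (vv (q n) (frs θ (q n))) (if 1 = j then 1 else 0) = 0 := by
      split_ifs <;> simp
    rw [h2, norm_zero]
    positivity

lemma coeff_scale {m : ℕ} (y : Fin m → ℂ) {s : ℂ} (hs : s ≠ 0) {j : ℕ} (hj : j ≤ m) :
    (∏ l, (Polynomial.X - Polynomial.C (s * y l))).coeff j
      = s ^ (m - j) * (∏ l, (Polynomial.X - Polynomial.C (y l))).coeff j := by
  have h1 : (∏ l, (Polynomial.X - Polynomial.C (s * y l))).comp (Polynomial.C s * Polynomial.X)
      = Polynomial.C (s ^ m) * ∏ l, (Polynomial.X - Polynomial.C (y l)) := by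
    rw [Polynomial.prod_comp]
    have h2 : ∀ l, (Polynomial.X - Polynomial.C (s * y l)).comp (Polynomial.C s * Polynomial.X)
        = Polynomial.C s * (Polynomial.X - Polynomial.C (y l)) := by
      intro l
      rw [Polynomial.sub_comp, Polynomial.X_comp, Polynomial.C_comp, Polynomial.C_mul, mul_sub]
    simp only [h2]
    rw [Finset.prod_mul_distrib, Finset.prod_const, Finset.card_univ, Fintype.card_fin,
      ← Polynomial.C_pow]
  have h2 := congrArg (fun p => Polynomial.coeff p j) h1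
  simp only [Polynomial.comp_C_mul_X_coeff, Polynomial.coeff_C_mul] at h2
  have h3 : s ^ m = s ^ (m - j) * s ^ j := by rw [← pow_add]; congr 1; omega
  rw [h3] at h2
  apply mul_right_cancel₀ (pow_ne_zero j hs)
  rw [h2]
  ring

end

end Pool.Agent.Q4.Cov
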