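import Mathlib
import Pool.Agent.Q4.Cov.Irr

set_option autoImplicit false
set_option linter.unusedSectionVars false

/-!
# Factors of specialised polynomials
-/

namespace Pool.Agent.Q4.Cov

open Filter Topology Pool.Agent.TH932.Abs Pool.Agent.TH932.Germs Pool.Agent.TH932.Chi
open Pool.Agent.TH796.AL Pool.Agent.Q4.Blk Pool.Agent.Q4.Gcd Module

section
variable {σ : Type} [Fintype σ] [DecidableEq σ]

open MvPolynomial

/-- the polynomial in the local parameters -/
noncomputable def ptil (P : Polynomial (MvPolynomial (Option σ) ℤ)) (D : ℕ) (θK : σ → QB) :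
    Polynomial (MvPolynomial (Option σ) QB) :=
  ∑ i ∈ Finset.range (P.natDegree + 1),
    Polynomial.C (hmg θK ((P.natDegree - i) * D) (P.coeff i)) * Polynomial.X ^ i

/-- the polynomial at infinity -/
noncomputable def pinf {R : Type*} [CommRing R] (P : Polynomial (MvPolynomial (Option σ) ℤ)) (D : ℕ)
    (t : σ → R) : Polynomial R :=
  ∑ i ∈ Finset.range (P.natDegree + 1),
    Polynomial.C (topv ((P.natDegree - i) * D) (P.coeff i) t) * Polynomial.X ^ i

variable {P : Polynomial (MvPolynomial (Option σ) ℤ)} {D : ℕ}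

lemma ptil_cc (hdeg : ∀ i, (P.coeff i).totalDegree ≤ (P.natDegree - i) * D) (θK : σ → QB) :
    (ptil P D θK).map constantCoeff = pinf P D θK := by
  unfold ptil pinf
  rw [Polynomial.map_sum]
  refine Finset.sum_congr rfl fun i _ => ?_
  rw [Polynomial.map_mul, Polynomial.map_pow, Polynomial.map_X, Polynomial.map_C,
    cc_hmg θK _ _ (hdeg i)]

lemma pinf_map {R R' : Type*} [CommRing R] [CommRing R'] (f : R →+* R') (t : σ → R) :
    (pinf P D t).map f = pinf P D (fun s => f (t s)) := by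
  unfold pinf
  rw [Polynomial.map_sum]
  refine Finset.sum_congr rfl fun i _ => ?_
  rw [Polynomial.map_mul, Polynomial.map_pow, Polynomial.map_X, Polynomial.map_C, topv_map]

lemma topv_one {R : Type*} [CommRing R] (t : σ → R) : topv 0 (1 : MvPolynomial (Option σ) ℤ) t = 1 := by
  unfold topv
  rw [homogeneousComponent_zero]
  simp

lemma hmg_one (θK : σ → QB) : hmg θK 0 (1 : MvPolynomial (Option σ) ℤ) = 1 := by
  unfold hmg
  have h : (1 : MvPolynomial (Option σ) ℤ).support = {0} := by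
    rw [show (1 : MvPolynomial (Option σ) ℤ) = monomial 0 1 from rfl, support_monomial,
      if_neg one_ne_zero]
  rw [h, Finset.sum_singleton]
  simp

lemma pinf_coeff_top (hP : P.Monic) {R : Type*} [CommRing R] (t : σ → R) :
    (pinf P D t).coeff P.natDegree = 1 := by
  unfold pinf
  rw [Polynomial.finsetSum_coeff, Finset.sum_eq_single P.natDegree]
  · rw [Polynomial.coeff_C_mul, Polynomial.coeff_X_pow, if_pos rfl, mul_one, Nat.sub_self, zero_mul,
      hP.coeff_natDegree, topv_one]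
  · intro i _ hi
    rw [Polynomial.coeff_C_mul, Polynomial.coeff_X_pow, if_neg (Ne.symm hi), mul_zero]
  · intro h
    exact absurd (Finset.mem_range.2 (Nat.lt_succ_self _)) h

/-- evaluation of the coefficients at the point -/
noncomputable def evz (θ : σ → ℝ) (q : ℕ) (K : Type*) [Ring K] : MvPolynomial (Option σ) ℤ →+* K :=
  (Int.castRingHom K).comp (eval (pt θ q))

lemma ptil_eval {θ : σ → ℝ} {θK : σ → QB} (hθ : ∀ s, phi (θK s) = (θ s : ℂ))
    (hdeg : ∀ i, (P.coeff i).totalDegree ≤ (P.natDegree - i) * D) {q : ℕ} (hq : q ≠ 0) (ρ : ℂ) :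
    (q : ℂ) ^ (P.natDegree * D) * ((ptil P D θK).map (evr phi (vv q (frs θ q)))).eval (ρ / q ^ D)
      = (P.map (evz θ q ℂ)).eval ρ := by
  have hqc : (q : ℂ) ≠ 0 := by exact_mod_cast hq
  have h1 : (P.map (evz θ q ℂ)).eval ρ
      = ∑ i ∈ Finset.range (P.natDegree + 1), ((eval (pt θ q) (P.coeff i) : ℤ) : ℂ) * ρ ^ i := by
    rw [Polynomial.eval_map, Polynomial.eval₂_eq_sum_range]
    rfl
  rw [h1]
  unfold ptil
  rw [Polynomial.map_sum, Polynomial.eval_finsetSum, Finset.mul_sum]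
  refine Finset.sum_congr rfl fun i hi => ?_
  rw [Polynomial.map_mul, Polynomial.map_pow, Polynomial.map_X, Polynomial.map_C,
    Polynomial.eval_mul, Polynomial.eval_pow, Polynomial.eval_X, Polynomial.eval_C,
    ← evr_hmg phi hθ _ _ (hdeg i) q hq]
  have hi' : i ≤ P.natDegree := Nat.lt_succ_iff.1 (Finset.mem_range.1 hi)
  have h2 : (q : ℂ) ^ (P.natDegree * D) = (q : ℂ) ^ ((P.natDegree - i) * D) * ((q : ℂ) ^ D) ^ i := by
    rw [← pow_mul, ← pow_add]
    congr 1
    have : P.natDegree = (P.natDegree - i) + i := by omega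
    conv_lhs => rw [this]
    ring
  rw [h2, div_pow]
  have h3 : ((q : ℂ) ^ D) ^ i ≠ 0 := pow_ne_zero _ (pow_ne_zero _ hqc)
  field_simp

/-- roots of the polynomials are bounded -/
lemma root_bound {θ : σ → ℝ} {q : ℕ → ℕ} (hq : ∀ n, n + 2 ≤ q n) (θK : σ → QB)
    (hP : P.Monic) :
    ∃ M : ℝ, ∀ n (y : ℂ), ((ptil P D θK).map (evr phi (vv (q n) (frs θ (q n))))).eval y = 0 →
      ‖y‖ ≤ M := by
  obtain ⟨hδ, hδ0, hv⟩ := vv_seq θ hq
  have hb : ∀ E : MvPolynomial (Option σ) QB, ∃ M : ℝ, 0 ≤ M ∧ ∀ n,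
      ‖evr phi (vv (q n) (frs θ (q n))) E‖ ≤ M := by
    intro E
    obtain ⟨M, hM0, hM⟩ := Ord.any phi E
    refine ⟨M, hM0, fun n => ?_⟩
    have := hM _ _ (hδ n).1 (hδ n).2 (hv n)
    rwa [pow_zero, mul_one] at this
  choose M hM0 hM using fun i => hb (hmg θK ((P.natDegree - i) * D) (P.coeff i))
  refine ⟨max 1 (∑ i ∈ Finset.range P.natDegree, M i), fun n y hy => ?_⟩
  by_cases hy1 : ‖y‖ ≤ 1
  · exact hy1.trans (le_max_left _ _)
  push Not at hy1
  refine le_trans ?_ (le_max_right _ _)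
  unfold ptil at hy
  rw [Polynomial.map_sum, Polynomial.eval_finsetSum, Finset.sum_range_succ] at hy
  have h1 : ∀ i, (Polynomial.map (evr phi (vv (q n) (frs θ (q n))))
      (Polynomial.C (hmg θK ((P.natDegree - i) * D) (P.coeff i)) * Polynomial.X ^ i)).eval y
      = evr phi (vv (q n) (frs θ (q n))) (hmg θK ((P.natDegree - i) * D) (P.coeff i)) * y ^ i := by
    intro i
    rw [Polynomial.map_mul, Polynomial.map_pow, Polynomial.map_X, Polynomial.map_C,
      Polynomial.eval_mul, Polynomial.eval_pow, Polynomial.eval_X, Polynomial.eval_C]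
  simp only [h1] at hy
  rw [Nat.sub_self, zero_mul, hP.coeff_natDegree, hmg_one, map_one, one_mul] at hy
  by_cases hk : P.natDegree = 0
  · rw [hk] at hy
    simp at hy
  have h2 : y ^ P.natDegree = -∑ i ∈ Finset.range P.natDegree,
      evr phi (vv (q n) (frs θ (q n))) (hmg θK ((P.natDegree - i) * D) (P.coeff i)) * y ^ i :=
    eq_neg_of_add_eq_zero_right hy
  have h3 : ‖y‖ ^ P.natDegree ≤ (∑ i ∈ Finset.range P.natDegree, M i) * ‖y‖ ^ (P.natDegree - 1) := by
    rw [← norm_pow, h2, norm_neg, Finset.sum_mul]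
    refine (norm_sum_le _ _).trans (Finset.sum_le_sum fun i hi => ?_)
    rw [norm_mul, norm_pow]
    have := Finset.mem_range.1 hi
    exact mul_le_mul (hM i n) (pow_le_pow_right₀ hy1.le (by omega)) (by positivity) (hM0 i)
  have h4 : ‖y‖ ^ P.natDegree = ‖y‖ * ‖y‖ ^ (P.natDegree - 1) := by
    rw [← pow_succ']
    congr 1
    omega
  rw [h4] at h3
  exact le_of_mul_le_mul_right h3 (by positivity)

lemma exists_roots {m : ℕ} (f : Polynomial ℂ) (hf : f.Monic) (hm : f.natDegree = m) :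
    ∃ ρ : Fin m → ℂ, f = ∏ l, (Polynomial.X - Polynomial.C (ρ l)) := by
  have hs := IsAlgClosed.splits f
  have h1 := hs.eq_prod_roots_of_monic hf
  have h2 : f.roots.toList.length = m := by
    rw [Multiset.length_toList, ← hm]
    exact (hs.natDegree_eq_card_roots).symm
  refine ⟨fun l => f.roots.toList.get (Fin.cast h2.symm l), ?_⟩
  conv_lhs => rw [h1]
  have h3 : f.roots = (f.roots.toList : Multiset ℂ) := (Multiset.coe_toList _).symm
  have h4 : (Multiset.map (fun a => Polynomial.X - Polynomial.C a) f.roots).prod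
      = (f.roots.toList.map (fun a => Polynomial.X - Polynomial.C a)).prod := by
    conv_lhs => rw [h3]
    rw [Multiset.map_coe, Multiset.prod_coe]
  rw [h4]
  subst h2
  simp only [Fin.cast_eq_self]
  rw [← List.prod_ofFn]
  congr 1
  apply List.ext_getElem
  · simp
  · intro i h5 h6
    simp

/-- **Approximation of the roots.** -/
theorem approxE (θ : σ → ℝ) {q : ℕ → ℕ} (hq : ∀ n, n + 2 ≤ q n)
    (p : Polynomial (MvPolynomial (Option σ) QB)) (hp0 : p.map constantCoeff ≠ 0)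
    (hsep : ∀ η : QB, (p.map constantCoeff).eval η = 0 →
      (p.map constantCoeff).derivative.eval η ≠ 0)
    (Y : ℕ → ℂ) (M : ℝ) (hYb : ∀ᶠ n in (UU : Filter ℕ), ‖Y n‖ ≤ M)
    (hroot : ∀ᶠ n in (UU : Filter ℕ), (p.map (evr phi (vv (q n) (frs θ (q n))))).eval (Y n) = 0)
    (R : ℕ) :
    ∃ (E : MvPolynomial (Option σ) QB) (C : ℝ), 0 ≤ C ∧ ∀ᶠ n in (UU : Filter ℕ),
      ‖Y n - evr phi (vv (q n) (frs θ (q n))) E‖ ≤ C * (1 / q n) ^ (R + 1) := by
  obtain ⟨hδ, hδ0, hv⟩ := vv_seq θ hq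
  obtain ⟨η, hη⟩ := exists_limc Y M hYb
  have hsum : ∀ (n : ℕ) (x : ℂ), (p.map (evr phi (vv (q n) (frs θ (q n))))).eval x
      = ∑ i ∈ Finset.range (p.natDegree + 1), evr phi (vv (q n) (frs θ (q n))) (p.coeff i) * x ^ i := by
    intro n x
    rw [Polynomial.eval_map, Polynomial.eval₂_eq_sum_range]
  have hlim := evr_lim phi (fun n => vv (q n) (frs θ (q n))) (fun n => 1 / (q n : ℝ)) hδ hδ0 hv
  have h1 : Tendsto (fun n => (p.map (evr phi (vv (q n) (frs θ (q n))))).eval (Y n)) (UU : Filter ℕ)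
      (𝓝 (∑ i ∈ Finset.range (p.natDegree + 1), phi (constantCoeff (p.coeff i)) * η ^ i)) := by
    simp only [hsum]
    exact tendsto_finsetSum _ fun i _ => (hlim _).mul (hη.pow i)
  have h2 : ∑ i ∈ Finset.range (p.natDegree + 1), phi (constantCoeff (p.coeff i)) * η ^ i = 0 := by
    refine tendsto_nhds_unique h1 ?_
    refine tendsto_const_nhds.congr' ?_
    filter_upwards [hroot] with n hn
    exact hn.symm
  have h3 : Polynomial.aeval η (p.map constantCoeff) = 0 := by
    rw [Polynomial.aeval_eq_sum_range' (n := p.natDegree + 1)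
      (Nat.lt_succ_of_le Polynomial.natDegree_map_le), ← h2]
    refine Finset.sum_congr rfl fun i _ => ?_
    rw [Polynomial.coeff_map, Algebra.smul_def]
  have h4 : IsAlgebraic ℚ η := by
    have h5 : IsAlgebraic QB η := ⟨_, hp0, h3⟩
    have h6 : Algebra.IsAlgebraic ℚ QB := algebraicClosure.isAlgebraic ℚ ℂ
    exact h5.restrictScalars ℚ
  set η' : QB := ⟨η, mem_algebraicClosure_iff.2 h4⟩ with hη'
  have h5 : phi η' = η := rfl
  have h6 : (p.map constantCoeff).eval η' = 0 := by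
    apply phi.injective
    rw [map_zero, ← h3, Polynomial.aeval_def, ← h5, Polynomial.eval₂_at_apply]
  obtain ⟨E, C, hC, hE⟩ := branch phi p η' h6 (hsep η' h6)
    (fun n => vv (q n) (frs θ (q n))) (fun n => 1 / (q n : ℝ)) hδ hδ0 hv Y (by rw [h5]; exact hη)
    hroot R
  exact ⟨E, C, hC, hE⟩

/-- **Coefficients of factors are approximable.** -/
theorem factor_app {θ : σ → ℝ} (halg : ∀ s, IsAlgebraic ℚ (θ s)) {q : ℕ → ℕ}
    (hq : ∀ n, n + 2 ≤ q n) (hP : P.Monic)
    (hdeg : ∀ i, (P.coeff i).totalDegree ≤ (P.natDegree - i) * D)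
    (hsep : (pinf P D θ).Separable) {m : ℕ} (f : ℕ → Polynomial ℂ) (hf : ∀ n, (f n).Monic)
    (hm : ∀ n, (f n).natDegree = m) (hdvd : ∀ᶠ n in (UU : Filter ℕ), f n ∣ P.map (evz θ (q n) ℂ))
    {j : ℕ} (hj : j ≤ m) : App θ q ((m - j) * D) (fun n => (f n).coeff j) := by
  have hqn0 : ∀ n, q n ≠ 0 := fun n => by have := hq n; omega
  set θK : σ → QB := fun s => ⟨(θ s : ℂ), mem_algebraicClosure_iff.2 (alg_of_real.2 (halg s))⟩ with hθK
  have hθ : ∀ s, phi (θK s) = (θ s : ℂ) := fun s => rfl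
  choose ρ hρ using fun n => exists_roots (f n) (hf n) (hm n)
  obtain ⟨M, hM⟩ := root_bound (P := P) (D := D) (θ := θ) hq θK hP
  have hcc := ptil_cc hdeg θK
  have hp0 : (ptil P D θK).map constantCoeff ≠ 0 := by
    rw [hcc]
    intro h
    have h1 := pinf_coeff_top (D := D) hP θK
    rw [h, Polynomial.coeff_zero] at h1
    exact zero_ne_one h1
  have hsep' : ∀ η : QB, ((ptil P D θK).map constantCoeff).eval η = 0 →
      ((ptil P D θK).map constantCoeff).derivative.eval η ≠ 0 := by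
    rw [hcc]
    intro η h1 h2
    have h3 : (pinf P D (fun s => (θ s : ℂ))).Separable := by
      have h4 := hsep.map (f := algebraMap ℝ ℂ)
      rw [pinf_map] at h4
      exact h4
    have h4 : (pinf P D θK).map phi = pinf P D (fun s => (θ s : ℂ)) := pinf_map phi θK
    rw [← h4] at h3
    obtain ⟨a, b, hab⟩ := h3
    have h5 := congrArg (Polynomial.eval (phi η)) hab
    rw [Polynomial.eval_add, Polynomial.eval_mul, Polynomial.eval_mul, Polynomial.derivative_map,
      Polynomial.eval_map_apply, Polynomial.eval_map_apply, h1, h2] at h5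
    simp at h5
  set Y : Fin m → ℕ → ℂ := fun l n => ρ n l / (q n : ℂ) ^ D with hY
  have hroot : ∀ l, ∀ᶠ n in (UU : Filter ℕ),
      ((ptil P D θK).map (evr phi (vv (q n) (frs θ (q n))))).eval (Y l n) = 0 := by
    intro l
    filter_upwards [hdvd] with n hn
    have hqc : (q n : ℂ) ≠ 0 := by exact_mod_cast hqn0 n
    have h1 : (P.map (evz θ (q n) ℂ)).eval (ρ n l) = 0 := by
      obtain ⟨g, hg⟩ := hn
      rw [hg, Polynomial.eval_mul]
      have h2 : (f n).eval (ρ n l) = 0 := by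
        rw [hρ n, Polynomial.eval_prod]
        exact Finset.prod_eq_zero (Finset.mem_univ l) (by simp)
      rw [h2, zero_mul]
    rw [← ptil_eval hθ hdeg (hqn0 n) (ρ n l)] at h1
    exact (mul_eq_zero.1 h1).resolve_left (pow_ne_zero _ hqc)
  have hE : ∀ l, ∃ (E : MvPolynomial (Option σ) QB) (C : ℝ), 0 ≤ C ∧ ∀ᶠ n in (UU : Filter ℕ),
      ‖Y l n - evr phi (vv (q n) (frs θ (q n))) E‖ ≤ C * (1 / q n) ^ (m * D + 1) := fun l =>
    approxE θ hq (ptil P D θK) hp0 hsep' (Y l) M (by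
      filter_upwards [hroot l] with n hn
      exact hM n _ hn) (hroot l) (m * D)
  choose E C hC hE using hE
  have hnear : Near θ q (m * D + 1) (fun n => ∏ l, (Polynomial.X - Polynomial.C (Y l n)))
      (∏ l, (Polynomial.X - Polynomial.C (E l))) :=
    Near.prod hq Finset.univ (fun l n => Polynomial.X - Polynomial.C (Y l n))
      (fun l => Polynomial.X - Polynomial.C (E l)) fun l _ => Near.linear (hC l) (hE l)
  obtain ⟨C1, hC1, hn1⟩ := hnear j
  obtain ⟨c, C2, hC2, hc⟩ := expand phi ((∏ l, (Polynomial.X - Polynomial.C (E l))).coeff j)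
    ((m - j) * D)
  refine ⟨c, C1 + C2, ?_⟩
  filter_upwards [hn1] with n hn
  have hq1 : (1 : ℝ) ≤ q n := by
    have := hq n
    exact_mod_cast (by omega : 1 ≤ q n)
  have hq0 : (0 : ℝ) < q n := by linarith
  have hqc : (q n : ℂ) ≠ 0 := by exact_mod_cast hqn0 n
  have h7 := hc (q n) hq1 (frs θ (q n)) (frs_le θ (q n))
  have h8 : ∀ a : Ex (Option σ) ((m - j) * D), ((zval θ (q n) a.1 : ℝ) : ℂ)
      = ((q n : ℝ) : ℂ) ^ (a.1 none) * ∏ s, (frs θ (q n) s : ℂ) ^ (a.1 (some s)) := by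
    intro a
    unfold zval frs
    push_cast
    rfl
  simp only [h8]
  have h10 : (f n).coeff j = ((q n : ℝ) : ℂ) ^ ((m - j) * D)
      * (∏ l, (Polynomial.X - Polynomial.C (Y l n))).coeff j := by
    have h11 : f n = ∏ l, (Polynomial.X - Polynomial.C ((q n : ℂ) ^ D * Y l n)) := by
      conv_lhs => rw [hρ n]
      refine Finset.prod_congr rfl fun l _ => ?_
      congr 2
      rw [hY]
      simp only []
      field_simp
    rw [h11, coeff_scale (fun l => Y l n) (pow_ne_zero D hqc) hj, ← pow_mul, mul_comm D]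
    push_cast
    rfl
  rw [h10]
  set A := (∏ l, (Polynomial.X - Polynomial.C (Y l n))).coeff j
  set A' := evr phi (vv (q n) (frs θ (q n))) ((∏ l, (Polynomial.X - Polynomial.C (E l))).coeff j)
  set SS' := ∑ a : Ex (Option σ) ((m - j) * D), phi (c a) *
        (((q n : ℝ) : ℂ) ^ (a.1 none) * ∏ s, (frs θ (q n) s : ℂ) ^ (a.1 (some s)))
  have h9 : ((q n : ℝ) : ℂ) ^ ((m - j) * D) * A - SS'
      = ((q n : ℝ) : ℂ) ^ ((m - j) * D) * (A - A')
        + (((q n : ℝ) : ℂ) ^ ((m - j) * D) * A' - SS') := by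
    ring
  rw [h9]
  refine (norm_add_le _ _).trans ?_
  rw [add_div]
  refine add_le_add ?_ h7
  rw [norm_mul, norm_pow, Complex.norm_real, Real.norm_of_nonneg hq0.le]
  have h12 : (q n : ℝ) ^ ((m - j) * D) ≤ (q n : ℝ) ^ (m * D) :=
    pow_le_pow_right₀ hq1 (Nat.mul_le_mul_right _ (Nat.sub_le _ _))
  calc (q n : ℝ) ^ ((m - j) * D) * ‖A - A'‖
      ≤ (q n : ℝ) ^ (m * D) * (C1 * (1 / q n) ^ (m * D + 1)) :=
        mul_le_mul h12 hn (norm_nonneg _) (by positivity)
    _ = C1 / q n := by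
        rw [pow_succ, one_div, inv_pow]
        field_simp

end

end Pool.Agent.Q4.Cov
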