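import Mathlib
import Pool.Agent.Q4.Cov.Factor

set_option autoImplicit false
set_option linter.unusedSectionVars false

/-!
# Factorisations over number fields at truncated products
-/

namespace Pool.Agent.Q4.Cov

open Filter Topology Pool.Agent.TH932.Abs Pool.Agent.TH932.Germs Pool.Agent.TH932.Chi
open Pool.Agent.TH796.AL Pool.Agent.Q4.Blk Pool.Agent.Q4.Gcd Module

section
variable {σ : Type} [Fintype σ] [DecidableEq σ]

open MvPolynomial

/-- evaluation of polynomials over a ring -/
noncomputable def evK (θ : σ → ℝ) (q : ℕ) (K : Type*) [CommRing K] :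
    MvPolynomial (Option σ) K →+* K :=
  eval (fun i => ((pt θ q i : ℤ) : K))

lemma evK_map (θ : σ → ℝ) (q : ℕ) (K : Type*) [CommRing K] (F : MvPolynomial (Option σ) ℤ) :
    evK θ q K (map (Int.castRingHom K) F) = evz θ q K F := by
  have h1 := eval₂_comp_left (Int.castRingHom K) (RingHom.id ℤ) (pt θ q) F
  rw [eval₂_id, RingHom.comp_id] at h1
  unfold evK evz
  rw [eval_map, RingHom.comp_apply]
  exact h1.symm

/-- vanishing over a number field -/
theorem vanishK (S : Finset ℕ) (hS : ∀ p ∈ S, p.Prime) (θ : σ → ℝ)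
    (halg : ∀ s, IsAlgebraic ℚ (θ s))
    (hind : LinearIndependent ℚ (fun o : Option σ => (o.elim 1 (fun s => θ s) : ℝ)))
    (q : ℕ → ℕ) (hq : ∀ n, n + 2 ≤ q n) (hqS : ∀ n, (q n).primeFactors ⊆ S)
    (K : Type*) [Field K] [NumberField K] (R : MvPolynomial (Option σ) K)
    (hz : ∀ᶠ n in (UU : Filter ℕ), evK θ (q n) K R = 0) : R = 0 := by
  classical
  set b := Module.finBasis ℚ K with hb
  have key : ∀ i, (∑ α ∈ R.support, monomial α (b.repr (R.coeff α) i) :
      MvPolynomial (Option σ) ℚ) = 0 := by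
    intro i
    apply vanish S hS θ halg hind q hq hqS
    filter_upwards [hz] with n hn
    rw [map_sum]
    have h1 : ∑ α ∈ R.support, aeval (fun i => (pt θ (q n) i : ℚ)) (monomial α (b.repr (R.coeff α) i))
        = b.coord i (evK θ (q n) K R) := by
      unfold evK
      rw [eval_eq', map_sum]
      refine Finset.sum_congr rfl fun α _ => ?_
      rw [aeval_monomial, Finsupp.prod_fintype _ _ (by simp)]
      have h2 : (∏ j, ((pt θ (q n) j : ℤ) : K) ^ α j)
          = algebraMap ℚ K (∏ j, ((pt θ (q n) j : ℤ) : ℚ) ^ α j) := by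
        rw [map_prod]
        refine Finset.prod_congr rfl fun j _ => ?_
        rw [map_pow, map_intCast]
      have h3 : R.coeff α * algebraMap ℚ K (∏ j, ((pt θ (q n) j : ℤ) : ℚ) ^ α j)
          = (∏ j, ((pt θ (q n) j : ℤ) : ℚ) ^ α j) • R.coeff α := by
        rw [Algebra.smul_def, mul_comm]
      rw [h2, h3, map_smul, smul_eq_mul, mul_comm, Basis.coord_apply]
      rfl
    rw [h1, hn, map_zero]
  ext α
  rw [coeff_zero]
  by_contra hα
  apply hα
  apply b.ext_elem
  intro i
  have h1 := congrArg (coeff α) (key i)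
  rw [coeff_sum, Finset.sum_eq_single α] at h1
  · rw [coeff_monomial, if_pos rfl, coeff_zero] at h1
    rw [h1, map_zero]
    rfl
  · intro β _ hβ
    rw [coeff_monomial, if_neg hβ]
  · intro h
    exact absurd (mem_support_iff.2 hα) h

variable {θ : σ → ℝ} {q : ℕ → ℕ} {D : ℕ}

/-- **Integral elements which are approximable at all places.** -/
theorem trace_app (S : Finset ℕ) (hS : ∀ p ∈ S, p.Prime)
    (halg : ∀ s, IsAlgebraic ℚ (θ s))
    (hind : LinearIndependent ℚ (fun o : Option σ => (o.elim 1 (fun s => θ s) : ℝ)))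
    (hq : ∀ n, n + 2 ≤ q n) (hqS : ∀ n, (q n).primeFactors ⊆ S)
    {K : Type*} [Field K] [NumberField K] (c : ℕ → K)
    (hint : ∀ᶠ n in (UU : Filter ℕ), IsIntegral ℤ (c n))
    (happ : ∀ τ : K →ₐ[ℚ] ℂ, App θ q D (fun n => τ (c n))) :
    ∃ G : MvPolynomial (Option σ) K, ∀ᶠ n in (UU : Filter ℕ), c n = evK θ (q n) K G := by
  classical
  set b := NumberField.integralBasis K with hb
  have hbint : ∀ i, IsIntegral ℤ (b i) := by
    intro i
    rw [hb, NumberField.integralBasis_apply]
    exact NumberField.RingOfIntegers.isIntegral_coe _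
  have hz : ∀ i, ∀ᶠ n in (UU : Filter ℕ),
      (((Algebra.trace ℚ K (c n * b i)).num : ℤ) : ℚ) = Algebra.trace ℚ K (c n * b i) := by
    intro i
    filter_upwards [hint] with n hn
    have h1 : IsIntegral ℤ (Algebra.trace ℚ K (c n * b i)) := Algebra.isIntegral_trace (hn.mul (hbint i))
    obtain ⟨y, hy⟩ := IsIntegrallyClosed.isIntegral_iff.1 h1
    rw [← hy]
    simp
  have hG : ∀ i, ∃ G : MvPolynomial (Option σ) ℚ, ∀ᶠ n in (UU : Filter ℕ),
      (((Algebra.trace ℚ K (c n * b i)).num : ℤ) : ℚ) = aeval (fun i => (pt θ (q n) i : ℚ)) G := by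
    intro i
    apply App.int (D := D) S hS halg hind hq hqS
    have halg' : ∀ τ : K →ₐ[ℚ] ℂ, τ (b i) ∈ algebraicClosure ℚ ℂ := fun τ =>
      mem_algebraicClosure_iff.2 ((Algebra.IsAlgebraic.isAlgebraic (b i)).algHom τ)
    refine (App.sum (θ := θ) (q := q) (D := D) Finset.univ
      (fun τ n => phi (⟨τ (b i), halg' τ⟩ : QB) * τ (c n))
      (fun τ _ => (happ τ).mul _)).congr ?_
    filter_upwards [hz i] with n hn
    have h1 := trace_eq_sum_embeddings (K := ℚ) (L := K) ℂ (x := c n * b i)
    have h2 : (((Algebra.trace ℚ K (c n * b i)).num : ℤ) : ℂ)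
        = algebraMap ℚ ℂ (Algebra.trace ℚ K (c n * b i)) := by
      conv_rhs => rw [← hn]
      rw [map_intCast]
    rw [h2, h1]
    refine Finset.sum_congr rfl fun τ _ => ?_
    rw [map_mul, mul_comm]
    rfl
  choose G hG using hG
  refine ⟨∑ i, C (b.traceDual i) * map (algebraMap ℚ K) (G i), ?_⟩
  have hall : ∀ᶠ n in (UU : Filter ℕ), ∀ i,
      Algebra.trace ℚ K (c n * b i) = aeval (fun i => (pt θ (q n) i : ℚ)) (G i) := by
    rw [Filter.eventually_all]
    intro i
    filter_upwards [hG i, hz i] with n h1 h2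
    rw [← h2, h1]
  filter_upwards [hall] with n hn
  have h1 := b.traceDual.sum_repr (c n)
  conv_lhs => rw [← h1]
  rw [map_sum]
  refine Finset.sum_congr rfl fun i _ => ?_
  rw [Basis.traceDual_repr_apply, Algebra.traceForm_apply, hn i, map_mul, Algebra.smul_def, mul_comm]
  unfold evK
  rw [eval_C, eval_map]
  congr 1
  rw [aeval_def]
  have h2 := eval₂_comp_left (algebraMap ℚ K) (algebraMap ℚ ℚ) (fun i => (pt θ (q n) i : ℚ)) (G i)
  rw [h2]
  congr 1
  funext i
  simp

variable {P : Polynomial (MvPolynomial (Option σ) ℤ)}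

/-- **Factors over number fields.** -/
theorem factor_seq (S : Finset ℕ) (hS : ∀ p ∈ S, p.Prime)
    (halg : ∀ s, IsAlgebraic ℚ (θ s))
    (hind : LinearIndependent ℚ (fun o : Option σ => (o.elim 1 (fun s => θ s) : ℝ)))
    (hq : ∀ n, n + 2 ≤ q n) (hqS : ∀ n, (q n).primeFactors ⊆ S) (hP : P.Monic)
    (hdeg : ∀ i, (P.coeff i).totalDegree ≤ (P.natDegree - i) * D)
    (hsep : (pinf P D θ).Separable) (K : Type*) [Field K] [NumberField K] {m : ℕ}
    (A : ℕ → Polynomial K) (hA : ∀ n, (A n).Monic) (hm : ∀ n, (A n).natDegree = m)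
    (hdvd : ∀ᶠ n in (UU : Filter ℕ), A n ∣ P.map (evz θ (q n) K)) :
    ∃ B : Polynomial (MvPolynomial (Option σ) K), B.Monic ∧ B.natDegree = m ∧
      B ∣ P.map (map (Int.castRingHom K)) ∧
      ∀ᶠ n in (UU : Filter ℕ), A n = B.map (evK θ (q n) K) := by
  classical
  have hint : ∀ᶠ n in (UU : Filter ℕ), ∀ j, IsIntegral ℤ ((A n).coeff j) := by
    filter_upwards [hdvd] with n hn j
    have h1 : P.map (evz θ (q n) K) = (P.map (eval (pt θ (q n)))).map (algebraMap ℤ K) := by
      rw [Polynomial.map_map]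
      rfl
    rw [h1] at hn
    have h2 := integralClosure.mem_lifts_of_monic_of_dvd_map K (hP.map (eval (pt θ (q n)))) (hA n) hn
    rw [Polynomial.lifts_iff_coeff_lifts] at h2
    obtain ⟨y, hy⟩ := h2 j
    rw [← hy]
    exact y.2
  have hG : ∀ j : Fin m, ∃ G : MvPolynomial (Option σ) K, ∀ᶠ n in (UU : Filter ℕ),
      (A n).coeff j = evK θ (q n) K G := by
    intro j
    apply trace_app (D := (m - j) * D) S hS halg hind hq hqS
    · filter_upwards [hint] with n hn
      exact hn j
    · intro τ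
      have h1 := factor_app (P := P) (D := D) halg hq hP hdeg hsep (m := m)
        (fun n => (A n).map (τ : K →+* ℂ)) (fun n => (hA n).map _)
        (fun n => by rw [(hA n).natDegree_map, hm n]) (by
          filter_upwards [hdvd] with n hn
          have h2 := Polynomial.map_dvd (τ : K →+* ℂ) hn
          rw [Polynomial.map_map] at h2
          have h3 : (τ : K →+* ℂ).comp (evz θ (q n) K) = evz θ (q n) ℂ := by
            ext x <;> simp [evz]
          rwa [h3] at h2) (j := j) j.2.le
      refine h1.congr (Eventually.of_forall fun n => ?_)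
      rw [Polynomial.coeff_map]
      rfl
  choose G hG using hG
  set B : Polynomial (MvPolynomial (Option σ) K) :=
    Polynomial.X ^ m + ∑ j : Fin m, Polynomial.C (G j) * Polynomial.X ^ (j : ℕ) with hB
  have hBdeg : (∑ j : Fin m, Polynomial.C (G j) * Polynomial.X ^ (j : ℕ)).degree < (m : WithBot ℕ) :=
    Polynomial.degree_sum_fin_lt G
  have hBm : B.Monic := Polynomial.monic_X_pow_add hBdeg
  have hBn : B.natDegree = m := by
    rw [hB]
    apply Polynomial.natDegree_eq_of_degree_eq_some
    rw [Polynomial.degree_add_eq_left_of_degree_lt, Polynomial.degree_X_pow]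
    rw [Polynomial.degree_X_pow]
    exact hBdeg
  have hBA : ∀ᶠ n in (UU : Filter ℕ), A n = B.map (evK θ (q n) K) := by
    have hall : ∀ᶠ n in (UU : Filter ℕ), ∀ j : Fin m, (A n).coeff j = evK θ (q n) K (G j) := by
      rw [Filter.eventually_all]
      exact hG
    filter_upwards [hall] with n hn
    have h1 := (hA n).as_sum
    rw [hm n, Finset.sum_range] at h1
    rw [h1, hB, Polynomial.map_add, Polynomial.map_pow, Polynomial.map_X, Polynomial.map_sum]
    congr 1
    refine Finset.sum_congr rfl fun j _ => ?_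
    rw [Polynomial.map_mul, Polynomial.map_pow, Polynomial.map_X, Polynomial.map_C, hn j]
  refine ⟨B, hBm, hBn, ?_, hBA⟩
  rw [← Polynomial.modByMonic_eq_zero_iff_dvd hBm]
  ext1 j
  rw [Polynomial.coeff_zero]
  apply vanishK S hS θ halg hind q hq hqS K
  filter_upwards [hBA, hdvd] with n h1 h2
  rw [← Polynomial.coeff_map, Polynomial.map_modByMonic _ hBm, ← h1, Polynomial.map_map]
  have h3 : (evK θ (q n) K).comp (map (Int.castRingHom K)) = evz θ (q n) K := by
    ext x
    · simp
    · simp [evK, evz]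
  rw [h3, (Polynomial.modByMonic_eq_zero_iff_dvd (hA n)).2 h2, Polynomial.coeff_zero]

end

end Pool.Agent.Q4.Cov
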