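import Mathlib
import Pool.Agent.Q4.Cov.Trace

set_option autoImplicit false
set_option linter.unusedSectionVars false

/-!
# Factors over number fields of bounded discriminant
-/

namespace Pool.Agent.Q4.Cov

open Filter Topology Pool.Agent.TH932.Abs Pool.Agent.TH932.Germs Pool.Agent.TH932.Chi
open Pool.Agent.TH796.AL Pool.Agent.Q4.Blk Pool.Agent.Q4.Gcd Module

section
variable {σ : Type} [Fintype σ] [DecidableEq σ]

open MvPolynomial

lemma evK_mapK {θ : σ → ℝ} {q : ℕ} {K L : Type*} [CommRing K] [CommRing L] (f : K →+* L) :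
    (evK θ q L).comp (map f) = f.comp (evK θ q K) := by
  ext x
  · simp [evK]
  · simp [evK]

lemma evz_mapK {θ : σ → ℝ} {q : ℕ} {K L : Type*} [CommRing K] [CommRing L] (f : K →+* L) :
    f.comp (evz θ q K) = evz θ q L := by
  ext x <;> simp [evz]

/-- fields with bounded discriminant -/
lemma exists_field (Bd : ℕ) (K : ℕ → Type) (iF : ∀ n, Field (K n)) (iN : ∀ n, NumberField (K n))
    (hd : ∀ n, |NumberField.discr (K n)| ≤ Bd) :
    ∃ (F : IntermediateField ℚ ℂ) (_ : NumberField F), ∀ᶠ n in (UU : Filter ℕ), Nonempty (K n ≃+* F) := by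
  have hfin := NumberField.finite_of_discr_bdd ℂ Bd
  have τ : ∀ n, K n →ₐ[ℚ] ℂ := fun n => IsAlgClosed.lift
  have hall : ∀ᶠ n in (UU : Filter ℕ), ∃ F ∈ {K : { F : IntermediateField ℚ ℂ // FiniteDimensional ℚ F } |
      haveI :  NumberField K := @NumberField.mk _ _ inferInstance K.prop
      |NumberField.discr K| ≤ Bd}, Nonempty (K n ≃+* (F : IntermediateField ℚ ℂ)) := by
    refine Eventually.of_forall fun n => ?_
    have e : K n ≃ₐ[ℚ] (τ n).fieldRange := AlgEquiv.ofInjective (τ n) (τ n).injective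
    have hfd : FiniteDimensional ℚ (τ n).fieldRange := e.toLinearEquiv.finiteDimensional
    refine ⟨⟨(τ n).fieldRange, hfd⟩, ?_, ⟨e.toRingEquiv⟩⟩
    have : NumberField (τ n).fieldRange := @NumberField.mk _ _ inferInstance hfd
    have h1 := NumberField.discr_eq_discr_of_ringEquiv (K n) e.toRingEquiv
    have h2 := hd n
    rw [h1] at h2
    exact h2
  rw [Ultrafilter.eventually_exists_mem_iff hfin] at hall
  obtain ⟨F, _, hF⟩ := hall
  exact ⟨F.1, @NumberField.mk _ _ inferInstance F.2, hF⟩

/-- **Factors are specialisations.** -/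
theorem factors_lift (S : Finset ℕ) (hS : ∀ p ∈ S, p.Prime) (θ : σ → ℝ)
    (halg : ∀ s, IsAlgebraic ℚ (θ s))
    (hind : LinearIndependent ℚ (fun o : Option σ => (o.elim 1 (fun s => θ s) : ℝ)))
    (P : Polynomial (MvPolynomial (Option σ) ℤ)) (D : ℕ) (hP : P.Monic)
    (hdeg : ∀ i, (P.coeff i).totalDegree ≤ (P.natDegree - i) * D)
    (hsep : (pinf P D θ).Separable) (Bd : ℕ) :
    ∃ q₀ : ℕ, ∀ q ≥ q₀, q.primeFactors ⊆ S → ∀ (K : Type) [Field K] [NumberField K],
      |NumberField.discr K| ≤ Bd → ∀ g : Polynomial K, g.Monic → g ∣ P.map (evz θ q K) →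
      ∃ G : Polynomial (MvPolynomial (Option σ) K), G.Monic ∧
        G ∣ P.map (map (Int.castRingHom K)) ∧ G.map (evK θ q K) = g := by
  classical
  by_contra hcon
  push Not at hcon
  choose q hq hqS K iF iN hd g hg hgdvd hgno using fun n : ℕ => hcon (n + 2)
  have hq' : ∀ n, n + 2 ≤ q n := hq
  obtain ⟨F, hNF, hF⟩ := exists_field Bd K iF iN hd
  -- the degree
  have hmall : ∀ᶠ n in (UU : Filter ℕ), ∃ m ∈ (Finset.range (P.natDegree + 1) : Set ℕ),
      (g n).natDegree = m := by
    refine Eventually.of_forall fun n => ⟨(g n).natDegree, ?_, rfl⟩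
    have h1 : (P.map (evz θ (q n) (K n))) ≠ 0 := (hP.map _).ne_zero
    have h2 := Polynomial.natDegree_le_of_dvd (hgdvd n) h1
    rw [hP.natDegree_map] at h2
    exact Finset.mem_coe.2 (Finset.mem_range.2 (Nat.lt_succ_of_le h2))
  rw [Ultrafilter.eventually_exists_mem_iff (Finset.finite_toSet _)] at hmall
  obtain ⟨m, _, hm⟩ := hmall
  set A : ℕ → Polynomial F := fun n =>
    if h : Nonempty (K n ≃+* F) ∧ (g n).natDegree = m then
      (g n).map (h.1.some : K n →+* F) else Polynomial.X ^ m with hA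
  have hAm : ∀ n, (A n).Monic := by
    intro n
    rw [hA]
    simp only []
    split_ifs with h
    · exact (hg n).map _
    · exact Polynomial.monic_X_pow m
  have hAd : ∀ n, (A n).natDegree = m := by
    intro n
    rw [hA]
    simp only []
    split_ifs with h
    · rw [(hg n).natDegree_map, h.2]
    · exact Polynomial.natDegree_X_pow m
  have hAdvd : ∀ᶠ n in (UU : Filter ℕ), A n ∣ P.map (evz θ (q n) F) := by
    filter_upwards [hF, hm] with n h1 h2
    have h3 : A n = (g n).map (h1.some : K n →+* F) := by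
      rw [hA]
      simp only []
      rw [dif_pos ⟨h1, h2⟩]
    rw [h3]
    have h4 := Polynomial.map_dvd (h1.some : K n →+* F) (hgdvd n)
    rw [Polynomial.map_map, evz_mapK] at h4
    exact h4
  obtain ⟨B, hBm, _, hBdvd, hBA⟩ := factor_seq (P := P) (D := D) S hS halg hind hq' hqS hP hdeg hsep
    F A hAm hAd hAdvd
  obtain ⟨n, h1, h2, h5⟩ := (hF.and (hm.and hBA)).exists
  have h3 : A n = (g n).map (h1.some : K n →+* F) := by
    rw [hA]
    simp only []
    rw [dif_pos ⟨h1, h2⟩]
  set e : K n ≃+* F := h1.some with he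
  have hcomp : ((e.symm : F ≃+* K n) : F →+* K n).comp (e : K n →+* F) = RingHom.id (K n) := by
    ext x
    simp
  refine hgno n (B.map (map ((e.symm : F ≃+* K n) : F →+* K n))) (hBm.map _) ?_ ?_
  · have h4 := Polynomial.map_dvd (map ((e.symm : F ≃+* K n) : F →+* K n)) hBdvd
    rw [Polynomial.map_map] at h4
    have h6 : (MvPolynomial.map ((e.symm : F ≃+* K n) : F →+* K n) :
        MvPolynomial (Option σ) F →+* MvPolynomial (Option σ) (K n)).comp
        (MvPolynomial.map (Int.castRingHom F))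
        = (MvPolynomial.map (Int.castRingHom (K n)) :
          MvPolynomial (Option σ) ℤ →+* MvPolynomial (Option σ) (K n)) := by
      ext x <;> simp
    rw [h6] at h4
    exact h4
  · rw [Polynomial.map_map, evK_mapK, ← Polynomial.map_map, ← h5, h3, Polynomial.map_map, hcomp,
      Polynomial.map_id]

end

end Pool.Agent.Q4.Cov
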