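import Mathlib
import Pool.Agent.Q4.Cov.Factor

set_option autoImplicit false
set_option linter.unusedSectionVars false

/-!
# Rational approximations with denominators composed of given primes
-/

namespace Pool.Agent.Q4.Cov

open Filter Topology Pool.Agent.TH932.Abs Pool.Agent.TH932.Germs Pool.Agent.TH932.Chi
open Pool.Agent.TH796.AL Pool.Agent.Q4.Blk Pool.Agent.Q4.Gcd Module

section
variable {σ : Type} [Fintype σ] [DecidableEq σ]

/-- the germ of a sequence of units of polynomial size -/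
lemma unit_seq (S : Finset ℕ) (hS : ∀ p ∈ S, p.Prime) (q : ℕ → ℕ) (hq : ∀ n, n + 2 ≤ q n)
    (hL : Tendsto (fun n => Real.log (q n)) atTop atTop) (c : ℕ → ℕ) (hc0 : ∀ n, c n ≠ 0)
    (hcS : ∀ n, (c n).primeFactors ⊆ S) (K : ℕ) (hcK : ∀ n, c n ≤ q n ^ K) :
    ∃ (h : Fin S.card → ℝ) (κ : KK (fun n => Real.log (q n)) hL), κ ≠ 0 ∧
      gm (fun n => (c n : ℚ)) = (κ : GG) * ch (bas S hS) hL h := by
  have e' : ∀ n, c n = ∏ i, (bas S hS).P i ^ ((c n).factorization ((bas S hS).P i)) := fun n =>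
    eq_prod hS (hc0 n) (hcS n)
  obtain ⟨h, κ', hκ', hu2, -⟩ := unit_germ (B := bas S hS) hL
    (fun n i => (c n).factorization ((bas S hS).P i)) K (Eventually.of_forall fun n => by
      rw [← log_prod_bas hS, ← e']
      have h1 : (0 : ℝ) < c n := by exact_mod_cast Nat.pos_of_ne_zero (hc0 n)
      have h2 : (c n : ℝ) ≤ (q n : ℝ) ^ K := by exact_mod_cast hcK n
      have h3 := Real.log_le_log h1 h2
      rw [Real.log_pow] at h3
      exact h3)
  refine ⟨h, κ', hκ', ?_⟩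
  rw [← hu2]
  congr 1
  funext n
  rw [← e']

/-- **The engine** with denominators. -/
theorem engine2 (S : Finset ℕ) (hS : ∀ p ∈ S, p.Prime) (θ : σ → ℝ)
    (halg : ∀ s, IsAlgebraic ℚ (θ s))
    (hind : LinearIndependent ℚ (fun o : Option σ => (o.elim 1 (fun s => θ s) : ℝ)))
    (q : ℕ → ℕ) (hq : ∀ n, n + 2 ≤ q n) (hqS : ∀ n, (q n).primeFactors ⊆ S) (D : ℕ)
    (cc : ℕ → ℕ) (hc0 : ∀ n, cc n ≠ 0) (hcS : ∀ n, (cc n).primeFactors ⊆ S) (K R : ℕ)
    (hcK : ∀ n, cc n ≤ q n ^ K) (y : ℕ → ℤ)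
    (c : Ex (Option σ) D → ℝ) (hc : ∀ a, IsAlgebraic ℚ (c a)) (C δ : ℝ) (hδ : 0 < δ)
    (happ : ∀ᶠ n in (UU : Filter ℕ), |(y n : ℝ) - (cc n / (q n : ℝ) ^ R) * ∑ a, c a * zval θ (q n) a.1|
      ≤ C * (q n : ℝ) ^ (-δ)) :
    ∃ γ : Ex (Option σ) D → ℚ, ∀ᶠ n in (UU : Filter ℕ), (y n : ℚ)
      = (cc n / (q n : ℚ) ^ R) * ∑ a, γ a * ∏ i, (pt θ (q n) i : ℚ) ^ (a.1 i) := by
  classical
  have hL := tendsto_logq hq
  have hq0 : ∀ n, q n ≠ 0 := fun n => by have := hq n; omega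
  -- the family
  set F : IntermediateField ℚ ℝ := IntermediateField.adjoin ℚ (Set.range θ ∪ Set.range c) with hF
  have hfin : FiniteDimensional ℚ F := by
    have : Finite ↑(Set.range θ ∪ Set.range c) := by
      have h1 : (Set.range θ ∪ Set.range c).Finite := (Set.finite_range _).union (Set.finite_range _)
      exact h1
    apply IntermediateField.finiteDimensional_adjoin
    rintro _ (⟨l, rfl⟩ | ⟨l, rfl⟩)
    · exact (halg l).isIntegral
    · exact (hc l).isIntegral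
  have hθF : ∀ l, θ l ∈ F := fun l => IntermediateField.subset_adjoin ℚ _ (Or.inl ⟨l, rfl⟩)
  have hcF : ∀ l, c l ∈ F := fun l => IntermediateField.subset_adjoin ℚ _ (Or.inr ⟨l, rfl⟩)
  obtain ⟨g0, κ, hκ, hu, hlim⟩ := unit_germ (B := bas S hS) hL
    (fun n i => (q n).factorization ((bas S hS).P i)) 1 (Eventually.of_forall fun n => by
      rw [← log_prod_bas hS, ← eq_prod hS (hq0 n) (hqS n), one_mul])
  have hu' : gm (fun n => (q n : ℚ)) = (κ : GG) * ch (bas S hS) hL g0 := by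
    rw [← hu]
    congr 1
    funext n
    rw [← eq_prod hS (hq0 n) (hqS n)]
  have hLpos : ∀ n, 0 < Real.log (q n) := fun n => by
    apply Real.log_pos
    have := hq n
    have h2 : 2 ≤ q n := by omega
    exact_mod_cast h2
  have hlam : -lv (bas S hS) none g0 = 1 := by
    have h4 := lim_log hS _ g0 hlim
    have h5 : Tendsto (fun n => Real.log ((∏ i, (bas S hS).P i ^ ((q n).factorization ((bas S hS).P i)) : ℕ) : ℝ)
        / Real.log (q n)) (UU : Filter ℕ) (𝓝 1) := by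
      refine tendsto_const_nhds.congr fun n => ?_
      have h6 : ∏ i, (bas S hS).P i ^ ((q n).factorization ((bas S hS).P i)) = q n :=
        (eq_prod hS (hq0 n) (hqS n)).symm
      rw [h6]
      exact (div_self (hLpos n).ne').symm
    exact tendsto_nhds_unique h4 h5
  have hg1 : lv (bas S hS) none g0 ≠ 0 := by
    intro h
    rw [h] at hlam
    norm_num at hlam
  obtain ⟨h, κ', hκ', hc'⟩ := unit_seq S hS q hq hL cc hc0 hcS K hcK
  set yy : σ → GG := fun s => gm (fun n => (⌊θ s * q n⌋ : ℚ) / q n) with hyy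
  have H : Fam (bas S hS) (fun n => Real.log (q n)) F (fun s => (⟨θ s, hθF s⟩ : F)) (fun _ => g0) yy := by
    have hq' : ∀ s, _ := fun s => quot (B := bas S hS) hL g0 κ hκ q hq0 hu' (θ s)
    refine ⟨fun v s => (hq' s).1 v, fun s => (hq' s).2.1, fun s => (hq' s).2.2, fun s => ?_,
      fun s => ?_⟩
    · rw [hlam]; norm_num
    · have h1 := hind.comp
        (Option.map (fun t : {t : σ // lv (bas S hS) none g0 = lv (bas S hS) none g0} => t.1))
        (Option.map_injective Subtype.val_injective)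
      convert h1 using 1
      funext o
      cases o <;> rfl
  have hX : ∀ a, Xh hL κ g0 yy (bas S hS) a = gm (fun n => ∏ i, (pt θ (q n) i : ℚ) ^ (a i)) :=
    Xh_gm hL θ q hq0 κ g0 hu'
  have hZ : ∀ a, Zh hL κ g0 (fun s => (⟨θ s, hθF s⟩ : F)) yy (bas S hS) a
      = gr (fun n => zval θ (q n) a) :=
    Zh_gr hL (fun s => (⟨θ s, hθF s⟩ : F)) q hq0 κ g0 hu'
  -- the twist
  have hκR : κ' * (κ ^ R)⁻¹ ≠ 0 := mul_ne_zero hκ' (inv_ne_zero (pow_ne_zero _ hκ))
  have hT : gm (fun n => (cc n : ℚ) / (q n : ℚ) ^ R)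
      = ((κ' * (κ ^ R)⁻¹ : KK (fun n => Real.log (q n)) hL) : GG)
        * ch (bas S hS) hL (h - (R : ℝ) • g0) := by
    have h1 : gm (fun n => (cc n : ℚ) / (q n : ℚ) ^ R) * gm (fun n => (q n : ℚ)) ^ R
        = gm (fun n => (cc n : ℚ)) := by
      rw [gm_pow, gm_mul]
      congr 1
      funext n
      have : (q n : ℚ) ≠ 0 := by exact_mod_cast hq0 n
      field_simp
    have h2 : gm (fun n => (q n : ℚ)) ≠ 0 := by
      rw [gm_ne_zero]
      exact Eventually.of_forall fun n => by exact_mod_cast hq0 n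
    apply mul_right_cancel₀ (pow_ne_zero R h2)
    rw [h1, hc', hu', mul_pow, ← ch_nsmul]
    have h3 : ch (bas S hS) hL (h - (R : ℝ) • g0) * ch (bas S hS) hL ((R : ℝ) • g0)
        = ch (bas S hS) hL h := by
      rw [← ch_add]
      congr 1
      abel
    have h4 : (κ : GG) ^ R ≠ 0 := pow_ne_zero _ fun h0 => hκ (Subtype.ext h0)
    have h5 : ((κ' * (κ ^ R)⁻¹ : KK (fun n => Real.log (q n)) hL) : GG)
        = (κ' : GG) * ((κ : GG) ^ R)⁻¹ := by
      push_cast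
      rfl
    rw [h5, ← h3]
    field_simp
  obtain ⟨γ, hγ⟩ := form_germ hL H hg1 hκ D (h - (R : ℝ) • g0) (κ' * (κ ^ R)⁻¹) hκR
    (gm (fun n => (y n : ℚ)))
    (fun v => int_germ hL v y) (Sint_int hL y) (fun a => ⟨c a, hcF a⟩) δ hδ (by
      rw [← hT, rho_gm, rho_gm]
      simp only [hZ, cst_eq, gr_mul]
      rw [gr_sum', gr_sub, mem_SR]
      intro η hη
      have hbig : ∀ᶠ n in (UU : Filter ℕ), Real.log (|C| + 1) / η ≤ Real.log (q n) :=
        ev_of_atTop (hL.eventually_ge_atTop _)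
      filter_upwards [happ, hbig] with n h1 h2
      have hqp : (0 : ℝ) < q n := by exact_mod_cast Nat.pos_of_ne_zero (hq0 n)
      have h3 : ((((y n : ℚ) : ℝ)) - ∑ a : Ex (Option σ) D, c a
          * ((((cc n : ℚ) / (q n : ℚ) ^ R : ℚ) : ℝ) * zval θ (q n) a.1))
          = (y n : ℝ) - (cc n / (q n : ℝ) ^ R) * ∑ a, c a * zval θ (q n) a.1 := by
        push_cast
        rw [Finset.mul_sum]
        congr 1
        exact Finset.sum_congr rfl fun a _ => by ring
      change |(((y n : ℚ) : ℝ)) - ∑ a : Ex (Option σ) D, c a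
          * ((((cc n : ℚ) / (q n : ℚ) ^ R : ℚ) : ℝ) * zval θ (q n) a.1)| ≤ _
      rw [h3]
      have h5 : |C| ≤ Real.exp (η * Real.log (q n)) := by
        rw [div_le_iff₀ hη] at h2
        have h2' : Real.log (|C| + 1) ≤ η * Real.log (q n) := by linarith
        have h6 : (0 : ℝ) < |C| + 1 := by positivity
        have h7 := (Real.log_le_iff_le_exp h6).1 h2'
        linarith
      have h6 : (q n : ℝ) ^ (-δ) = Real.exp (-δ * Real.log (q n)) := by
        rw [Real.rpow_def_of_pos hqp]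
        congr 1
        ring
      calc |(y n : ℝ) - (cc n / (q n : ℝ) ^ R) * ∑ a, c a * zval θ (q n) a.1|
          ≤ C * (q n : ℝ) ^ (-δ) := h1
        _ ≤ |C| * (q n : ℝ) ^ (-δ) := mul_le_mul_of_nonneg_right (le_abs_self _) (by positivity)
        _ ≤ Real.exp (η * Real.log (q n)) * Real.exp (-δ * Real.log (q n)) := by
            rw [h6]
            exact mul_le_mul_of_nonneg_right h5 (Real.exp_pos _).le
        _ = Real.exp (-(δ - η) * Real.log (q n)) := by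
            rw [← Real.exp_add]
            congr 1
            ring)
  refine ⟨γ, ?_⟩
  rw [← hT] at hγ
  simp only [hX, rat_gm, gm_mul] at hγ
  rw [gm_sum, gm_eq] at hγ
  filter_upwards [hγ] with n hn
  rw [hn, Finset.mul_sum]
  exact Finset.sum_congr rfl fun a _ => by ring

open MvPolynomial

variable {P : Polynomial (MvPolynomial (Option σ) ℤ)} {D : ℕ}

/-- **Approximations to roots**, along a sequence. -/
theorem approx_seq (S : Finset ℕ) (hS : ∀ p ∈ S, p.Prime) {θ : σ → ℝ}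
    (halg : ∀ s, IsAlgebraic ℚ (θ s))
    (hind : LinearIndependent ℚ (fun o : Option σ => (o.elim 1 (fun s => θ s) : ℝ)))
    {q : ℕ → ℕ} (hq : ∀ n, n + 2 ≤ q n) (hqS : ∀ n, (q n).primeFactors ⊆ S)
    (hP : P.Monic) (hdeg : ∀ i, (P.coeff i).totalDegree ≤ (P.natDegree - i) * D)
    (hsep : (pinf P D θ).Separable) (cc : ℕ → ℕ) (hc0 : ∀ n, cc n ≠ 0)
    (hcS : ∀ n, (cc n).primeFactors ⊆ S) (K : ℕ) (hcK : ∀ n, cc n ≤ q n ^ K) (z : ℕ → ℤ)
    (ρ : ℕ → ℂ) (hρ : ∀ n, (P.map (evz θ (q n) ℂ)).eval (ρ n) = 0) (δ : ℝ) (hδ : 0 < δ)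
    (happ : ∀ n, ‖(cc n : ℂ) * ρ n - z n‖ ≤ (q n : ℝ) ^ (-δ)) :
    ∃ γ : Ex (Option σ) (K + D) → ℚ, ∀ᶠ n in (UU : Filter ℕ), (z n : ℚ)
      = (cc n / (q n : ℚ) ^ K) * ∑ a, γ a * ∏ i, (pt θ (q n) i : ℚ) ^ (a.1 i) := by
  have hqn0 : ∀ n, q n ≠ 0 := fun n => by have := hq n; omega
  set θK : σ → QB := fun s => ⟨(θ s : ℂ), mem_algebraicClosure_iff.2 (alg_of_real.2 (halg s))⟩ with hθK
  have hθ : ∀ s, phi (θK s) = (θ s : ℂ) := fun s => rfl
  obtain ⟨M, hM⟩ := root_bound (P := P) (D := D) (θ := θ) hq θK hP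
  have hcc := ptil_cc hdeg θK
  have hp0 : (ptil P D θK).map constantCoeff ≠ 0 := by
    rw [hcc]
    intro h
    have h1 := pinf_coeff_top (D := D) hP θK
    rw [h, Polynomial.coeff_zero] at h1
    exact zero_ne_one h1
  have hsep' : ∀ η : QB, ((ptil P D θK).map constantCoeff).eval η = 0 →
      ((ptil P D θK).map constantCoeff).derivative.eval η ≠ 0 := by
    rw [hcc]
    intro η h1 h2
    have h3 : (pinf P D (fun s => (θ s : ℂ))).Separable := by
      have h4 := hsep.map (f := algebraMap ℝ ℂ)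
      rw [pinf_map] at h4
      exact h4
    have h4 : (pinf P D θK).map phi = pinf P D (fun s => (θ s : ℂ)) := pinf_map phi θK
    rw [← h4] at h3
    obtain ⟨a, b, hab⟩ := h3
    have h5 := congrArg (Polynomial.eval (phi η)) hab
    rw [Polynomial.eval_add, Polynomial.eval_mul, Polynomial.eval_mul, Polynomial.derivative_map,
      Polynomial.eval_map_apply, Polynomial.eval_map_apply, h1, h2] at h5
    simp at h5
  set Y : ℕ → ℂ := fun n => ρ n / (q n : ℂ) ^ D with hY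
  have hroot : ∀ n, ((ptil P D θK).map (evr phi (vv (q n) (frs θ (q n))))).eval (Y n) = 0 := by
    intro n
    have hqc : (q n : ℂ) ≠ 0 := by exact_mod_cast hqn0 n
    have h1 := hρ n
    rw [← ptil_eval hθ hdeg (hqn0 n) (ρ n)] at h1
    exact (mul_eq_zero.1 h1).resolve_left (pow_ne_zero _ hqc)
  obtain ⟨E, C1, hC1, hE⟩ := approxE θ hq (ptil P D θK) hp0 hsep' Y M
    (Eventually.of_forall fun n => hM n _ (hroot n)) (Eventually.of_forall hroot) (K + D)
  obtain ⟨c, C2, hC2, hc⟩ := expand phi E (K + D)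
  apply engine2 S hS θ halg hind q hq hqS (K + D) cc hc0 hcS K K hcK z
    (fun a => (phi (c a)).re) (fun a => alg_re (alg_QB (c a))) (1 + C1 + C2) (min δ 1)
    (lt_min hδ one_pos)
  filter_upwards [hE] with n hn
  have hq1 : (1 : ℝ) ≤ q n := by
    have := hq n
    exact_mod_cast (by omega : 1 ≤ q n)
  have hq0 : (0 : ℝ) < q n := by linarith
  have hqc : (q n : ℂ) ≠ 0 := by exact_mod_cast hqn0 n
  have h7 := hc (q n) hq1 (frs θ (q n)) (frs_le θ (q n))
  have h8 : ∀ a : Ex (Option σ) (K + D), ((zval θ (q n) a.1 : ℝ) : ℂ)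
      = ((q n : ℝ) : ℂ) ^ (a.1 none) * ∏ s, (frs θ (q n) s : ℂ) ^ (a.1 (some s)) := by
    intro a
    unfold zval frs
    push_cast
    rfl
  -- the real part
  obtain ⟨T, hT⟩ : ∃ T : ℝ, T = cc n / (q n : ℝ) ^ K := ⟨_, rfl⟩
  have hT0 : 0 ≤ T := by rw [hT]; positivity
  have hT1 : T ≤ 1 := by
    rw [hT, div_le_one (by positivity)]
    exact_mod_cast hcK n
  obtain ⟨SS, hSS⟩ : ∃ SS : ℂ, SS = ∑ a : Ex (Option σ) (K + D), phi (c a) *
      (((q n : ℝ) : ℂ) ^ (a.1 none) * ∏ s, (frs θ (q n) s : ℂ) ^ (a.1 (some s))) := ⟨_, rfl⟩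
  rw [← hSS] at h7
  have h3 : ((z n : ℂ) - (T : ℂ) * SS).re
      = (z n : ℝ) - T * ∑ a, (phi (c a)).re * zval θ (q n) a.1 := by
    rw [Complex.sub_re, Complex.intCast_re, Complex.re_ofReal_mul, hSS, Complex.re_sum]
    congr 2
    refine Finset.sum_congr rfl fun a _ => ?_
    rw [← h8, Complex.re_mul_ofReal]
  rw [← hT, ← h3]
  refine (Complex.abs_re_le_norm _).trans ?_
  -- the estimates
  set E' := evr phi (vv (q n) (frs θ (q n))) E
  have h9 : (z n : ℂ) - (T : ℂ) * SS = ((z n : ℂ) - cc n * ρ n)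
      + ((T : ℂ) * (((q n : ℝ) : ℂ) ^ (K + D) * (Y n - E'))
      + (T : ℂ) * (((q n : ℝ) : ℂ) ^ (K + D) * E' - SS)) := by
    have h10 : (T : ℂ) * (((q n : ℝ) : ℂ) ^ (K + D) * Y n) = cc n * ρ n := by
      rw [hT, hY]
      push_cast
      rw [pow_add]
      field_simp
    linear_combination -h10
  rw [h9]
  refine (norm_add_le _ _).trans ?_
  have hqd : (q n : ℝ) ^ (-δ) ≤ (q n : ℝ) ^ (-(min δ 1)) :=
    Real.rpow_le_rpow_of_exponent_le hq1 (neg_le_neg (min_le_left _ _))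
  have hq1' : 1 / (q n : ℝ) ≤ (q n : ℝ) ^ (-(min δ 1)) := by
    have h1 : 1 / (q n : ℝ) = (q n : ℝ) ^ (-(1 : ℝ)) := by
      rw [Real.rpow_neg_one, one_div]
    rw [h1]
    exact Real.rpow_le_rpow_of_exponent_le hq1 (neg_le_neg (min_le_right _ _))
  have g1 : ‖(z n : ℂ) - cc n * ρ n‖ ≤ 1 * (q n : ℝ) ^ (-(min δ 1)) := by
    rw [norm_sub_rev, one_mul]
    exact (happ n).trans hqd
  have g2 : ‖(T : ℂ) * (((q n : ℝ) : ℂ) ^ (K + D) * (Y n - E'))‖ ≤ C1 * (q n : ℝ) ^ (-(min δ 1)) := by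
    rw [norm_mul, norm_mul, norm_pow, Complex.norm_real, Complex.norm_real,
      Real.norm_of_nonneg hT0, Real.norm_of_nonneg hq0.le]
    calc T * ((q n : ℝ) ^ (K + D) * ‖Y n - E'‖)
        ≤ 1 * ((q n : ℝ) ^ (K + D) * (C1 * (1 / q n) ^ (K + D + 1))) := by
          apply mul_le_mul hT1 _ (by positivity) zero_le_one
          exact mul_le_mul_of_nonneg_left hn (by positivity)
      _ = C1 * (1 / q n) := by
          rw [pow_succ, one_div, inv_pow]
          field_simp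
      _ ≤ _ := mul_le_mul_of_nonneg_left hq1' hC1
  have g3 : ‖(T : ℂ) * (((q n : ℝ) : ℂ) ^ (K + D) * E' - SS)‖ ≤ C2 * (q n : ℝ) ^ (-(min δ 1)) := by
    rw [norm_mul, Complex.norm_real, Real.norm_of_nonneg hT0]
    calc T * ‖((q n : ℝ) : ℂ) ^ (K + D) * E' - SS‖ ≤ 1 * (C2 / q n) :=
          mul_le_mul hT1 h7 (norm_nonneg _) zero_le_one
      _ = C2 * (1 / q n) := by ring
      _ ≤ _ := mul_le_mul_of_nonneg_left hq1' hC2
  have g4 := norm_add_le ((T : ℂ) * (((q n : ℝ) : ℂ) ^ (K + D) * (Y n - E')))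
    ((T : ℂ) * (((q n : ℝ) : ℂ) ^ (K + D) * E' - SS))
  have e1 : (1 + C1 + C2) * (q n : ℝ) ^ (-(min δ 1)) = 1 * (q n : ℝ) ^ (-(min δ 1))
      + (C1 * (q n : ℝ) ^ (-(min δ 1)) + C2 * (q n : ℝ) ^ (-(min δ 1))) := by ring
  rw [e1]
  exact add_le_add g1 (g4.trans (add_le_add g2 g3))

/-- **Approximations to roots by rational numbers with denominators composed of given primes.** -/
theorem approx_roots (S : Finset ℕ) (hS : ∀ p ∈ S, p.Prime) (θ : σ → ℝ)
    (halg : ∀ s, IsAlgebraic ℚ (θ s))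
    (hind : LinearIndependent ℚ (fun o : Option σ => (o.elim 1 (fun s => θ s) : ℝ)))
    (P : Polynomial (MvPolynomial (Option σ) ℤ)) (D : ℕ)
    (hP : P.Monic) (hdeg : ∀ i, (P.coeff i).totalDegree ≤ (P.natDegree - i) * D)
    (hsep : (pinf P D θ).Separable) (K : ℕ) (δ : ℝ) (hδ : 0 < δ) :
    ∃ (A : Finset (MvPolynomial (Option σ) ℚ)) (q₀ : ℕ), ∀ q ≥ q₀, q.primeFactors ⊆ S →
      ∀ c : ℕ, c ≠ 0 → c.primeFactors ⊆ S → c ≤ q ^ K → ∀ (z : ℤ) (ρ : ℂ),
      (P.map (evz θ q ℂ)).eval ρ = 0 → ‖(c : ℂ) * ρ - z‖ ≤ (q : ℝ) ^ (-δ) →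
      ∃ G ∈ A, G.totalDegree ≤ K + D ∧
        (z : ℚ) / c = aeval (fun i => (pt θ q i : ℚ)) G / (q : ℚ) ^ K := by
  classical
  by_contra hcon
  push Not at hcon
  have hcount : Countable (Ex (Option σ) (K + D) → ℚ) := inferInstance
  obtain ⟨e, he⟩ := exists_surjective_nat (Ex (Option σ) (K + D) → ℚ)
  choose q hq hqS c hc0 hcS hcK z ρ hρ happ hno using fun n : ℕ =>
    hcon ((Finset.range (n + 1)).image fun i => polyOf (e i)) (n + 2)
  have hq' : ∀ n, n + 2 ≤ q n := hq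
  obtain ⟨γ, hγ⟩ := approx_seq (P := P) (D := D) S hS halg hind hq' hqS hP hdeg hsep c hc0 hcS K hcK
    z ρ hρ δ hδ happ
  obtain ⟨i, hi⟩ := he γ
  have hbig : ∀ᶠ n in (UU : Filter ℕ), i ≤ n := ev_of_atTop (Filter.eventually_ge_atTop i)
  obtain ⟨n, h1, h2⟩ := (hγ.and hbig).exists
  refine hno n (polyOf γ) ?_ ?_ ?_
  · rw [Finset.mem_image]
    exact ⟨i, Finset.mem_range.2 (by omega), by rw [hi]⟩
  · unfold polyOf
    refine (totalDegree_finsetSum _ _).trans (Finset.sup_le fun a _ => ?_)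
    refine (totalDegree_monomial_le _ _).trans ?_
    have h3 := mem_Ex.1 a.2
    change (fs a.1).sum (fun _ e => e) ≤ _
    rw [sum_fs]
    simpa using h3
  · have hq0 : (q n : ℚ) ≠ 0 := by
      have := hq' n
      exact_mod_cast (by omega : q n ≠ 0)
    have hc : (c n : ℚ) ≠ 0 := by exact_mod_cast hc0 n
    rw [aeval_polyOf, h1]
    field_simp

end

end Pool.Agent.Q4.Cov
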