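import Mathlib
import Pool.Agent.Q4.Cov.Roth

set_option autoImplicit false
set_option linter.unusedSectionVars false

/-!
# Rational approximations with arbitrary denominators
-/

namespace Pool.Agent.Q4.Cov

open Filter Topology Pool.Agent.TH932.Abs Pool.Agent.TH932.Germs Pool.Agent.TH932.Chi
open Pool.Agent.TH796.AL Pool.Agent.Q4.Blk Pool.Agent.Q4.Gcd Module

section
variable {m : ℕ} {B : Base m} {L : ℕ → ℝ}

/-- the subspace theorem for two systems of forms, the second one corrected by the first one -/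
theorem two_block (hL : Tendsto L atTop atTop) (F : IntermediateField ℚ ℝ) [FiniteDimensional ℚ F]
    {ι ι' : Type} [Fintype ι] [DecidableEq ι] [Fintype ι'] [DecidableEq ι']
    (x : ι → GG) (z : ι → HR)
    (M : ι → ι → F) (hM : ∀ i k, ∑ j, M i j * M j k = if i = k then 1 else 0)
    (hz : ∀ i, z i = ∑ j, algebraMap ℝ HR (M i j : ℝ) * rho (x j))
    (x' : ι' → GG) (z' : ι' → HR)
    (M' : ι' → ι' → F) (hM' : ∀ i k, ∑ j, M' i j * M' j k = if i = k then 1 else 0)
    (hz' : ∀ i, z' i = ∑ j, algebraMap ℝ HR (M' i j : ℝ) * rho (x' j))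
    (hind : ∀ (b : ι → ℤ) (b' : ι' → ℤ), ∑ i, (b i : GG) * x i + ∑ i, (b' i : GG) * x' i = 0 →
      (∀ i, b i = 0) ∧ ∀ i, b' i = 0)
    (c : ι' → ι → F)
    (w : Fin m → ι → ℝ) (wI : ι → ℝ) (w' : Fin m → ι' → ℝ) (wI' : ι' → ℝ)
    (hxv : ∀ v i, x i ∈ Sv B L (some v) (w v i)) (hzv : ∀ i, z i ∈ SR L (wI i))
    (hxint : ∀ i, Sint B L (x i))
    (hxv' : ∀ v i, x' i ∈ Sv B L (some v) (w' v i))
    (hzv' : ∀ i, z' i - ∑ a, algebraMap ℝ HR (c i a : ℝ) * z a ∈ SR L (wI' i))
    (hxint' : ∀ i, Sint B L (x' i)) :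
    ∑ i, (∑ v, w v i + wI i) + ∑ i, (∑ v, w' v i + wI' i) ≤ 0 := by
  classical
  have hsm : ∀ (b : F) (w : HR), b • w = algebraMap ℝ HR (b : ℝ) * w := by
    intro b w
    rw [Algebra.smul_def]
    rfl
  have hcoe : ∀ a b : F, ((a * b : F) : ℝ) = (a : ℝ) * (b : ℝ) := fun a b => rfl
  -- the elements and the forms
  set X : ι ⊕ ι' → GG := Sum.elim x x' with hX
  set Z : ι ⊕ ι' → HR := Sum.elim z (fun i => z' i - ∑ a, algebraMap ℝ HR (c i a : ℝ) * z a) with hZ
  have hX0 : ∀ b : ι ⊕ ι' → ℤ, ∑ i, (b i : GG) * X i = 0 → ∀ i, b i = 0 := by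
    intro b hb
    rw [Fintype.sum_sum_type] at hb
    obtain ⟨h1, h2⟩ := hind (fun i => b (Sum.inl i)) (fun i => b (Sum.inr i)) hb
    rintro (i | i)
    · exact h1 i
    · exact h2 i
  have hZX : ∀ i, Z i ∈ Submodule.span F (Set.range fun j => rho (X j)) := by
    have hzm : ∀ i, z i ∈ Submodule.span F (Set.range fun j => rho (X j)) := by
      intro i
      rw [hz]
      refine Submodule.sum_mem _ fun j _ => ?_
      rw [← hsm]
      exact Submodule.smul_mem _ _ (Submodule.subset_span ⟨Sum.inl j, rfl⟩)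
    rintro (i | i)
    · exact hzm i
    · refine Submodule.sub_mem _ ?_ ?_
      · rw [hz']
        refine Submodule.sum_mem _ fun j _ => ?_
        rw [← hsm]
        exact Submodule.smul_mem _ _ (Submodule.subset_span ⟨Sum.inr j, rfl⟩)
      · refine Submodule.sum_mem _ fun j _ => ?_
        rw [← hsm]
        exact Submodule.smul_mem _ _ (hzm j)
  have hinv : ∀ {κ : Type} [Fintype κ] [DecidableEq κ] (N : κ → κ → F)
      (_ : ∀ i k, ∑ j, N i j * N j k = if i = k then 1 else 0) (b : κ → F),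
      (∀ k, ∑ a, b a * N a k = 0) → ∀ a, b a = 0 := by
    intro κ _ _ N hN b hb a
    have h4 : b a = ∑ k, (∑ a', b a' * N a' k) * N k a := by
      simp only [Finset.sum_mul]
      rw [Finset.sum_comm]
      have h5 : ∀ a', ∑ k, b a' * N a' k * N k a = b a' * (if a' = a then 1 else 0) := by
        intro a'
        rw [← hN a' a, Finset.mul_sum]
        exact Finset.sum_congr rfl fun k _ => mul_assoc _ _ _
      simp only [h5]
      simp
    rw [h4]
    exact Finset.sum_eq_zero fun k _ => by rw [hb k, zero_mul]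
  have hZi : LinearIndependent F Z := by
    rw [Fintype.linearIndependent_iff]
    intro b hb
    -- coefficients
    set β : ι → F := fun a => b (Sum.inl a) - ∑ i, b (Sum.inr i) * c i a with hβ
    have h1 := ind_F F X hX0 (fun k => k.elim (fun j => ∑ a, β a * M a j)
      (fun j => ∑ i, b (Sum.inr i) * M' i j)) (by
      rw [Fintype.sum_sum_type, ← hb, Fintype.sum_sum_type]
      simp only [hZ, hX, Sum.elim_inl, Sum.elim_inr, hsm]
      have e1 : ∑ j, algebraMap ℝ HR ((∑ a, β a * M a j : F) : ℝ) * rho (x j)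
          = ∑ a, algebraMap ℝ HR (β a : ℝ) * z a := by
        simp only [hz, Finset.mul_sum]
        rw [Finset.sum_comm]
        refine Finset.sum_congr rfl fun j _ => ?_
        rw [AddSubmonoidClass.coe_finsetSum, map_sum, Finset.sum_mul]
        refine Finset.sum_congr rfl fun a _ => ?_
        rw [hcoe, map_mul]
        ring
      have e2 : ∑ j, algebraMap ℝ HR ((∑ i, b (Sum.inr i) * M' i j : F) : ℝ) * rho (x' j)
          = ∑ i, algebraMap ℝ HR (b (Sum.inr i) : ℝ) * z' i := by
        simp only [hz', Finset.mul_sum]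
        rw [Finset.sum_comm]
        refine Finset.sum_congr rfl fun j _ => ?_
        rw [AddSubmonoidClass.coe_finsetSum, map_sum, Finset.sum_mul]
        refine Finset.sum_congr rfl fun a _ => ?_
        rw [hcoe, map_mul]
        ring
      rw [e1, e2]
      have e3 : ∑ a, algebraMap ℝ HR (β a : ℝ) * z a
          = ∑ a, algebraMap ℝ HR (b (Sum.inl a) : ℝ) * z a
            - ∑ i, algebraMap ℝ HR (b (Sum.inr i) : ℝ) * ∑ a, algebraMap ℝ HR (c i a : ℝ) * z a := by
        simp only [Finset.mul_sum]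
        rw [Finset.sum_comm, ← Finset.sum_sub_distrib]
        refine Finset.sum_congr rfl fun a _ => ?_
        rw [hβ]
        simp only []
        have h5 : ((b (Sum.inl a) - ∑ i, b (Sum.inr i) * c i a : F) : ℝ)
            = (b (Sum.inl a) : ℝ) - ∑ i, (b (Sum.inr i) : ℝ) * (c i a : ℝ) := by
          rw [AddSubgroupClass.coe_sub, AddSubmonoidClass.coe_finsetSum]
          rfl
        rw [h5, map_sub, map_sum, sub_mul, Finset.sum_mul]
        congr 1
        refine Finset.sum_congr rfl fun i _ => ?_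
        rw [map_mul]
        ring
      rw [e3]
      simp only [mul_sub, Finset.sum_sub_distrib]
      ring)
    have h2 : ∀ i, b (Sum.inr i) = 0 := hinv M' hM' (fun i => b (Sum.inr i)) fun k => h1 (Sum.inr k)
    have h3 : ∀ a, β a = 0 := hinv M hM β fun k => h1 (Sum.inl k)
    rintro (a | i)
    · have h4 := h3 a
      rw [hβ] at h4
      simp only [h2, zero_mul, Finset.sum_const_zero, sub_zero] at h4
      exact h4
    · exact h2 i
  obtain ⟨N, ε'⟩ : Σ N : ℕ, Fin N ≃ ι ⊕ ι' := ⟨_, (Fintype.equivFin _).symm⟩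
  have key := fixa_thm m B L hL F inferInstance N
    (fun k => X (ε' k)) (fun k => Z (ε' k)) (fun v k => (ε' k).elim (w v) (w' v))
    (fun k => (ε' k).elim wI wI')
    ?_ (hZi.comp _ ε'.injective) ?_ ?_ ?_ ?_
  · have e1 : ∀ v, ∑ k, (ε' k).elim (w v) (w' v) = ∑ i : ι ⊕ ι', i.elim (w v) (w' v) := fun v =>
      Equiv.sum_comp ε' (fun i : ι ⊕ ι' => i.elim (w v) (w' v))
    have e2 : ∑ k, (ε' k).elim wI wI' = ∑ i : ι ⊕ ι', i.elim wI wI' :=
      Equiv.sum_comp ε' (fun i : ι ⊕ ι' => i.elim wI wI')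
    simp only [e1] at key
    rw [e2, Finset.sum_comm, ← Finset.sum_add_distrib, Fintype.sum_sum_type] at key
    exact key
  · intro b hb i
    have h1 := hX0 (fun j => b (ε'.symm j)) (by
      rw [← hb, ← Equiv.sum_comp ε']
      refine Finset.sum_congr rfl fun k _ => ?_
      rw [Equiv.symm_apply_apply]) (ε' i)
    simpa using h1
  · intro i
    have h1 := hZX (ε' i)
    have h2 : (Set.range fun j => rho (X j)) = Set.range fun j => rho (X (ε' j)) := by
      ext g
      constructor
      · rintro ⟨j, rfl⟩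
        exact ⟨ε'.symm j, by simp⟩
      · rintro ⟨j, rfl⟩
        exact ⟨ε' j, rfl⟩
    rw [h2] at h1
    exact h1
  · intro v k
    cases h : ε' k with
    | inl a => exact hxv v a
    | inr a => exact hxv' v a
  · intro k
    cases h : ε' k with
    | inl a => exact hzv a
    | inr a => exact hzv' a
  · intro k
    cases h : ε' k with
    | inl a => exact hxint a
    | inr a => exact hxint' a

end

/-! ### counting -/

lemma card_Ex_le (τ : Type) [Fintype τ] [DecidableEq τ] (d : ℕ) :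
    (Ex τ d).card ≤ (d + 1) ^ Fintype.card τ := by
  unfold Ex
  refine (Finset.card_filter_le _ _).trans ?_
  rw [Fintype.card_piFinset]
  simp

lemma card_ratio (τ : Type) [Fintype τ] [DecidableEq τ] (c : ℕ) {η : ℝ} (hη : 0 < η) :
    ∃ d, ((Ex τ (d + c)).card : ℝ) ≤ (1 + η) * (Ex τ d).card := by
  by_contra hcon
  push Not at hcon
  have h1 : ∀ k : ℕ, (1 + η) ^ k ≤ (Ex τ (k * c)).card := by
    intro k
    induction k with
    | zero =>
      rw [pow_zero, zero_mul]
      have h0 : 0 < (Ex τ 0).card := Finset.card_pos.2 ⟨0, mem_Ex.2 (by simp)⟩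
      exact_mod_cast h0
    | succ k ih =>
      have e : (k + 1) * c = k * c + c := by ring
      rw [pow_succ', e]
      exact (mul_le_mul_of_nonneg_left ih (by positivity)).trans (hcon (k * c)).le
  have h2 : ∀ k : ℕ, (1 + η) ^ k ≤ ((c : ℝ) + 1) ^ Fintype.card τ * ((k : ℝ) + 1) ^ Fintype.card τ := by
    intro k
    refine (h1 k).trans ?_
    have h3 : ((Ex τ (k * c)).card : ℝ) ≤ ((k * c : ℕ) + 1 : ℝ) ^ Fintype.card τ := by
      exact_mod_cast card_Ex_le τ (k * c)
    refine h3.trans ?_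
    rw [← mul_pow]
    apply pow_le_pow_left₀ (by positivity)
    push_cast
    nlinarith [Nat.cast_nonneg (α := ℝ) k, Nat.cast_nonneg (α := ℝ) c]
  have h3 : Tendsto (fun k : ℕ => ((k : ℝ)) ^ Fintype.card τ / (1 + η) ^ k) atTop (𝓝 0) :=
    tendsto_pow_const_div_const_pow_of_one_lt _ (by linarith)
  have h4 := h3.comp (tendsto_add_atTop_nat 1)
  have hpos : (0 : ℝ) < 1 / (((c : ℝ) + 1) ^ Fintype.card τ * (1 + η)) / 2 := by positivity
  obtain ⟨k, hk⟩ := (h4.eventually (gt_mem_nhds hpos)).exists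
  simp only [Function.comp] at hk
  have h5 := h2 k
  have h6 : (0 : ℝ) < (1 + η) ^ k := by positivity
  rw [div_lt_iff₀ (by positivity), pow_succ] at hk
  push_cast at hk
  have h7 : 1 / (((c : ℝ) + 1) ^ Fintype.card τ * (1 + η)) / 2 * ((1 + η) ^ k * (1 + η))
      = (1 + η) ^ k / (2 * ((c : ℝ) + 1) ^ Fintype.card τ) := by
    field_simp
  rw [h7, lt_div_iff₀ (by positivity)] at hk
  nlinarith

end Pool.Agent.Q4.Cov
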