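import Mathlib
import Pool.Agent.Q4.Cov.Two

set_option autoImplicit false
set_option linter.unusedSectionVars false

/-!
# Roth's theorem for roots at truncated products
-/

namespace Pool.Agent.Q4.Cov

open Filter Topology Pool.Agent.TH932.Abs Pool.Agent.TH932.Germs Pool.Agent.TH932.Chi
open Pool.Agent.TH796.AL Pool.Agent.Q4.Blk Pool.Agent.Q4.Gcd Module

section
variable {σ : Type} [Fintype σ] [DecidableEq σ]

open MvPolynomial

/-- the family with given coefficients in the number field -/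
lemma setup (S : Finset ℕ) (hS : ∀ p ∈ S, p.Prime) (θ : σ → ℝ)
    (halg : ∀ s, IsAlgebraic ℚ (θ s))
    (hind : LinearIndependent ℚ (fun o : Option σ => (o.elim 1 (fun s => θ s) : ℝ)))
    (q : ℕ → ℕ) (hq : ∀ n, n + 2 ≤ q n) (hqS : ∀ n, (q n).primeFactors ⊆ S)
    (hL : Tendsto (fun n => Real.log (q n)) atTop atTop) {κκ : Type} [Finite κκ] (c : κκ → ℝ)
    (hc : ∀ a, IsAlgebraic ℚ (c a)) :
    ∃ (F : IntermediateField ℚ ℝ) (_ : FiniteDimensional ℚ F) (θ' : σ → F) (c' : κκ → F)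
      (g0 : Fin S.card → ℝ) (κ : KK (fun n => Real.log (q n)) hL) (y : σ → GG),
      (∀ a, (c' a : ℝ) = c a) ∧
      Fam (bas S hS) (fun n => Real.log (q n)) F θ' (fun _ => g0) y ∧
      lv (bas S hS) none g0 = -1 ∧ κ ≠ 0 ∧ gm (fun n => (q n : ℚ)) = (κ : GG) * ch (bas S hS) hL g0 ∧
      (∀ a, Xh hL κ g0 y (bas S hS) a = gm (fun n => ∏ i, (pt θ (q n) i : ℚ) ^ (a i))) ∧
      ∀ a, Zh hL κ g0 θ' y (bas S hS) a = gr (fun n => zval θ (q n) a) := by
  classical
  have hq0 : ∀ n, q n ≠ 0 := fun n => by have := hq n; omega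
  set F : IntermediateField ℚ ℝ := IntermediateField.adjoin ℚ (Set.range θ ∪ Set.range c) with hF
  have hfin : FiniteDimensional ℚ F := by
    have : Finite ↑(Set.range θ ∪ Set.range c) := by
      have h1 : (Set.range θ ∪ Set.range c).Finite := (Set.finite_range _).union (Set.finite_range _)
      exact h1
    apply IntermediateField.finiteDimensional_adjoin
    rintro _ (⟨l, rfl⟩ | ⟨l, rfl⟩)
    · exact (halg l).isIntegral
    · exact (hc l).isIntegral
  have hθF : ∀ l, θ l ∈ F := fun l => IntermediateField.subset_adjoin ℚ _ (Or.inl ⟨l, rfl⟩)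
  have hcF : ∀ l, c l ∈ F := fun l => IntermediateField.subset_adjoin ℚ _ (Or.inr ⟨l, rfl⟩)
  obtain ⟨g0, κ, hκ, hu, hlim⟩ := unit_germ (B := bas S hS) hL
    (fun n i => (q n).factorization ((bas S hS).P i)) 1 (Eventually.of_forall fun n => by
      rw [← log_prod_bas hS, ← eq_prod hS (hq0 n) (hqS n), one_mul])
  have hu' : gm (fun n => (q n : ℚ)) = (κ : GG) * ch (bas S hS) hL g0 := by
    rw [← hu]
    congr 1
    funext n
    rw [← eq_prod hS (hq0 n) (hqS n)]
  have hLpos : ∀ n, 0 < Real.log (q n) := fun n => by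
    apply Real.log_pos
    have := hq n
    have h2 : 2 ≤ q n := by omega
    exact_mod_cast h2
  have hlam : -lv (bas S hS) none g0 = 1 := by
    have h4 := lim_log hS _ g0 hlim
    have h5 : Tendsto (fun n => Real.log ((∏ i, (bas S hS).P i ^ ((q n).factorization ((bas S hS).P i)) : ℕ) : ℝ)
        / Real.log (q n)) (UU : Filter ℕ) (𝓝 1) := by
      refine tendsto_const_nhds.congr fun n => ?_
      have h6 : ∏ i, (bas S hS).P i ^ ((q n).factorization ((bas S hS).P i)) = q n :=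
        (eq_prod hS (hq0 n) (hqS n)).symm
      rw [h6]
      exact (div_self (hLpos n).ne').symm
    exact tendsto_nhds_unique h4 h5
  set yy : σ → GG := fun s => gm (fun n => (⌊θ s * q n⌋ : ℚ) / q n) with hyy
  have H : Fam (bas S hS) (fun n => Real.log (q n)) F (fun s => (⟨θ s, hθF s⟩ : F)) (fun _ => g0) yy := by
    have hq' : ∀ s, _ := fun s => quot (B := bas S hS) hL g0 κ hκ q hq0 hu' (θ s)
    refine ⟨fun v s => (hq' s).1 v, fun s => (hq' s).2.1, fun s => (hq' s).2.2, fun s => ?_,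
      fun s => ?_⟩
    · rw [hlam]; norm_num
    · have h1 := hind.comp
        (Option.map (fun t : {t : σ // lv (bas S hS) none g0 = lv (bas S hS) none g0} => t.1))
        (Option.map_injective Subtype.val_injective)
      convert h1 using 1
      funext o
      cases o <;> rfl
  refine ⟨F, hfin, fun s => ⟨θ s, hθF s⟩, fun a => ⟨c a, hcF a⟩, g0, κ, yy, fun _ => rfl, H,
    by linarith, hκ, hu', ?_, ?_⟩
  · exact Xh_gm hL θ q hq0 κ g0 hu'
  · exact Zh_gr hL (fun s => (⟨θ s, hθF s⟩ : F)) q hq0 κ g0 hu'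

variable {P : Polynomial (MvPolynomial (Option σ) ℤ)} {D : ℕ}

/-- expansion of the roots -/
theorem root_expand {θ : σ → ℝ} (halg : ∀ s, IsAlgebraic ℚ (θ s))
    {q : ℕ → ℕ} (hq : ∀ n, n + 2 ≤ q n)
    (hP : P.Monic) (hdeg : ∀ i, (P.coeff i).totalDegree ≤ (P.natDegree - i) * D)
    (hsep : (pinf P D θ).Separable)
    (ρ : ℕ → ℂ) (hρ : ∀ n, (P.map (evz θ (q n) ℂ)).eval (ρ n) = 0) (R : ℕ) :
    ∃ (c : Ex (Option σ) (R + D) → ℝ) (C : ℝ), (∀ a, IsAlgebraic ℚ (c a)) ∧ 0 ≤ C ∧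
      ∀ᶠ n in (UU : Filter ℕ),
      |(ρ n).re * (q n : ℝ) ^ R - ∑ a, c a * zval θ (q n) a.1| ≤ C / q n := by
  have hqn0 : ∀ n, q n ≠ 0 := fun n => by have := hq n; omega
  set θK : σ → QB := fun s => ⟨(θ s : ℂ), mem_algebraicClosure_iff.2 (alg_of_real.2 (halg s))⟩ with hθK
  have hθ : ∀ s, phi (θK s) = (θ s : ℂ) := fun s => rfl
  obtain ⟨M, hM⟩ := root_bound (P := P) (D := D) (θ := θ) hq θK hP
  have hcc := ptil_cc hdeg θK
  have hp0 : (ptil P D θK).map constantCoeff ≠ 0 := by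
    rw [hcc]
    intro h
    have h1 := pinf_coeff_top (D := D) hP θK
    rw [h, Polynomial.coeff_zero] at h1
    exact zero_ne_one h1
  have hsep' : ∀ η : QB, ((ptil P D θK).map constantCoeff).eval η = 0 →
      ((ptil P D θK).map constantCoeff).derivative.eval η ≠ 0 := by
    rw [hcc]
    intro η h1 h2
    have h3 : (pinf P D (fun s => (θ s : ℂ))).Separable := by
      have h4 := hsep.map (f := algebraMap ℝ ℂ)
      rw [pinf_map] at h4
      exact h4
    have h4 : (pinf P D θK).map phi = pinf P D (fun s => (θ s : ℂ)) := pinf_map phi θK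
    rw [← h4] at h3
    obtain ⟨a, b, hab⟩ := h3
    have h5 := congrArg (Polynomial.eval (phi η)) hab
    rw [Polynomial.eval_add, Polynomial.eval_mul, Polynomial.eval_mul, Polynomial.derivative_map,
      Polynomial.eval_map_apply, Polynomial.eval_map_apply, h1, h2] at h5
    simp at h5
  set Y : ℕ → ℂ := fun n => ρ n / (q n : ℂ) ^ D with hY
  have hroot : ∀ n, ((ptil P D θK).map (evr phi (vv (q n) (frs θ (q n))))).eval (Y n) = 0 := by
    intro n
    have hqc : (q n : ℂ) ≠ 0 := by exact_mod_cast hqn0 n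
    have h1 := hρ n
    rw [← ptil_eval hθ hdeg (hqn0 n) (ρ n)] at h1
    exact (mul_eq_zero.1 h1).resolve_left (pow_ne_zero _ hqc)
  obtain ⟨E, C1, hC1, hE⟩ := approxE θ hq (ptil P D θK) hp0 hsep' Y M
    (Eventually.of_forall fun n => hM n _ (hroot n)) (Eventually.of_forall hroot) (R + D)
  obtain ⟨c, C2, hC2, hc⟩ := expand phi E (R + D)
  refine ⟨fun a => (phi (c a)).re, C1 + C2, fun a => alg_re (alg_QB (c a)), by positivity, ?_⟩
  filter_upwards [hE] with n hn
  have hq1 : (1 : ℝ) ≤ q n := by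
    have := hq n
    exact_mod_cast (by omega : 1 ≤ q n)
  have hq0 : (0 : ℝ) < q n := by linarith
  have hqc : (q n : ℂ) ≠ 0 := by exact_mod_cast hqn0 n
  have h7 := hc (q n) hq1 (frs θ (q n)) (frs_le θ (q n))
  have h8 : ∀ a : Ex (Option σ) (R + D), ((zval θ (q n) a.1 : ℝ) : ℂ)
      = ((q n : ℝ) : ℂ) ^ (a.1 none) * ∏ s, (frs θ (q n) s : ℂ) ^ (a.1 (some s)) := by
    intro a
    unfold zval frs
    push_cast
    rfl
  obtain ⟨SS, hSS⟩ : ∃ SS : ℂ, SS = ∑ a : Ex (Option σ) (R + D), phi (c a) *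
      (((q n : ℝ) : ℂ) ^ (a.1 none) * ∏ s, (frs θ (q n) s : ℂ) ^ (a.1 (some s))) := ⟨_, rfl⟩
  rw [← hSS] at h7
  have h3 : (ρ n * (((q n : ℝ) ^ R : ℝ) : ℂ) - SS).re
      = (ρ n).re * (q n : ℝ) ^ R - ∑ a, (phi (c a)).re * zval θ (q n) a.1 := by
    rw [Complex.sub_re, Complex.re_mul_ofReal, hSS, Complex.re_sum]
    congr 1
    refine Finset.sum_congr rfl fun a _ => ?_
    rw [← h8, Complex.re_mul_ofReal]
  rw [← h3]
  refine (Complex.abs_re_le_norm _).trans ?_
  set E' := evr phi (vv (q n) (frs θ (q n))) E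
  have h9 : ρ n * (((q n : ℝ) ^ R : ℝ) : ℂ) - SS = ((q n : ℝ) : ℂ) ^ (R + D) * (Y n - E')
      + (((q n : ℝ) : ℂ) ^ (R + D) * E' - SS) := by
    have h10 : ((q n : ℝ) : ℂ) ^ (R + D) * Y n = ρ n * (((q n : ℝ) ^ R : ℝ) : ℂ) := by
      rw [hY]
      push_cast
      rw [pow_add]
      field_simp
    linear_combination -h10
  rw [h9]
  refine (norm_add_le _ _).trans ?_
  rw [add_div]
  refine add_le_add ?_ h7
  rw [norm_mul, norm_pow, Complex.norm_real, Real.norm_of_nonneg hq0.le]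
  calc (q n : ℝ) ^ (R + D) * ‖Y n - E'‖
      ≤ (q n : ℝ) ^ (R + D) * (C1 * (1 / q n) ^ (R + D + 1)) :=
        mul_le_mul_of_nonneg_left hn (by positivity)
    _ = C1 / q n := by
        rw [pow_succ, one_div, inv_pow]
        field_simp

lemma zval_nonneg (θ : σ → ℝ) (q : ℕ) (a : Option σ → ℕ) : 0 ≤ zval θ q a := by
  unfold zval
  have : ∀ s ∈ (Finset.univ : Finset σ), 0 ≤ (Int.fract (θ s * q)) ^ (a (some s)) := fun s _ =>
    pow_nonneg (Int.fract_nonneg _) _
  exact mul_nonneg (by positivity) (Finset.prod_nonneg this)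

lemma zval_le (θ : σ → ℝ) (q : ℕ) (a : Option σ → ℕ) : zval θ q a ≤ (q : ℝ) ^ (a none) := by
  unfold zval
  have h1 : ∏ s, (Int.fract (θ s * q)) ^ (a (some s)) ≤ 1 := by
    apply Finset.prod_le_one
    · exact fun s _ => pow_nonneg (Int.fract_nonneg _) _
    · exact fun s _ => pow_le_one₀ (Int.fract_nonneg _) (Int.fract_lt_one _).le
  have h2 : (0 : ℝ) ≤ (q : ℝ) ^ (a none) := by positivity
  nlinarith

lemma zval_add (θ : σ → ℝ) (q : ℕ) (a b : Option σ → ℕ) :
    zval θ q (a + b) = zval θ q a * zval θ q b := by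
  unfold zval
  simp only [Pi.add_apply, pow_add, Finset.prod_mul_distrib]
  ring

/-- **Roth's theorem for roots**, along a sequence. -/
theorem roth_seq (S : Finset ℕ) (hS : ∀ p ∈ S, p.Prime) {θ : σ → ℝ}
    (halg : ∀ s, IsAlgebraic ℚ (θ s))
    (hind : LinearIndependent ℚ (fun o : Option σ => (o.elim 1 (fun s => θ s) : ℝ)))
    {q : ℕ → ℕ} (hq : ∀ n, n + 2 ≤ q n) (hqS : ∀ n, (q n).primeFactors ⊆ S)
    (hP : P.Monic) (hdeg : ∀ i, (P.coeff i).totalDegree ≤ (P.natDegree - i) * D)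
    (hsep : (pinf P D θ).Separable) (K : ℕ) (δ : ℝ) (hδ : 0 < δ) :
    ∃ d e : ℕ, ∀ (ρ : ℕ → ℂ) (_ : ∀ n, (P.map (evz θ (q n) ℂ)).eval (ρ n) = 0)
      (cc : ℕ → ℕ) (_ : ∀ n, cc n ≠ 0) (_ : ∀ n, (cc n).primeFactors ⊆ S)
      (_ : ∀ n, cc n ≤ q n ^ K) (v : ℕ → ℕ) (_ : ∀ n, v n ≠ 0) (_ : ∀ n, v n ≤ q n ^ K) (t : ℕ → ℤ)
      (_ : ∀ n, ‖(cc n : ℂ) * v n * ρ n - t n‖ ≤ (q n : ℝ) ^ (-δ) / v n),
      ∃ (b : Ex (Option σ) d → ℤ) (b' : Ex (Option σ) e → ℤ),
        (∃ i, b' i ≠ 0) ∧ ∀ᶠ n in (UU : Filter ℕ),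
        (t n : ℚ) * ((q n : ℚ) ^ (3 * K) * ∑ a, b' a * ∏ i, (pt θ (q n) i : ℚ) ^ (a.1 i))
          = (cc n : ℚ) * v n * ∑ a, b a * ∏ i, (pt θ (q n) i : ℚ) ^ (a.1 i) := by
  classical
  have hL := tendsto_logq hq
  have hqn0 : ∀ n, q n ≠ 0 := fun n => by have := hq n; omega
  set R : ℕ := 3 * K with hR
  set δ' : ℝ := min δ 1 with hδ'
  have hδ'0 : 0 < δ' := lt_min hδ one_pos
  obtain ⟨e, he⟩ := card_ratio (Option σ) (R + D) (η := δ' / (2 * (K + 1))) (by positivity)
  refine ⟨e + (R + D), e, fun ρ hρ cc hc0 hcS hcK v hv0 hvK t happ => ?_⟩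
  obtain ⟨c, C, hcalg, hC0, hc⟩ := root_expand (P := P) (D := D) halg hq hP hdeg hsep ρ hρ R
  by_contra hcon
  push Not at hcon
  obtain ⟨F, hfin, θ', c', g0, κ, y, hc', H, hlam, hκ, hu, hX, hZ⟩ :=
    setup S hS θ halg hind q hq hqS hL c hcalg
  have hg1 : lv (bas S hS) none g0 ≠ 0 := by rw [hlam]; norm_num
  have hLpos : ∀ n, 0 < Real.log (q n) := fun n => by
    apply Real.log_pos
    have := hq n
    have h2 : 2 ≤ q n := by omega
    exact_mod_cast h2
  have hqp : ∀ n, (0 : ℝ) < q n := fun n => by exact_mod_cast Nat.pos_of_ne_zero (hqn0 n)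
  have hqexp : ∀ n, (q n : ℝ) = Real.exp (Real.log (q n)) := fun n => (Real.exp_log (hqp n)).symm
  -- germs of the denominators
  obtain ⟨h, κc, hκc, hcg⟩ := unit_seq S hS q hq hL cc hc0 hcS K hcK
  obtain ⟨μ, hμ⟩ : ∃ μ, Tendsto (fun n => Real.log (v n) / Real.log (q n)) (UU : Filter ℕ) (𝓝 μ) := by
    apply exists_lim _ (K : ℝ)
    refine Eventually.of_forall fun n => ⟨?_, ?_⟩
    · have h1 : (0 : ℝ) ≤ Real.log (v n) := Real.log_natCast_nonneg _
      exact div_nonneg h1 (hLpos n).le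
    · rw [div_le_iff₀ (hLpos n)]
      have h1 : (0 : ℝ) < v n := by exact_mod_cast Nat.pos_of_ne_zero (hv0 n)
      have h2 : (v n : ℝ) ≤ (q n : ℝ) ^ K := by exact_mod_cast hvK n
      have h3 := Real.log_le_log h1 h2
      rwa [Real.log_pow] at h3
  have hμK : μ ≤ K := by
    refine le_of_tendsto hμ (Eventually.of_forall fun n => ?_)
    rw [div_le_iff₀ (hLpos n)]
    have h1 : (0 : ℝ) < v n := by exact_mod_cast Nat.pos_of_ne_zero (hv0 n)
    have h2 : (v n : ℝ) ≤ (q n : ℝ) ^ K := by exact_mod_cast hvK n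
    have h3 := Real.log_le_log h1 h2
    rwa [Real.log_pow] at h3
  have hμ0 : 0 ≤ μ := by
    refine ge_of_tendsto hμ (Eventually.of_forall fun n => ?_)
    have h1 : (0 : ℝ) ≤ Real.log (v n) := Real.log_natCast_nonneg _
    exact div_nonneg h1 (hLpos n).le
  -- the twist
  have hκR : κc * (κ ^ R)⁻¹ ≠ 0 := mul_ne_zero hκc (inv_ne_zero (pow_ne_zero _ hκ))
  set hh : Fin S.card → ℝ := h - (R : ℝ) • g0 with hhh
  have hT1 : gm (fun n => (cc n : ℚ) / (q n : ℚ) ^ R)
      = ((κc * (κ ^ R)⁻¹ : KK (fun n => Real.log (q n)) hL) : GG) * ch (bas S hS) hL hh := by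
    have h1 : gm (fun n => (cc n : ℚ) / (q n : ℚ) ^ R) * gm (fun n => (q n : ℚ)) ^ R
        = gm (fun n => (cc n : ℚ)) := by
      rw [gm_pow, gm_mul]
      congr 1
      funext n
      have : (q n : ℚ) ≠ 0 := by exact_mod_cast hqn0 n
      field_simp
    have h2 : gm (fun n => (q n : ℚ)) ≠ 0 := by
      rw [gm_ne_zero]
      exact Eventually.of_forall fun n => by exact_mod_cast hqn0 n
    apply mul_right_cancel₀ (pow_ne_zero R h2)
    rw [h1, hcg, hu, mul_pow, ← ch_nsmul]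
    have h3 : ch (bas S hS) hL hh * ch (bas S hS) hL ((R : ℝ) • g0)
        = ch (bas S hS) hL h := by
      rw [← ch_add]
      congr 1
      rw [hhh]
      abel
    have h4 : (κ : GG) ^ R ≠ 0 := pow_ne_zero _ fun h0 => hκ (Subtype.ext h0)
    have h5 : ((κc * (κ ^ R)⁻¹ : KK (fun n => Real.log (q n)) hL) : GG)
        = (κc : GG) * ((κ : GG) ^ R)⁻¹ := by
      push_cast
      rfl
    rw [h5, ← h3]
    field_simp
  obtain ⟨T, hTdef⟩ : ∃ T : GG, T = gm (fun n => (cc n : ℚ) / (q n : ℚ) ^ R) * gm (fun n => (v n : ℚ)) :=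
    ⟨_, rfl⟩
  have hTgm : T = gm (fun n => (cc n : ℚ) / (q n : ℚ) ^ R * v n) := by
    rw [hTdef, gm_mul]
  have hT0 : T ≠ 0 := by
    rw [hTgm, gm_ne_zero]
    refine Eventually.of_forall fun n => ?_
    have h1 : (cc n : ℚ) ≠ 0 := by exact_mod_cast hc0 n
    have h2 : (v n : ℚ) ≠ 0 := by exact_mod_cast hv0 n
    have h3 : (q n : ℚ) ≠ 0 := by exact_mod_cast hqn0 n
    positivity
  have hvint : gm (fun n => (v n : ℚ)) = gm (fun n => (((v n : ℤ)) : ℚ)) := by
    congr 1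
  have hT1v : ∀ w : Option (Fin S.card), gm (fun n => (cc n : ℚ) / (q n : ℚ) ^ R)
      ∈ Sv (bas S hS) (fun n => Real.log (q n)) w (lv (bas S hS) w hh) := by
    intro w
    rw [hT1]
    have := (filt_v (B := bas S hS) hL w).mul_mem
      ((filt_v (B := bas S hS) hL w).alg_mem (κc * (κ ^ R)⁻¹)) (ch_mem (B := bas S hS) hL w hh)
    rw [zero_add] at this
    exact this
  have hκv : ∀ (w : Option (Fin S.card)) (k : ℕ),
      (κ : GG) ^ k ∈ Sv (bas S hS) (fun n => Real.log (q n)) w 0 := by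
    intro w k
    have := (filt_v (B := bas S hS) hL w).alg_mem (κ ^ k)
    have h2 : algebraMap (KK (fun n => Real.log (q n)) hL) GG (κ ^ k) = (κ : GG) ^ k := by
      rw [map_pow]; rfl
    rwa [h2] at this
  have hXv : ∀ (w : Fin S.card) (a : Option σ → ℕ), Xh hL κ g0 y (bas S hS) a
      ∈ Sv (bas S hS) (fun n => Real.log (q n)) (some w) ((a none : ℝ) * lv (bas S hS) (some w) g0) := by
    intro w a
    have h1 := (filt_v (B := bas S hS) hL (some w)).mul_mem (hκv (some w) (∑ i, a i))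
      (H.x_fin hL w (om g0 a))
    rw [sh_om, lv_smul, zero_add] at h1
    exact h1
  have hZI : ∀ a : Option σ → ℕ, Zh hL κ g0 θ' y (bas S hS) a
      ∈ SR (fun n => Real.log (q n)) ((a none : ℝ) * lv (bas S hS) none g0) := by
    intro a
    have h1 := SR_mul hL (SR_rho (hκv none (∑ i, a i))) (H.z_inf hL (om g0 a))
    rw [sh_om, lv_smul, zero_add, map_pow] at h1
    exact h1
  have hXint : ∀ a : Option σ → ℕ, Sint (bas S hS) (fun n => Real.log (q n))
      (Xh hL κ g0 y (bas S hS) a) := fun a =>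
    Sint.mul hL (Sint_pow (Sint.alg hL _) _ hL) (H.x_int hL _)
  have hTint : Sint (bas S hS) (fun n => Real.log (q n)) T := by
    rw [hTdef, hT1, hvint]
    exact Sint.mul hL (Sint.mul hL (Sint.alg hL _) (ch_sint hL _)) (Sint_int hL _)
  have hcoe : ∀ a b : F, ((a * b : F) : ℝ) = (a : ℝ) * (b : ℝ) := fun a b => rfl
  -- the size of the denominators
  have hvI : gr (fun n => (v n : ℝ)) ∈ SR (fun n => Real.log (q n)) (-μ) := by
    rw [mem_SR]
    intro η hη
    filter_upwards [hμ.eventually (gt_mem_nhds (show μ < μ + η by linarith))] with n hn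
    have h1 : (0 : ℝ) < v n := by exact_mod_cast Nat.pos_of_ne_zero (hv0 n)
    rw [div_lt_iff₀ (hLpos n)] at hn
    rw [abs_of_pos h1, ← Real.log_le_iff_le_exp h1]
    have : -(-μ - η) * Real.log (q n) = (μ + η) * Real.log (q n) := by ring
    rw [this]
    exact hn.le
  set cM : Ex (Option σ) e → Ex (Option σ) (e + (R + D)) → F := fun b a =>
    ∑ a' : Ex (Option σ) (R + D), if a'.1 + b.1 = a.1 then c' a' else 0 with hcM
  have key := two_block (B := bas S hS) hL F
    (fun a : Ex (Option σ) (e + (R + D)) => T * Xh hL κ g0 y (bas S hS) a.1)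
    (fun a : Ex (Option σ) (e + (R + D)) => rho T * Zh hL κ g0 θ' y (bas S hS) a.1)
    (fun a b => Mh θ' a.1 b.1) (Mh_sq hL (B := bas S hS) hg1 (e + (R + D))) ?_
    (fun a : Ex (Option σ) e => gm (fun n => (t n : ℚ)) * Xh hL κ g0 y (bas S hS) a.1)
    (fun a : Ex (Option σ) e => rho (gm (fun n => (t n : ℚ))) * Zh hL κ g0 θ' y (bas S hS) a.1)
    (fun a b => Mh θ' a.1 b.1) (Mh_sq hL (B := bas S hS) hg1 e) ?_ ?_ cM
    (fun w a => lv (bas S hS) (some w) hh + (a.1 none : ℝ) * lv (bas S hS) (some w) g0)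
    (fun a => lv (bas S hS) none hh - μ + (a.1 none : ℝ) * lv (bas S hS) none g0)
    (fun w a => (a.1 none : ℝ) * lv (bas S hS) (some w) g0)
    (fun a => (μ + δ') + (a.1 none : ℝ) * lv (bas S hS) none g0) ?_ ?_ ?_ ?_ ?_ ?_
  · -- the contradiction
    have e1 : ∀ a : Ex (Option σ) (e + (R + D)),
        ∑ w, (lv (bas S hS) (some w) hh + (a.1 none : ℝ) * lv (bas S hS) (some w) g0)
          + (lv (bas S hS) none hh - μ + (a.1 none : ℝ) * lv (bas S hS) none g0) = -μ := by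
      intro a
      rw [Finset.sum_add_distrib, ← Finset.mul_sum, sum_fin_lv, sum_fin_lv]
      ring
    have e2 : ∀ a : Ex (Option σ) e, ∑ w, (a.1 none : ℝ) * lv (bas S hS) (some w) g0
          + ((μ + δ') + (a.1 none : ℝ) * lv (bas S hS) none g0) = μ + δ' := by
      intro a
      rw [← Finset.mul_sum, sum_fin_lv]
      ring
    simp only [e1, e2] at key
    rw [Finset.sum_const, Finset.sum_const, Finset.card_univ, Finset.card_univ, Fintype.card_coe,
      Fintype.card_coe, nsmul_eq_mul, nsmul_eq_mul] at key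
    have hN : (0 : ℝ) < (Ex (Option σ) e).card := by
      have : 0 < (Ex (Option σ) e).card := Finset.card_pos.2 ⟨0, mem_Ex.2 (by simp)⟩
      exact_mod_cast this
    have h1 : ((Ex (Option σ) (e + (R + D))).card : ℝ) * μ
        ≤ (1 + δ' / (2 * (K + 1))) * (Ex (Option σ) e).card * μ :=
      mul_le_mul_of_nonneg_right he hμ0
    have h2 : δ' / (2 * (K + 1)) * μ ≤ δ' / 2 := by
      have h3 : δ' / (2 * (K + 1)) * μ ≤ δ' / (2 * (K + 1)) * (K + 1) :=
        mul_le_mul_of_nonneg_left (by linarith) (by positivity)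
      refine h3.trans (le_of_eq ?_)
      field_simp
    nlinarith
  · intro a
    rw [Zh_eq hL hg1 κ (e + (R + D)) a, Finset.mul_sum]
    refine Finset.sum_congr rfl fun b _ => ?_
    rw [map_mul]
    ring
  · intro a
    rw [Zh_eq hL hg1 κ e a, Finset.mul_sum]
    refine Finset.sum_congr rfl fun b _ => ?_
    rw [map_mul]
    ring
  · -- independence
    intro b b' hb
    have hb2 : ∀ᶠ n in (UU : Filter ℕ), (cc n : ℚ) / (q n : ℚ) ^ R * v n
        * ∑ a, b a * ∏ i, (pt θ (q n) i : ℚ) ^ (a.1 i)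
        + t n * ∑ a, b' a * ∏ i, (pt θ (q n) i : ℚ) ^ (a.1 i) = 0 := by
      have hbi : ∀ z : ℤ, (z : GG) = gm (fun _ => (z : ℚ)) := fun z => by
        have := rat_gm (z : ℚ)
        simpa using this
      simp only [hX, hbi, hTgm, gm_mul] at hb
      rw [gm_sum, gm_sum, gm_add] at hb
      have hb3 : gm (fun n => ∑ i : Ex (Option σ) (e + (R + D)), (b i : ℚ) *
          ((cc n : ℚ) / (q n : ℚ) ^ R * v n * ∏ j, (pt θ (q n) j : ℚ) ^ (i.1 j))
          + ∑ i : Ex (Option σ) e, (b' i : ℚ) * ((t n : ℚ) * ∏ j, (pt θ (q n) j : ℚ) ^ (i.1 j)))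
          = gm (fun _ => (0 : ℚ)) := by
        rw [hb]
        exact (rat_gm 0).symm.trans (by simp) |>.symm
      rw [gm_eq] at hb3
      filter_upwards [hb3] with n hn
      rw [← hn, Finset.mul_sum, Finset.mul_sum]
      congr 1
      · exact Finset.sum_congr rfl fun a _ => by ring
      · exact Finset.sum_congr rfl fun a _ => by ring
    have hb'0 : ∀ i, b' i = 0 := by
      by_contra hne
      push Not at hne
      have hc1 : ∀ᶠ n in (UU : Filter ℕ), (t n : ℚ) * ((q n : ℚ) ^ R *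
          ∑ a, b' a * ∏ i, (pt θ (q n) i : ℚ) ^ (a.1 i)) ≠ (cc n : ℚ) * v n *
          ∑ a : Ex (Option σ) (e + (R + D)), (((- b a : ℤ)) : ℚ) * ∏ i, (pt θ (q n) i : ℚ) ^ (a.1 i) :=
        hcon (fun a => - b a) b' hne
      obtain ⟨n, hn1, hn2⟩ := (hc1.and hb2).exists
      apply hn1
      have h3 : (q n : ℚ) ≠ 0 := by exact_mod_cast hqn0 n
      have h4 : (t n : ℚ) * ∑ a, b' a * ∏ i, (pt θ (q n) i : ℚ) ^ (a.1 i)
          = -((cc n : ℚ) / (q n : ℚ) ^ R * v n
            * ∑ a, b a * ∏ i, (pt θ (q n) i : ℚ) ^ (a.1 i)) := by linarith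
      have h5 : ∑ a : Ex (Option σ) (e + (R + D)), (((- b a : ℤ)) : ℚ) * ∏ i, (pt θ (q n) i : ℚ) ^ (a.1 i)
          = - ∑ a : Ex (Option σ) (e + (R + D)), (b a : ℚ) * ∏ i, (pt θ (q n) i : ℚ) ^ (a.1 i) := by
        rw [← Finset.sum_neg_distrib]
        refine Finset.sum_congr rfl fun a _ => ?_
        push_cast
        ring
      rw [h5]
      calc (t n : ℚ) * ((q n : ℚ) ^ R * ∑ a, b' a * ∏ i, (pt θ (q n) i : ℚ) ^ (a.1 i))
          = (q n : ℚ) ^ R * ((t n : ℚ) * ∑ a, b' a * ∏ i, (pt θ (q n) i : ℚ) ^ (a.1 i)) := by ring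
        _ = (q n : ℚ) ^ R * -((cc n : ℚ) / (q n : ℚ) ^ R * v n
            * ∑ a, b a * ∏ i, (pt θ (q n) i : ℚ) ^ (a.1 i)) := by rw [h4]
        _ = _ := by field_simp
    refine ⟨?_, hb'0⟩
    have h1 : T * ∑ a : Ex (Option σ) (e + (R + D)),
        ((b a : KK (fun n => Real.log (q n)) hL) : GG) * Xh hL κ g0 y (bas S hS) a.1 = 0 := by
      simp only [hb'0, Int.cast_zero, zero_mul, Finset.sum_const_zero, add_zero] at hb
      rw [Finset.mul_sum, ← hb]
      refine Finset.sum_congr rfl fun a _ => ?_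
      push_cast
      ring
    intro a
    have h2 := Xh_indep hL H hg1 hκ (e + (R + D)) (fun a => (b a : KK (fun n => Real.log (q n)) hL))
      ((mul_eq_zero.1 h1).resolve_left hT0) a
    exact_mod_cast h2
  · intro w a
    have h1 := (filt_v (B := bas S hS) hL (some w)).mul_mem (hT1v (some w))
      (int_germ hL w (fun n => (v n : ℤ)))
    rw [← hvint, ← hTdef, add_zero] at h1
    exact (filt_v (B := bas S hS) hL (some w)).mul_mem h1 (hXv w a.1)
  · intro a
    have h1 := SR_mul hL (SR_rho (hT1v none)) hvI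
    have h2 : rho (gm (fun n => (cc n : ℚ) / (q n : ℚ) ^ R)) * gr (fun n => (v n : ℝ)) = rho T := by
      rw [hTdef, map_mul]
      congr 1
    rw [h2, ← sub_eq_add_neg] at h1
    exact SR_mul hL h1 (hZI a.1)
  · intro a
    exact Sint.mul hL hTint (hXint a.1)
  · intro w a
    have h1 := (filt_v (B := bas S hS) hL (some w)).mul_mem (int_germ hL w t) (hXv w a.1)
    rwa [zero_add] at h1
  · -- the small forms
    intro b
    have e0 : rho (gm (fun n => (t n : ℚ))) = gr (fun n => (t n : ℝ)) := by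
      rw [rho_gm]
      congr 1
    have e0' : rho T = gr (fun n => (cc n : ℝ) / (q n : ℝ) ^ R * v n) := by
      rw [hTgm, rho_gm]
      congr 1
      funext n
      push_cast
      ring
    have e1 : ∑ a : Ex (Option σ) (e + (R + D)), algebraMap ℝ HR (cM b a : ℝ)
        * (rho T * Zh hL κ g0 θ' y (bas S hS) a.1)
        = gr (fun n => (cc n : ℝ) / (q n : ℝ) ^ R * v n
          * (zval θ (q n) b.1 * ∑ a' : Ex (Option σ) (R + D), c a' * zval θ (q n) a'.1)) := by
      rw [e0']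
      simp only [hZ, cst_eq, gr_mul]
      rw [gr_sum', gr_eq]
      refine Eventually.of_forall fun n => ?_
      have h1 : ∀ a : Ex (Option σ) (e + (R + D)), (cM b a : ℝ)
          = ∑ a' : Ex (Option σ) (R + D), if a'.1 + b.1 = a.1 then c a' else 0 := by
        intro a
        rw [hcM]
        simp only []
        rw [AddSubmonoidClass.coe_finsetSum]
        refine Finset.sum_congr rfl fun a' _ => ?_
        split_ifs
        · exact hc' a'
        · rfl
      simp only [h1, Finset.sum_mul, Finset.mul_sum]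
      rw [Finset.sum_comm]
      refine Finset.sum_congr rfl fun a' _ => ?_
      have hmem : a'.1 + b.1 ∈ Ex (Option σ) (e + (R + D)) := by
        have h2 := mem_Ex.1 a'.2
        have h3 := mem_Ex.1 b.2
        rw [mem_Ex]
        simp only [Pi.add_apply, Finset.sum_add_distrib]
        omega
      rw [Finset.sum_eq_single (⟨a'.1 + b.1, hmem⟩ : Ex (Option σ) (e + (R + D)))]
      · rw [if_pos rfl, zval_add]
        ring
      · intro a _ hne
        rw [if_neg (fun h => hne (Subtype.ext h.symm)), zero_mul]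
      · intro h
        exact absurd (Finset.mem_univ _) h
    rw [e1, e0, hZ, gr_mul, gr_sub, mem_SR]
    intro η hη
    have hbig : ∀ᶠ n in (UU : Filter ℕ), Real.log (1 + C) / (η / 2) ≤ Real.log (q n) :=
      ev_of_atTop (hL.eventually_ge_atTop _)
    filter_upwards [hc, hbig, hμ.eventually (lt_mem_nhds (show μ - η / 2 < μ by linarith))]
      with n h1 h2 h3
    have hq1 : (1 : ℝ) ≤ q n := by
      have := hq n
      exact_mod_cast (by omega : 1 ≤ q n)
    have hvp : (0 : ℝ) < v n := by exact_mod_cast Nat.pos_of_ne_zero (hv0 n)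
    obtain ⟨Sg, hSg⟩ : ∃ Sg : ℝ, Sg = ∑ a' : Ex (Option σ) (R + D), c a' * zval θ (q n) a'.1 := ⟨_, rfl⟩
    rw [← hSg] at h1 ⊢
    have hd1 : (q n : ℝ) ^ (-δ) ≤ (q n : ℝ) ^ (-δ') :=
      Real.rpow_le_rpow_of_exponent_le hq1 (neg_le_neg (min_le_left _ _))
    have hd2 : 1 / (q n : ℝ) ≤ (q n : ℝ) ^ (-δ') := by
      have h4 : 1 / (q n : ℝ) = (q n : ℝ) ^ (-(1 : ℝ)) := by
        rw [Real.rpow_neg_one, one_div]
      rw [h4]
      exact Real.rpow_le_rpow_of_exponent_le hq1 (neg_le_neg (min_le_right _ _))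
    have g1 : |(t n : ℝ) - cc n * v n * (ρ n).re| ≤ (q n : ℝ) ^ (-δ') / v n := by
      have h4 := (Complex.abs_re_le_norm _).trans (happ n)
      have h5 : ((cc n : ℂ) * v n * ρ n - t n).re = cc n * v n * (ρ n).re - t n := by
        have h6 : (cc n : ℂ) * v n * ρ n = (((cc n : ℝ) * v n : ℝ) : ℂ) * ρ n := by push_cast; ring
        rw [Complex.sub_re, h6, Complex.re_ofReal_mul, Complex.intCast_re]
      rw [h5, abs_sub_comm] at h4
      exact h4.trans (div_le_div_of_nonneg_right hd1 hvp.le)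
    have g2 : (cc n : ℝ) * v n / (q n : ℝ) ^ R ≤ 1 / v n := by
      rw [div_le_div_iff₀ (by positivity) hvp]
      have h4 : (cc n : ℝ) ≤ (q n : ℝ) ^ K := by exact_mod_cast hcK n
      have h5 : (v n : ℝ) ≤ (q n : ℝ) ^ K := by exact_mod_cast hvK n
      have h6 : (q n : ℝ) ^ R = (q n : ℝ) ^ K * (q n : ℝ) ^ K * (q n : ℝ) ^ K := by
        rw [hR]
        ring
      rw [h6, one_mul]
      have h7 : (0 : ℝ) ≤ (q n : ℝ) ^ K := by positivity
      exact mul_le_mul (mul_le_mul h4 h5 hvp.le h7) h5 hvp.le (by positivity)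
    have g3 : |(t n : ℝ) - cc n / (q n : ℝ) ^ R * v n * Sg| ≤ (1 + C) * ((q n : ℝ) ^ (-δ') / v n) := by
      have h4 : (t n : ℝ) - cc n / (q n : ℝ) ^ R * v n * Sg = ((t n : ℝ) - cc n * v n * (ρ n).re)
          + (cc n : ℝ) * v n / (q n : ℝ) ^ R * ((ρ n).re * (q n : ℝ) ^ R - Sg) := by
        field_simp
        ring
      rw [h4]
      refine (abs_add_le _ _).trans ?_
      rw [abs_mul, abs_of_nonneg (show 0 ≤ (cc n : ℝ) * v n / (q n : ℝ) ^ R by positivity)]
      have h5 : (cc n : ℝ) * v n / (q n : ℝ) ^ R * |(ρ n).re * (q n : ℝ) ^ R - Sg|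
          ≤ 1 / v n * (C / q n) := mul_le_mul g2 h1 (abs_nonneg _) (by positivity)
      have h6 : 1 / (v n : ℝ) * (C / q n) ≤ C * ((q n : ℝ) ^ (-δ') / v n) := by
        have h7 : 1 / (v n : ℝ) * (C / q n) = C * (1 / q n) / v n := by field_simp
        rw [h7]
        refine (div_le_div_of_nonneg_right (mul_le_mul_of_nonneg_left hd2 hC0) hvp.le).trans
          (le_of_eq (mul_div_assoc _ _ _))
      linarith
    have e4 : (t n : ℝ) * zval θ (q n) b.1 - cc n / (q n : ℝ) ^ R * v n * (zval θ (q n) b.1 * Sg)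
        = zval θ (q n) b.1 * ((t n : ℝ) - cc n / (q n : ℝ) ^ R * v n * Sg) := by ring
    rw [e4, abs_mul, abs_of_nonneg (zval_nonneg θ (q n) b.1)]
    have h5 : (1 + C) ≤ Real.exp (η / 2 * Real.log (q n)) := by
      rw [div_le_iff₀ (by positivity)] at h2
      rw [← Real.log_le_iff_le_exp (by positivity)]
      linarith
    have h6 : (q n : ℝ) ^ (-δ') = Real.exp (-δ' * Real.log (q n)) := by
      rw [Real.rpow_def_of_pos (hqp n)]
      congr 1
      ring
    have h7 : 1 / (v n : ℝ) ≤ Real.exp (-(μ - η / 2) * Real.log (q n)) := by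
      rw [lt_div_iff₀ (hLpos n), Real.lt_log_iff_exp_lt hvp] at h3
      rw [one_div, neg_mul, Real.exp_neg]
      exact inv_anti₀ (Real.exp_pos _) h3.le
    have h8 : (q n : ℝ) ^ (b.1 none) = Real.exp ((b.1 none : ℝ) * Real.log (q n)) := by
      rw [Real.exp_nat_mul, Real.exp_log (hqp n)]
    calc zval θ (q n) b.1 * |(t n : ℝ) - cc n / (q n : ℝ) ^ R * v n * Sg|
        ≤ (q n : ℝ) ^ (b.1 none) * ((1 + C) * ((q n : ℝ) ^ (-δ') / v n)) :=
          mul_le_mul (zval_le θ (q n) b.1) g3 (abs_nonneg _) (by positivity)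
      _ = (q n : ℝ) ^ (b.1 none) * ((1 + C) * ((q n : ℝ) ^ (-δ') * (1 / v n))) := by ring
      _ ≤ Real.exp ((b.1 none : ℝ) * Real.log (q n)) * (Real.exp (η / 2 * Real.log (q n))
          * (Real.exp (-δ' * Real.log (q n)) * Real.exp (-(μ - η / 2) * Real.log (q n)))) := by
          rw [h8, h6]
          apply mul_le_mul_of_nonneg_left _ (Real.exp_pos _).le
          apply mul_le_mul h5 _ (by positivity) (Real.exp_pos _).le
          exact mul_le_mul_of_nonneg_left h7 (Real.exp_pos _).le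
      _ = Real.exp (-(μ + δ' + (b.1 none : ℝ) * lv (bas S hS) none g0 - η) * Real.log (q n)) := by
          rw [hlam, ← Real.exp_add, ← Real.exp_add, ← Real.exp_add]
          congr 1
          ring
  · intro a
    exact Sint.mul hL (Sint_int hL _) (hXint a.1)

end

end Pool.Agent.Q4.Cov
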