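import Mathlib
import Pool.Agent.Q4.Cov.RothSeq

set_option autoImplicit false
set_option linter.unusedSectionVars false

/-!
# Roth's theorem for roots at truncated products
-/

namespace Pool.Agent.Q4.Cov

open Filter Topology Pool.Agent.TH932.Abs Pool.Agent.TH932.Germs Pool.Agent.TH932.Chi
open Pool.Agent.TH796.AL Pool.Agent.Q4.Blk Pool.Agent.Q4.Gcd Module

section
variable {σ : Type} [Fintype σ] [DecidableEq σ]

open MvPolynomial

lemma coeff_polyOf {D : ℕ} (γ : Ex (Option σ) D → ℚ) (a : Ex (Option σ) D) :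
    coeff (fs a.1) (polyOf γ) = γ a := by
  classical
  unfold polyOf
  rw [coeff_sum, Finset.sum_eq_single a]
  · rw [coeff_monomial, if_pos rfl]
  · intro b _ hb
    rw [coeff_monomial, if_neg]
    intro h
    apply hb
    apply Subtype.ext
    funext i
    have := DFunLike.congr_fun h i
    simpa [fs] using this
  · intro h
    exact absurd (Finset.mem_univ _) h

/-- **Roth's theorem for roots at truncated products** -/
theorem roth_roots (S : Finset ℕ) (hS : ∀ p ∈ S, p.Prime) (θ : σ → ℝ)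
    (halg : ∀ s, IsAlgebraic ℚ (θ s))
    (hind : LinearIndependent ℚ (fun o : Option σ => (o.elim 1 (fun s => θ s) : ℝ)))
    (P : Polynomial (MvPolynomial (Option σ) ℤ)) (D : ℕ)
    (hP : P.Monic) (hdeg : ∀ i, (P.coeff i).totalDegree ≤ (P.natDegree - i) * D)
    (hsep : (pinf P D θ).Separable) (K : ℕ) (δ : ℝ) (hδ : 0 < δ) :
    ∃ (A : Finset (MvPolynomial (Option σ) ℚ × MvPolynomial (Option σ) ℚ)) (q₀ : ℕ),
      ∀ q ≥ q₀, q.primeFactors ⊆ S → ∀ ρ : ℂ, (P.map (evz θ q ℂ)).eval ρ = 0 →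
      ∀ c : ℕ, c ≠ 0 → c.primeFactors ⊆ S → c ≤ q ^ K → ∀ v : ℕ, v ≠ 0 → v ≤ q ^ K →
      ∀ t : ℤ, ‖(c : ℂ) * v * ρ - t‖ ≤ (q : ℝ) ^ (-δ) / v →
      ∃ G ∈ A, aeval (fun i => (pt θ q i : ℚ)) G.2 ≠ 0 ∧ (t : ℚ) / (c * v)
        = aeval (fun i => (pt θ q i : ℚ)) G.1 / aeval (fun i => (pt θ q i : ℚ)) G.2 := by
  classical
  by_contra hcon
  push Not at hcon
  obtain ⟨e, he⟩ := exists_surjective_nat
    (Σ p : ℕ × ℕ, (Ex (Option σ) p.1 → ℤ) × (Ex (Option σ) p.2 → ℤ))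
  set Ψ : (Σ p : ℕ × ℕ, (Ex (Option σ) p.1 → ℤ) × (Ex (Option σ) p.2 → ℤ)) →
    MvPolynomial (Option σ) ℚ × MvPolynomial (Option σ) ℚ := fun x =>
      (polyOf (fun a => (x.2.1 a : ℚ)), X none ^ (3 * K) * polyOf (fun a => (x.2.2 a : ℚ))) with hΨ
  choose q hq hqS ρ hρ c hc0 hcS hcK v hv0 hvK t happ hno using fun n : ℕ =>
    hcon ((Finset.range (n + 1)).image fun i => Ψ (e i)) (n + 2)
  have hq' : ∀ n, n + 2 ≤ q n := hq
  obtain ⟨d, e', hde⟩ := roth_seq (P := P) (D := D) S hS halg hind hq' hqS hP hdeg hsep K δ hδ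
  obtain ⟨b, b', ⟨i0, hi0⟩, hbb⟩ := hde ρ hρ c hc0 hcS hcK v hv0 hvK t happ
  obtain ⟨i, hi⟩ := he ⟨(d, e'), (b, b')⟩
  have hbig : ∀ᶠ n in (UU : Filter ℕ), i ≤ n := ev_of_atTop (Filter.eventually_ge_atTop i)
  have hne : (Ψ (e i)).2 ≠ 0 := by
    rw [hi, hΨ]
    simp only []
    apply mul_ne_zero (pow_ne_zero _ (X_ne_zero _))
    intro h
    have h1 := coeff_polyOf (fun a => (b' a : ℚ)) i0
    rw [h, coeff_zero] at h1
    exact hi0 (by exact_mod_cast h1.symm)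
  have hnz : ∀ᶠ n in (UU : Filter ℕ), aeval (fun i => (pt θ (q n) i : ℚ)) (Ψ (e i)).2 ≠ 0 := by
    have h1 : ¬ ∀ᶠ n in (UU : Filter ℕ), aeval (fun i => (pt θ (q n) i : ℚ)) (Ψ (e i)).2 = 0 :=
      fun h => hne (vanish S hS θ halg hind q hq' hqS _ h)
    exact Ultrafilter.eventually_not.2 h1
  obtain ⟨n, ⟨h1, h2⟩, h3⟩ := ((hbb.and hbig).and hnz).exists
  refine hno n (Ψ (e i)) ?_ h3 ?_
  · rw [Finset.mem_image]
    exact ⟨i, Finset.mem_range.2 (by omega), rfl⟩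
  · have hc : (c n : ℚ) ≠ 0 := by exact_mod_cast hc0 n
    have hv : (v n : ℚ) ≠ 0 := by exact_mod_cast hv0 n
    rw [div_eq_div_iff (mul_ne_zero hc hv) h3]
    rw [hi, hΨ]
    simp only [map_mul, map_pow, aeval_X, aeval_polyOf]
    rw [show (pt θ (q n) none : ℚ) = (q n : ℚ) by simp [pt]]
    rw [h1]
    ring

end

end Pool.Agent.Q4.Cov
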